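import Mathlib
import Pool.Agent.NIPFields.FI.Tree

set_option autoImplicit false

/-!
# Finite colourings of a small neighbourhood of `1`

`B` is a small additive and multiplicative neighbourhood of `0` in a field `K`, and `c` is a
colouring of `1 + B` by a finite group which is multiplicative.
-/

namespace Pool.Agent.NIPFields.LC

open Finset

/-- A small neighbourhood of `0`, closed under the operations. -/
structure BD {K : Type*} [Field K] (B : Set K) : Prop where
  zero : (0 : K) ∈ B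
  add : ∀ x ∈ B, ∀ y ∈ B, x + y ∈ B
  neg : ∀ x ∈ B, -x ∈ B
  mul : ∀ x ∈ B, ∀ y ∈ B, x * y ∈ B
  ne : ∀ x ∈ B, 1 + x ≠ 0
  div : ∀ x ∈ B, x / (1 + x) ∈ B
  inf : ∀ A : Finset K, {t : K | ∀ a ∈ A, t * a ∈ B}.Infinite

/-- Basic neighbourhoods. -/
def NbB {K : Type*} [Field K] {Q : Type*} [Group Q] (B : Set K) (c : K → Q) (F : Finset K) :
    Set K := {δ | ∀ g ∈ F, g * δ ∈ B ∧ c (1 + g * δ) = 1}

section

variable {K : Type*} [Field K] {Q : Type*} [Group Q] {B : Set K} {c : K → Q}

theorem BD.div' (hB : BD B) {x y : K} (hx : x ∈ B) (hy : y ∈ B) : x / (1 + y) ∈ B := by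
  have h0 := hB.ne y hy
  have h1 : x / (1 + y) = x + -(x * (y / (1 + y))) := by
    field_simp
    ring
  rw [h1]
  exact hB.add _ hx _ (hB.neg _ (hB.mul _ hx _ (hB.div _ hy)))

theorem BD.one_add_mul (hB : BD B) {x y : K} (hx : x ∈ B) (hy : y ∈ B) : (1 + x) * y ∈ B := by
  rw [add_mul, one_mul]
  exact hB.add _ hy _ (hB.mul _ hx _ hy)

theorem BD.sum (hB : BD B) {ι : Type*} (s : Finset ι) (f : ι → K) (h : ∀ i ∈ s, f i ∈ B) :
    ∑ i ∈ s, f i ∈ B := by
  classical
  induction s using Finset.induction_on with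
  | empty => rw [Finset.sum_empty]; exact hB.zero
  | insert i s hi ih =>
    rw [Finset.sum_insert hi]
    exact hB.add _ (h i (Finset.mem_insert_self _ _)) _
      (ih fun j hj => h j (Finset.mem_insert_of_mem hj))

/-- If `g δ` is small then multiplication by `1 + g δ` does not change the colour. -/
theorem BD.color (hB : BD B)
    (hc : ∀ x ∈ B, ∀ y ∈ B, c ((1 + x) * (1 + y)) = c (1 + x) * c (1 + y))
    {f x δ : K} (hx : f * x ∈ B) (hδ : f / (1 + f * x) * δ ∈ B)
    (hδ1 : c (1 + f / (1 + f * x) * δ) = 1) :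
    f * δ ∈ B ∧ f * (x + δ) ∈ B ∧ c (1 + f * (x + δ)) = c (1 + f * x) := by
  have h0 := hB.ne _ hx
  have h1 : f * δ = (1 + f * x) * (f / (1 + f * x) * δ) := by
    field_simp
  have h2 : f * δ ∈ B := by
    rw [h1]
    exact hB.one_add_mul hx hδ
  refine ⟨h2, ?_, ?_⟩
  · rw [mul_add]
    exact hB.add _ hx _ h2
  · have h3 : 1 + f * (x + δ) = (1 + f * x) * (1 + f / (1 + f * x) * δ) := by
      rw [mul_add (1 + f * x), mul_one, ← h1]
      ring
    rw [h3, hc _ hx _ hδ, hδ1, mul_one]

/-- Small weights all of whose partial sums are non-zero. -/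
theorem exists_weightsB (hB : BD B) (A : Finset K) {ι : Type*} [DecidableEq ι] (s : Finset ι) :
    ∃ t : ι → K, (∀ i ∈ s, ∀ a ∈ A, t i * a ∈ B) ∧
      ∀ S ⊆ s, S.Nonempty → ∑ i ∈ S, t i ≠ 0 := by
  classical
  induction s using Finset.induction_on with
  | empty =>
    refine ⟨fun _ => 0, fun i hi => absurd hi (Finset.notMem_empty i), fun S hS hne => ?_⟩
    rw [Finset.subset_empty] at hS
    exact absurd hne (by rw [hS]; exact Finset.not_nonempty_empty)
  | insert i s hi ih =>
    obtain ⟨t, htA, ht⟩ := ih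
    obtain ⟨w, hwA, hw⟩ := (hB.inf A).exists_notMem_finset
      (s.powerset.image fun S => - ∑ j ∈ S, t j)
    refine ⟨Function.update t i w, ?_, fun S hS hne => ?_⟩
    · intro j hj a ha
      rcases Finset.mem_insert.1 hj with hji | hjs
      · rw [hji, Function.update_self]
        exact hwA a ha
      · rw [Function.update_of_ne]
        · exact htA j hjs a ha
        · intro hji
          exact hi (hji ▸ hjs)
    have hsum : ∀ S' ⊆ s, ∑ j ∈ S', Function.update t i w j = ∑ j ∈ S', t j := by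
      intro S' hS'
      refine Finset.sum_congr rfl fun j hj => ?_
      rw [Function.update_of_ne]
      rintro rfl
      exact hi (hS' hj)
    by_cases hiS : i ∈ S
    · have h1 : S = insert i (S.erase i) := (Finset.insert_erase hiS).symm
      have h2 : S.erase i ⊆ s := by
        intro j hj
        rw [Finset.mem_erase] at hj
        exact (Finset.mem_insert.1 (hS hj.2)).resolve_left hj.1
      rw [h1, Finset.sum_insert (Finset.notMem_erase i S), hsum _ h2, Function.update_self]
      intro h0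
      apply hw
      rw [Finset.mem_image]
      exact ⟨S.erase i, Finset.mem_powerset.2 h2, (eq_neg_of_add_eq_zero_left h0).symm⟩
    · have h2 : S ⊆ s := by
        intro j hj
        refine (Finset.mem_insert.1 (hS hj)).resolve_left ?_
        rintro rfl
        exact hiS hj
      rw [hsum _ h2]
      exact ht S h2 hne

end

theorem exists_mem_NbB {K : Type*} [Field K] {Q : Type*} [Group Q] [Finite Q] {B : Set K}
    (hB : BD B) {c : K → Q}
    (hc : ∀ x ∈ B, ∀ y ∈ B, c ((1 + x) * (1 + y)) = c (1 + x) * c (1 + y)) (F : Finset K) :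
    ∃ δ, δ ≠ 0 ∧ δ ∈ NbB B c F := by
  classical
  -- the alphabet
  let A : Finset K := insert 0 (insert 1 F)
  obtain ⟨ι, hι, hHJ⟩ := Combinatorics.Line.exists_mono_in_high_dimension A Q
  obtain ⟨t, htA, ht⟩ := exists_weightsB hB A (Finset.univ : Finset ι)
  obtain ⟨l, q, hl⟩ := hHJ (fun w => c (1 + ∑ i, t i * (w i : K)))
  let S : Finset ι := Finset.univ.filter fun i => l.idxFun i = none
  have hS : S.Nonempty := by
    obtain ⟨i, hi⟩ := l.proper
    exact ⟨i, Finset.mem_filter.2 ⟨Finset.mem_univ _, hi⟩⟩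
  let d : K := ∑ i ∈ S, t i
  have hd : d ≠ 0 := ht S (Finset.subset_univ _) hS
  let x₀ : K := ∑ i ∈ Sᶜ, t i * (((l.idxFun i).getD ⟨0, Finset.mem_insert_self _ _⟩ : A) : K)
  have hx₀B : x₀ ∈ B := hB.sum _ _ fun i _ => htA i (Finset.mem_univ _) _ (Subtype.mem _)
  have hdB : ∀ a ∈ A, d * a ∈ B := by
    intro a ha
    have : d * a = ∑ i ∈ S, t i * a := Finset.sum_mul _ _ _
    rw [this]
    exact hB.sum _ _ fun i _ => htA i (Finset.mem_univ _) a ha
  have hval : ∀ a : A, c (1 + (d * (a : K) + x₀)) = q := by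
    intro a
    rw [← hl a]
    congr 2
    rw [← Finset.sum_add_sum_compl S]
    congr 1
    · rw [Finset.sum_mul]
      refine Finset.sum_congr rfl fun i hi => ?_
      have hi' : l.idxFun i = none := (Finset.mem_filter.1 hi).2
      rw [l.apply_none a i hi']
    · refine Finset.sum_congr rfl fun i hi => ?_
      have hi' : l.idxFun i ≠ none := by
        intro h
        exact (Finset.mem_compl.1 hi) (Finset.mem_filter.2 ⟨Finset.mem_univ _, h⟩)
      obtain ⟨b, hb⟩ := Option.ne_none_iff_exists'.1 hi'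
      rw [l.apply_def]
      simp only [hb, Option.getD_some]
  have h0 : c (1 + x₀) = q := by
    have := hval ⟨0, Finset.mem_insert_self _ _⟩
    rwa [mul_zero, zero_add] at this
  have hx₀ : 1 + x₀ ≠ 0 := hB.ne _ hx₀B
  refine ⟨d / (1 + x₀), div_ne_zero hd hx₀, fun f hf => ?_⟩
  have hf' : f ∈ A := Finset.mem_insert_of_mem (Finset.mem_insert_of_mem hf)
  have h2 := hval ⟨f, hf'⟩
  have h3 : f * (d / (1 + x₀)) = d * f / (1 + x₀) := by ring
  have h4 : f * (d / (1 + x₀)) ∈ B := by
    rw [h3]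
    exact hB.div' (hdB f hf') hx₀B
  refine ⟨h4, ?_⟩
  have h5 := hc _ hx₀B _ h4
  have h6 : (1 + x₀) * (1 + f * (d / (1 + x₀))) = 1 + (d * f + x₀) := by
    field_simp
    ring
  rw [h6, h2, h0] at h5
  exact (mul_eq_left.1 h5.symm)

/-- The tree construction. -/
theorem exists_treeB {K : Type*} [Field K] {Q : Type*} [Group Q] {B : Set K}
    (hB : BD B) {c : K → Q}
    (hc : ∀ x ∈ B, ∀ y ∈ B, c ((1 + x) * (1 + y)) = c (1 + x) * c (1 + y))
    (h : ∀ X F : Finset K, ∃ f : K, (∀ x ∈ X, f * x ∈ B) ∧ ∀ x ∈ X, ∃ δ ∈ NbB B c F,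
      f * δ ∈ B ∧ c (1 + f * (x + δ)) ≠ c (1 + f * x)) (m : ℕ) :
    ∃ (X : Finset K) (f : Fin m → K), X.card = 2 ^ m ∧ (∀ x ∈ X, ∀ k, f k * x ∈ B) ∧
      ∀ x ∈ X, ∀ x' ∈ X, (∀ k, c (1 + f k * x) = c (1 + f k * x')) → x = x' := by
  classical
  induction m with
  | zero =>
    refine ⟨{0}, fun k => k.elim0, by simp, fun x _ k => k.elim0, ?_⟩
    intro x hx x' hx' _
    rw [Finset.mem_singleton] at hx hx'
    rw [hx, hx']
  | succ m ih =>
    obtain ⟨X, y, hcard, hne, hinj⟩ := ih
    let F : Finset K := X.biUnion fun x => Finset.univ.image fun k => y k / (1 + y k * x)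
    obtain ⟨z, hz0, hz⟩ := h X F
    choose! δ hδ h2 h3 using hz
    have hold : ∀ x ∈ X, ∀ k, y k * (x + δ x) ∈ B ∧
        c (1 + y k * (x + δ x)) = c (1 + y k * x) := by
      intro x hx k
      have h4 := hδ x hx (y k / (1 + y k * x)) (Finset.mem_biUnion.2
        ⟨x, hx, Finset.mem_image_of_mem _ (Finset.mem_univ k)⟩)
      exact (hB.color hc (hne x hx k) h4.1 h4.2).2
    have hnew : ∀ x ∈ X, z * (x + δ x) ∈ B ∧ c (1 + z * (x + δ x)) ≠ c (1 + z * x) := by
      intro x hx
      refine ⟨?_, h3 x hx⟩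
      rw [mul_add]
      exact hB.add _ (hz0 x hx) _ (h2 x hx)
    have hinj1 : Set.InjOn (fun x => x + δ x) X := by
      intro x hx x' hx' hxx
      refine hinj x hx x' hx' (fun k => ?_)
      rw [← (hold x hx k).2, ← (hold x' hx' k).2]
      have hxx' : x + δ x = x' + δ x' := hxx
      rw [hxx']
    have hdisj : Disjoint X (X.image fun x => x + δ x) := by
      rw [Finset.disjoint_left]
      intro x' hx' hx''
      obtain ⟨x, hx, hxx⟩ := Finset.mem_image.1 hx''
      have hxx' : x + δ x = x' := hxx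
      have h4 : x = x' := by
        refine hinj x hx x' hx' (fun k => ?_)
        rw [← (hold x hx k).2, hxx']
      have h5 := (hnew x hx).2
      rw [hxx', h4] at h5
      exact h5 rfl
    refine ⟨X ∪ X.image (fun x => x + δ x), Fin.snoc y z, ?_, ?_, ?_⟩
    · rw [Finset.card_union_of_disjoint hdisj, Finset.card_image_of_injOn hinj1, hcard, pow_succ]
      ring
    · intro x hx k
      refine Fin.lastCases ?_ (fun k => ?_) k
      · rw [Fin.snoc_last]
        rcases Finset.mem_union.1 hx with hx | hx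
        · exact hz0 x hx
        · obtain ⟨w, hw, rfl⟩ := Finset.mem_image.1 hx
          exact (hnew w hw).1
      · rw [Fin.snoc_castSucc]
        rcases Finset.mem_union.1 hx with hx | hx
        · exact hne x hx k
        · obtain ⟨w, hw, rfl⟩ := Finset.mem_image.1 hx
          exact (hold w hw k).1
    · -- injectivity
      have key : ∀ x ∈ X, ∀ x' ∈ X, (∀ k : Fin m, c (1 + y k * x) = c (1 + y k * x')) →
          x = x' := hinj
      intro x hx x' hx' hxx'
      have hlast : c (1 + z * x) = c (1 + z * x') := by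
        have := hxx' (Fin.last m)
        rwa [Fin.snoc_last] at this
      have hk : ∀ k : Fin m, c (1 + y k * x) = c (1 + y k * x') := by
        intro k
        have := hxx' k.castSucc
        rwa [Fin.snoc_castSucc] at this
      rcases Finset.mem_union.1 hx with hx | hx
      · rcases Finset.mem_union.1 hx' with hx' | hx'
        · exact key x hx x' hx' hk
        · obtain ⟨w, hw, rfl⟩ := Finset.mem_image.1 hx'
          have h4 : x = w := key x hx w hw (fun k => by rw [hk k, (hold w hw k).2])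
          subst h4
          exact absurd hlast.symm (hnew x hx).2
      · obtain ⟨w, hw, rfl⟩ := Finset.mem_image.1 hx
        rcases Finset.mem_union.1 hx' with hx' | hx'
        · have h4 : w = x' := key w hw x' hx' (fun k => by rw [← (hold w hw k).2, hk k])
          subst h4
          exact absurd hlast (hnew w hw).2
        · obtain ⟨w', hw', rfl⟩ := Finset.mem_image.1 hx'
          have h4 : w = w' := key w hw w' hw' (fun k => by
            rw [← (hold w hw k).2, hk k, (hold w' hw' k).2])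
          rw [h4]

theorem exists_goodB {K : Type*} [Field K] {Q : Type*} [Group Q] [Finite Q] {B : Set K}
    (hB : BD B) {c : K → Q}
    (hc : ∀ x ∈ B, ∀ y ∈ B, c ((1 + x) * (1 + y)) = c (1 + x) * c (1 + y))
    (hVC : ∀ q : Q, ∃ d : ℕ, ∀ f : Fin d → K, ∃ J : Finset (Fin d), ∀ x : K,
      (∀ i, f i * x ∈ B) → ∃ i, ¬ (c (1 + f i * x) = q ↔ i ∈ J)) :
    ∃ X F : Finset K, ∀ f : K, (∀ x ∈ X, f * x ∈ B) → ∃ x ∈ X, ∀ δ ∈ NbB B c F, f * δ ∈ B →
      c (1 + f * (x + δ)) = c (1 + f * x) := by
  classical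
  by_contra hcon
  push Not at hcon
  choose d hd using hVC
  have _ := Fintype.ofFinite Q
  obtain ⟨m, hm⟩ := FI.exists_pow_lt (∑ q, d q)
  obtain ⟨X, y, hcard, hne, hinj⟩ := exists_treeB hB hc hcon m
  let g : K → Q → Finset (Fin m) := fun x q => Finset.univ.filter fun k => c (1 + y k * x) = q
  let 𝒜 : Q → Finset (Finset (Fin m)) := fun q => X.image fun x => g x q
  have hA : ∀ q, (𝒜 q).card ≤ (m + 1) ^ (d q) := by
    intro q
    have hdim : (𝒜 q).vcDim ≤ d q := by
      unfold Finset.vcDim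
      refine Finset.sup_le fun s hs => ?_
      rw [Finset.mem_shatterer] at hs
      by_contra hlt
      rw [not_le] at hlt
      obtain ⟨s', hs', hcs'⟩ := Finset.exists_subset_card_eq hlt.le
      have hsh : (𝒜 q).Shatters s' := hs.mono_right hs'
      let e : Fin (d q) ≃ s' := (Fintype.equivFinOfCardEq (by
        rw [Fintype.card_coe, hcs'])).symm
      obtain ⟨J, hJ⟩ := hd q (fun i => y (e i))
      obtain ⟨u, hu, hu'⟩ := hsh (t := (J.image fun i => (e i : Fin m))) (by
        intro k hk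
        obtain ⟨i, _, rfl⟩ := Finset.mem_image.1 hk
        exact (e i).2)
      obtain ⟨x, hx, rfl⟩ := Finset.mem_image.1 hu
      obtain ⟨i, hi⟩ := hJ x (fun i => hne x hx _)
      apply hi
      have h3 : ((e i : Fin m) ∈ s' ∩ g x q) ↔ (e i : Fin m) ∈ J.image fun i => (e i : Fin m) :=
        by rw [hu']
      rw [Finset.mem_inter, Finset.mem_filter, Finset.mem_image] at h3
      constructor
      · intro h
        obtain ⟨i', hi', hii'⟩ := h3.1 ⟨(e i).2, Finset.mem_univ _, h⟩
        have : i' = i := e.injective (Subtype.ext hii')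
        exact this ▸ hi'
      · intro h
        exact (h3.2 ⟨i, h, rfl⟩).2.2
    calc (𝒜 q).card ≤ (𝒜 q).shatterer.card := Finset.card_le_card_shatterer _
      _ ≤ ∑ k ∈ Finset.Iic (𝒜 q).vcDim, (Fintype.card (Fin m)).choose k :=
          Finset.card_shatterer_le_sum_vcDim
      _ = ∑ k ∈ Finset.Iic (𝒜 q).vcDim, m.choose k := by rw [Fintype.card_fin]
      _ ≤ (m + 1) ^ (𝒜 q).vcDim := FI.sum_choose_le _ _
      _ ≤ (m + 1) ^ (d q) := Nat.pow_le_pow_right (Nat.succ_pos _) hdim
  have hX : X.card ≤ (Fintype.piFinset 𝒜).card := by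
    refine Finset.card_le_card_of_injOn (fun x => g x) ?_ ?_
    · intro x hx
      rw [Finset.mem_coe, Fintype.mem_piFinset]
      exact fun q => Finset.mem_image_of_mem _ hx
    · intro x hx x' hx' hxx'
      refine hinj x hx x' hx' (fun k => ?_)
      have h1 : g x (c (1 + y k * x)) = g x' (c (1 + y k * x)) := congrFun hxx' _
      have h2 : k ∈ g x' (c (1 + y k * x)) := by
        rw [← h1]
        exact Finset.mem_filter.2 ⟨Finset.mem_univ _, rfl⟩
      exact (Finset.mem_filter.1 h2).2.symm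
  rw [Fintype.card_piFinset, hcard] at hX
  have h1 : ∏ q, (𝒜 q).card ≤ ∏ q : Q, (m + 1) ^ (d q) := Finset.prod_le_prod' fun q _ => hA q
  rw [Finset.prod_pow_eq_pow_sum] at h1
  exact absurd (hX.trans h1) (not_le.2 hm)

/-- If addition is not jointly continuous there are bad elements for all finite sets. -/
theorem exists_badB {K : Type*} [Field K] {Q : Type*} [Group Q] {B : Set K}
    (hB : BD B) {c : K → Q}
    (hc : ∀ x ∈ B, ∀ y ∈ B, c ((1 + x) * (1 + y)) = c (1 + x) * c (1 + y))
    (hneg : ∀ F' : Finset K, ∃ α ∈ NbB B c F', ∃ β ∈ NbB B c F',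
      α + β ∈ B → c (1 + α + β) ≠ 1)
    (X F : Finset K) (Y : Finset K) (hY : Y ⊆ X) :
    ∃ f : K, f ≠ 0 ∧ (∀ x ∈ X, f * x ∈ B) ∧ ∀ x ∈ Y, ∃ δ ∈ NbB B c F,
      f * δ ∈ B ∧ c (1 + f * (x + δ)) ≠ c (1 + f * x) := by
  classical
  induction Y using Finset.induction_on with
  | empty =>
    obtain ⟨w, hwA, hw⟩ := (hB.inf X).exists_notMem_finset {0}
    exact ⟨w, by simpa using hw, hwA, fun x hx => absurd hx (Finset.notMem_empty x)⟩
  | insert x₀ Y hx₀Y ih =>
    obtain ⟨f, hf0, hfX, hbad⟩ := ih ((Finset.subset_insert _ _).trans hY)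
    choose! d hd h2 h3 using hbad
    have hx₀ : x₀ ∈ X := hY (Finset.mem_insert_self _ _)
    have hYX : Y ⊆ X := (Finset.subset_insert _ _).trans hY
    set s := 1 + f * x₀ with hs
    have hs0 : s ≠ 0 := hB.ne _ (hfX x₀ hx₀)
    obtain ⟨α, hα, β, hβ, hαβ⟩ := hneg (insert 1 ((F ∪ (insert f
      (X.image (fun x => f / (1 + f * x)) ∪
        Y.image (fun x => f / (1 + f * (x + d x)))))).image (fun g => g * s / f)))
    have hα1 := hα 1 (Finset.mem_insert_self _ _)
    have hβ1 := hβ 1 (Finset.mem_insert_self _ _)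
    rw [one_mul] at hα1 hβ1
    have hαβ1 : c (1 + α + β) ≠ 1 := hαβ (hB.add _ hα1.1 _ hβ1.1)
    -- transfer of smallness
    have htr : ∀ γ : K, γ ∈ NbB B c (insert 1 ((F ∪ (insert f
      (X.image (fun x => f / (1 + f * x)) ∪
        Y.image (fun x => f / (1 + f * (x + d x)))))).image (fun g => g * s / f))) →
        ∀ g ∈ F ∪ (insert f (X.image (fun x => f / (1 + f * x)) ∪
          Y.image (fun x => f / (1 + f * (x + d x))))),
        g * (s * γ / f) ∈ B ∧ c (1 + g * (s * γ / f)) = 1 := by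
      intro γ hγ g hg
      have h4 := hγ (g * s / f) (Finset.mem_insert_of_mem (Finset.mem_image_of_mem _ hg))
      have h5 : g * (s * γ / f) = g * s / f * γ := by ring
      rw [h5]
      exact h4
    set η := s * α / f with hη
    set δ := s * β / f with hδ
    have hηg := htr α hα
    have hδg := htr β hβ
    rw [← hη] at hηg
    rw [← hδ] at hδg
    have hfη : f * η = s * α := by rw [hη]; field_simp
    have hfδ : f * δ = s * β := by rw [hδ]; field_simp
    have hfm : f ∈ F ∪ (insert f (X.image (fun x => f / (1 + f * x)) ∪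
          Y.image (fun x => f / (1 + f * (x + d x))))) :=
      Finset.mem_union_right _ (Finset.mem_insert_self _ _)
    have hη1 := hηg f hfm
    have hη0 : 1 + f * η ≠ 0 := hB.ne _ hη1.1
    -- the key computation
    have hkey : ∀ u : K, f * u ∈ B → f / (1 + f * η) * u ∈ B ∧
        c (1 + f / (1 + f * η) * u) = c (1 + f * η + f * u) := by
      intro u hu
      have h4 : f / (1 + f * η) * u = f * u / (1 + f * η) := by ring
      have h5 : f / (1 + f * η) * u ∈ B := by
        rw [h4]
        exact hB.div' hu hη1.1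
      refine ⟨h5, ?_⟩
      have h6 := hc _ hη1.1 _ h5
      rw [hη1.2, one_mul] at h6
      rw [← h6]
      congr 1
      field_simp
    have hkey2 : ∀ u : K, f * u ∈ B → (f / (1 + f * u) * η ∈ B ∧
        c (1 + f / (1 + f * u) * η) = 1) → c (1 + f / (1 + f * η) * u) = c (1 + f * u) := by
      intro u hu hu1
      rw [(hkey u hu).2]
      have h4 := (hB.color hc hu hu1.1 hu1.2).2.2
      rw [← h4]
      congr 1
      ring
    refine ⟨f / (1 + f * η), div_ne_zero hf0 hη0, fun x hx => (hkey x (hfX x hx)).1, ?_⟩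
    intro x hx
    rcases Finset.mem_insert.1 hx with rfl | hxY
    · refine ⟨δ, fun g hg => hδg g (Finset.mem_union_left _ hg), ?_, ?_⟩
      · refine (hkey δ ?_).1
        rw [hfδ]
        exact hB.one_add_mul (hfX x hx₀) hβ1.1
      · have hsα : s * α ∈ B := hB.one_add_mul (hfX x hx₀) hα1.1
        have hsβ : s * β ∈ B := hB.one_add_mul (hfX x hx₀) hβ1.1
        have h4 : f * (x + δ) ∈ B := by
          rw [mul_add, hfδ]
          exact hB.add _ (hfX x hx₀) _ hsβ
        rw [(hkey _ h4).2, (hkey _ (hfX x hx₀)).2]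
        have h5 : 1 + f * η + f * (x + δ) = (1 + f * x) * (1 + (α + β)) := by
          rw [hfη, mul_add f x δ, hfδ, hs]
          ring
        have h6 : 1 + f * η + f * x = (1 + f * x) * (1 + α) := by
          rw [hfη, hs]
          ring
        rw [h5, h6, hc _ (hfX x hx₀) _ (hB.add _ hα1.1 _ hβ1.1), hc _ (hfX x hx₀) _ hα1.1,
          hα1.2, ← add_assoc]
        intro h7
        exact hαβ1 (mul_left_cancel h7)
    · refine ⟨d x, hd x hxY, (hkey _ (h2 x hxY)).1, ?_⟩
      have h4 : f * (x + d x) ∈ B := by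
        rw [mul_add]
        exact hB.add _ (hfX x (hYX hxY)) _ (h2 x hxY)
      rw [hkey2 _ h4 (hηg _ (Finset.mem_union_right _ (Finset.mem_insert_of_mem
        (Finset.mem_union_right _ (Finset.mem_image_of_mem _ hxY))))),
        hkey2 _ (hfX x (hYX hxY)) (hηg _ (Finset.mem_union_right _ (Finset.mem_insert_of_mem
        (Finset.mem_union_left _ (Finset.mem_image_of_mem _ (hYX hxY))))))]
      exact h3 x hxY

theorem exists_addB {K : Type*} [Field K] {Q : Type*} [Group Q] [Finite Q] {B : Set K}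
    (hB : BD B) {c : K → Q}
    (hc : ∀ x ∈ B, ∀ y ∈ B, c ((1 + x) * (1 + y)) = c (1 + x) * c (1 + y))
    (hVC : ∀ q : Q, ∃ d : ℕ, ∀ f : Fin d → K, ∃ J : Finset (Fin d), ∀ x : K,
      (∀ i, f i * x ∈ B) → ∃ i, ¬ (c (1 + f i * x) = q ↔ i ∈ J)) :
    ∃ F : Finset K, ∀ α ∈ NbB B c F, ∀ β ∈ NbB B c F, α + β ∈ B ∧ c (1 + α + β) = 1 := by
  by_contra hcon
  push Not at hcon
  obtain ⟨X, F, h⟩ := exists_goodB hB hc hVC
  obtain ⟨f, _, hfX, hbad⟩ := exists_badB hB hc hcon X F X subset_rfl
  obtain ⟨x, hx, hgood⟩ := h f hfX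
  obtain ⟨δ, hδ, hδ1, hδ2⟩ := hbad x hx
  exact hδ2 (hgood δ hδ hδ1)

end Pool.Agent.NIPFields.LC
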