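import Mathlib
import Pool.Agent.NIPFields.FI.Ring

set_option autoImplicit false

/-!
# Infinitesimal idempotents for two independent valuations
-/

namespace Pool.Agent.NIPFields.LC

open FI
open scoped Polynomial

/-- The data on the ultrapower. `A i` are the ultrapowers of the two valuation rings. -/
structure LDat (K k : Type*) [Field K] [Field k] [Algebra K k] (A : Bool → ValuationSubring k)
    (β : Bool → K) (T : Set k) : Prop where
  inf : Infinite K
  β0 : ∀ i, β i ≠ 0
  β1 : ∀ i, (A i).valuation (algebraMap K k (β i)) ≤ 1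
  one : (1 : k) ∈ T
  mul : ∀ x ∈ T, ∀ y ∈ T, x * y ∈ T
  inv : ∀ x ∈ T, x⁻¹ ∈ T
  sub : ∀ x ∈ T, ∀ i, (A i).valuation (x - 1) < (A i).valuation (algebraMap K k (β i))
  small : ∃ ε : k, ε ≠ 0 ∧ ∀ a : K, 1 + algebraMap K k a * ε ∈ T
  add : ∃ F : Finset K, ∀ α : k, (∀ f ∈ F, 1 + algebraMap K k f * α ∈ T) →
    ∀ β : k, (∀ f ∈ F, 1 + algebraMap K k f * β ∈ T) → 1 + α + β ∈ T
  good : ∃ X F : Finset K, ∀ w : k, (∀ x ∈ X, ∀ i, (A i).valuation (w * algebraMap K k x) <
      (A i).valuation (algebraMap K k (β i))) → ∃ x ∈ X, ∀ δ : k,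
    (∀ f ∈ F, 1 + algebraMap K k f * δ ∈ T) →
    (∀ i, (A i).valuation (w * δ) < (A i).valuation (algebraMap K k (β i))) →
      (1 + w * (algebraMap K k x + δ)) / (1 + w * algebraMap K k x) ∈ T
  smallK : ∀ a : Bool → K, (∀ i, a i ≠ 0) → ∃ b : K, b ≠ 0 ∧
    ∀ i, (A i).valuation (algebraMap K k b) < (A i).valuation (algebraMap K k (a i))
  indep : ∀ x : k, ∃ y ∈ A true, ∃ z ∈ A false, x = y * z

section

variable {K k : Type*} [Field K] [Field k] [Algebra K k] {A : Bool → ValuationSubring k}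
  {β : Bool → K} {T : Set k} (D : LDat K k A β T)

include D

theorem LDat.zero : (0 : k) ∉ T := by
  intro h
  have h1 := D.sub 0 h true
  rw [zero_sub, Valuation.map_neg, map_one] at h1
  exact absurd (D.β1 true) (not_le.2 h1)

theorem LDat.zero_mem : (0 : k) ∈ Inf K T := by
  intro a
  rw [mul_zero, add_zero]
  exact D.one

theorem LDat.add_mem {α β : k} (hα : α ∈ Inf K T) (hβ : β ∈ Inf K T) : α + β ∈ Inf K T := by
  intro a
  obtain ⟨F, hF⟩ := D.add
  have h1 := hF _ (fun f _ => smul_mem a hα f) _ (fun f _ => smul_mem a hβ f)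
  rwa [add_assoc, ← mul_add] at h1

theorem LDat.one_add_ne {ε : k} (h : ε ∈ Inf K T) : 1 + ε ≠ 0 := by
  intro h0
  exact D.zero (h0 ▸ one_add_mem h)

theorem LDat.div_mem {α : k} (hα : α ∈ Inf K T) : α / (1 + α) ∈ Inf K T := by
  intro a
  have h1 : 1 + algebraMap K k a * (α / (1 + α)) =
      (1 + algebraMap K k (1 + a) * α) * (1 + α)⁻¹ := by
    have := D.one_add_ne hα
    rw [map_add, map_one]
    field_simp
    ring
  rw [h1]
  exact D.mul _ (hα _) _ (D.inv _ (one_add_mem hα))

theorem LDat.mul_mem' {α β : k} (hα : α ∈ Inf K T) (hβ : β ∈ Inf K T) : 1 - α * β ∈ T := by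
  have h1 := D.div_mem hα
  have h2 := D.div_mem hβ
  have e1 := D.one_add_ne hα
  have e2 := D.one_add_ne hβ
  have h3 : 1 - α * β = (1 + -(α / (1 + α) + β / (1 + β))) *
      ((1 + -(α / (1 + α)))⁻¹ * (1 + -(β / (1 + β)))⁻¹) := by
    have e3 : 1 + -(α / (1 + α)) = (1 + α)⁻¹ := by field_simp; ring
    have e4 : 1 + -(β / (1 + β)) = (1 + β)⁻¹ := by field_simp; ring
    rw [e3, e4, inv_inv, inv_inv]
    field_simp
    ring
  rw [h3]
  exact D.mul _ (one_add_mem (neg_mem (D.add_mem h1 h2))) _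
    (D.mul _ (D.inv _ (one_add_mem (neg_mem h1))) _ (D.inv _ (one_add_mem (neg_mem h2))))

theorem LDat.mul_mem {α β : k} (hα : α ∈ Inf K T) (hβ : β ∈ Inf K T) : α * β ∈ Inf K T := by
  intro a
  have := D.mul_mem' (smul_mem (-a) hα) hβ
  rw [map_neg, neg_mul, neg_mul, sub_neg_eq_add, mul_assoc] at this
  exact this

/-- The ring of bounded elements. -/
def LDat.ring : Subring k where
  carrier := {x | ∀ j ∈ Inf K T, x * j ∈ Inf K T}
  mul_mem' := by
    intro x y hx hy j hj
    rw [mul_assoc]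
    exact hx _ (hy _ hj)
  one_mem' := by
    intro j hj
    rwa [one_mul]
  add_mem' := by
    intro x y hx hy j hj
    rw [add_mul]
    exact D.add_mem (hx _ hj) (hy _ hj)
  zero_mem' := by
    intro j hj
    rw [zero_mul]
    exact D.zero_mem
  neg_mem' := by
    intro x hx j hj
    rw [neg_mul]
    exact neg_mem (hx _ hj)

theorem LDat.mem_ring {x : k} : x ∈ D.ring ↔ ∀ j ∈ Inf K T, x * j ∈ Inf K T := Iff.rfl

theorem LDat.mem_ring_of {x : k} (h : ∀ j ∈ Inf K T, 1 + x * j ∈ T) : x ∈ D.ring := by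
  intro j hj a
  have := h _ (smul_mem a hj)
  rwa [mul_left_comm] at this

theorem LDat.algebraMap_mem (a : K) : algebraMap K k a ∈ D.ring := fun _ hj => smul_mem a hj

theorem LDat.inf_mem {j : k} (hj : j ∈ Inf K T) : j ∈ D.ring := fun _ hj' => D.mul_mem hj hj'

theorem LDat.inf_lt {j : k} (hj : j ∈ Inf K T) (i : Bool) {a : K} (ha : a ≠ 0) :
    (A i).valuation j < (A i).valuation (algebraMap K k a) := by
  have h1 := D.sub _ (hj (β i / a)) i
  rw [add_sub_cancel_left, map_mul, map_div₀, map_div₀] at h1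
  have hβ : 0 < (A i).valuation (algebraMap K k (β i)) :=
    zero_lt_iff.2 ((map_ne_zero _).2 ((map_ne_zero _).2 (D.β0 i)))
  have hva : 0 < (A i).valuation (algebraMap K k a) :=
    zero_lt_iff.2 ((map_ne_zero _).2 ((map_ne_zero _).2 ha))
  by_contra hcon
  rw [not_lt] at hcon
  refine absurd h1 (not_lt.2 ?_)
  calc (A i).valuation (algebraMap K k (β i)) =
        (A i).valuation (algebraMap K k (β i)) / (A i).valuation (algebraMap K k a) *
          (A i).valuation (algebraMap K k a) := by rw [div_mul_cancel₀ _ hva.ne']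
    _ ≤ _ := by gcongr

/-- Infinitesimals are in all maximal ideals. -/
theorem LDat.inf_mem_maximal {j : k} (hj : j ∈ Inf K T) (M : Ideal D.ring) [hM : M.IsMaximal] :
    (⟨j, D.inf_mem hj⟩ : D.ring) ∈ M := by
  by_contra hjM
  obtain ⟨b, hb⟩ := hM.exists_inv hjM
  obtain ⟨i, hi, hbi⟩ := hb
  have h1 : i = 1 + -(b * ⟨j, D.inf_mem hj⟩) := by rw [← hbi]; ring
  have h2 : (b : k) * j ∈ Inf K T := b.2 j hj
  have h3 : IsUnit i := by
    have h4 := D.one_add_ne (neg_mem h2)
    have h5 : (1 + -((b : k) * j))⁻¹ ∈ D.ring := by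
      have h6 : (1 + -((b : k) * j))⁻¹ = 1 - (-((b : k) * j)) / (1 + -((b : k) * j)) := by
        field_simp
        ring
      rw [h6]
      exact D.ring.sub_mem D.ring.one_mem (D.inf_mem (D.div_mem (neg_mem h2)))
    refine IsUnit.of_mul_eq_one ⟨_, h5⟩ (Subtype.ext ?_)
    rw [h1]
    exact mul_inv_cancel₀ h4
  exact hM.ne_top (Ideal.eq_top_of_isUnit_mem _ hi h3)

/-- A finite set of bounds. -/
theorem LDat.exists_small (S : Bool → Finset K) : ∃ b : K, b ≠ 0 ∧ ∀ i, ∀ s ∈ S i, s ≠ 0 →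
    (A i).valuation (algebraMap K k b) < (A i).valuation (algebraMap K k s) := by
  classical
  have h1 : ∀ i, ∃ m : K, m ≠ 0 ∧ ∀ s ∈ S i, s ≠ 0 →
      (A i).valuation (algebraMap K k m) ≤ (A i).valuation (algebraMap K k s) := by
    intro i
    obtain ⟨m, hm, hmin⟩ := Finset.exists_min_image (insert 1 ((S i).filter (fun s => s ≠ 0)))
      (fun s => (A i).valuation (algebraMap K k s)) ⟨1, Finset.mem_insert_self _ _⟩
    refine ⟨m, ?_, fun s hs hs0 => hmin s (Finset.mem_insert_of_mem
      (Finset.mem_filter.2 ⟨hs, hs0⟩))⟩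
    rcases Finset.mem_insert.1 hm with h | h
    · rw [h]; exact one_ne_zero
    · exact (Finset.mem_filter.1 h).2
  choose m hm0 hm using h1
  obtain ⟨b, hb0, hb⟩ := D.smallK m hm0
  exact ⟨b, hb0, fun i s hs hs0 => (hb i).trans_le (hm i s hs hs0)⟩

/-- Many translates are invertible. -/
theorem LDat.exists_inv : ∃ X : Finset K, ∀ w : k, w ≠ 0 → (∀ x ∈ X, ∀ i,
    (A i).valuation (algebraMap K k x / w) < (A i).valuation (algebraMap K k (β i))) →
    ∃ x ∈ X, w + algebraMap K k x ≠ 0 ∧ (w + algebraMap K k x)⁻¹ ∈ D.ring := by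
  classical
  obtain ⟨X, F, h⟩ := D.good
  refine ⟨insert 1 X, fun w hw hX => ?_⟩
  obtain ⟨x, hx, hxw⟩ := h w⁻¹ (by
    intro x hx i
    rw [mul_comm, ← div_eq_mul_inv]
    exact hX x (Finset.mem_insert_of_mem hx) i)
  have hne : w + algebraMap K k x ≠ 0 := by
    intro h0
    have h1 := (hX x (Finset.mem_insert_of_mem hx) true).trans_le (D.β1 true)
    have h2 : algebraMap K k x / w = -1 := by
      rw [div_eq_iff hw]
      linear_combination h0
    rw [h2, Valuation.map_neg, map_one] at h1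
    exact lt_irrefl _ h1
  refine ⟨x, Finset.mem_insert_of_mem hx, hne, D.mem_ring_of fun j hj => ?_⟩
  have h1 := hxw j (fun f _ => hj f) (by
    intro i
    have h2 := (hX 1 (Finset.mem_insert_self _ _) i).trans_le (D.β1 i)
    rw [map_one, one_div] at h2
    rw [map_mul]
    calc (A i).valuation w⁻¹ * (A i).valuation j ≤ 1 * (A i).valuation j := by gcongr
      _ = (A i).valuation j := one_mul _
      _ < _ := D.inf_lt hj i (D.β0 i))
  have h2 : (1 + w⁻¹ * (algebraMap K k x + j)) / (1 + w⁻¹ * algebraMap K k x) =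
      1 + (w + algebraMap K k x)⁻¹ * j := by
    have h3 : 1 + w⁻¹ * algebraMap K k x = w⁻¹ * (w + algebraMap K k x) := by
      field_simp
    have h4 : 1 + w⁻¹ * (algebraMap K k x + j) = w⁻¹ * (w + algebraMap K k x + j) := by
      field_simp
      ring
    rw [h3, h4, mul_div_mul_left _ _ (inv_ne_zero hw), add_div, div_self hne, inv_mul_eq_div]
  rwa [h2] at h1

/-- Every element is a translate of the inverse of a bounded element. -/
theorem LDat.exists_inv' (w : k) : ∃ y : K, w + algebraMap K k y ≠ 0 ∧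
    (w + algebraMap K k y)⁻¹ ∈ D.ring := by
  classical
  obtain ⟨X, hX⟩ := D.exists_inv
  -- a shift which is not infinitesimal
  obtain ⟨a, c, hc0, hc⟩ : ∃ a : K, ∃ c : Bool → K, (∀ i, c i ≠ 0) ∧ ∀ i,
      (A i).valuation (algebraMap K k (c i)) ≤ (A i).valuation (w + algebraMap K k a) := by
    let bad : Bool → Set K := fun i => {a | ∀ c : K, c ≠ 0 →
      (A i).valuation (w + algebraMap K k a) < (A i).valuation (algebraMap K k c)}
    have hbad : ∀ i, (bad i).Subsingleton := by
      intro i a ha a' ha'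
      by_contra hne
      have h1 : a - a' ≠ 0 := sub_ne_zero.2 hne
      have h2 := ha _ h1
      have h3 := ha' _ h1
      have h4 : algebraMap K k (a - a') = (w + algebraMap K k a) - (w + algebraMap K k a') := by
        rw [map_sub]; ring
      have h5 := (A i).valuation.map_sub (w + algebraMap K k a) (w + algebraMap K k a')
      rw [← h4] at h5
      exact absurd h5 (not_le.2 (max_lt h2 h3))
    have hfin : (bad true ∪ bad false).Finite := (hbad true).finite.union (hbad false).finite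
    have _ := D.inf
    obtain ⟨a, ha⟩ := hfin.infinite_compl.nonempty
    have h1 : ∀ i, a ∉ bad i := by
      intro i hi
      cases i
      · exact ha (Or.inr hi)
      · exact ha (Or.inl hi)
    have h2 : ∀ i, ∃ c : K, c ≠ 0 ∧
        (A i).valuation (algebraMap K k c) ≤ (A i).valuation (w + algebraMap K k a) := by
      intro i
      by_contra hcon
      push Not at hcon
      exact h1 i fun c hc => hcon c hc
    choose c hc0 hc using h2
    exact ⟨a, c, hc0, hc⟩
  obtain ⟨t, ht0, ht⟩ := D.exists_small (fun i => X.image fun x => β i * c i / x)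
  have hwa : w + algebraMap K k a ≠ 0 := by
    intro h0
    have h1 := hc true
    rw [h0, map_zero] at h1
    have h2 : (A true).valuation (algebraMap K k (c true)) ≠ 0 :=
      (map_ne_zero _).2 ((map_ne_zero _).2 (hc0 true))
    exact h2 (le_antisymm h1 zero_le)
  have htk : algebraMap K k t ≠ 0 := (map_ne_zero _).2 ht0
  obtain ⟨x, hx, hne, hinv⟩ := hX ((algebraMap K k t)⁻¹ * (w + algebraMap K k a))
    (mul_ne_zero (inv_ne_zero htk) hwa) (by
      intro x hx i
      have hβ : 0 < (A i).valuation (algebraMap K k (β i)) :=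
        zero_lt_iff.2 ((map_ne_zero _).2 ((map_ne_zero _).2 (D.β0 i)))
      by_cases hx0 : x = 0
      · rw [hx0, map_zero, zero_div, map_zero]
        exact hβ
      have hvc : 0 < (A i).valuation (algebraMap K k (c i)) :=
        zero_lt_iff.2 ((map_ne_zero _).2 ((map_ne_zero _).2 (hc0 i)))
      have hvx : 0 < (A i).valuation (algebraMap K k x) :=
        zero_lt_iff.2 ((map_ne_zero _).2 ((map_ne_zero _).2 hx0))
      have hvw : 0 < (A i).valuation (w + algebraMap K k a) := hvc.trans_le (hc i)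
      have h1 := ht i (β i * c i / x) (Finset.mem_image_of_mem _ hx)
        (div_ne_zero (mul_ne_zero (D.β0 i) (hc0 i)) hx0)
      rw [map_div₀, map_mul, map_div₀, map_mul, lt_div_iff₀ hvx] at h1
      have h2 : algebraMap K k x / ((algebraMap K k t)⁻¹ * (w + algebraMap K k a)) =
          algebraMap K k t * algebraMap K k x / (w + algebraMap K k a) := by
        field_simp
      rw [h2, map_div₀, map_mul, div_lt_iff₀ hvw]
      refine lt_of_lt_of_le h1 ?_
      gcongr
      exact hc i)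
  have h1 : w + algebraMap K k (a + t * x) = algebraMap K k t *
      ((algebraMap K k t)⁻¹ * (w + algebraMap K k a) + algebraMap K k x) := by
    rw [map_add, map_mul, mul_add, mul_inv_cancel_left₀ htk]
    ring
  refine ⟨a + t * x, ?_, ?_⟩
  · rw [h1]
    exact mul_ne_zero htk hne
  · have h2 : (algebraMap K k t)⁻¹ ∈ D.ring := by
      rw [← map_inv₀]; exact D.algebraMap_mem _
    rw [h1, mul_inv]
    exact D.ring.mul_mem h2 hinv

/-- Every element of `k` is a quotient of coprime elements. -/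
theorem LDat.exists_frac (x : k) : ∃ a b r s : D.ring, (b : k) ≠ 0 ∧ x * b = a ∧
    r * a + s * b = 1 := by
  obtain ⟨y, hy, hu⟩ := D.exists_inv' x
  refine ⟨1 - ⟨_, D.algebraMap_mem y⟩ * ⟨_, hu⟩, ⟨_, hu⟩, 1, ⟨_, D.algebraMap_mem y⟩,
    inv_ne_zero hy, ?_, by ring⟩
  push_cast
  field_simp
  ring

/-- The primes contained in a prime form a chain. -/
theorem LDat.chain {P Q R : Ideal D.ring} (hP : P.IsPrime) (hQ : Q.IsPrime) (hR : R.IsPrime)
    (hQP : Q ≤ P) (hRP : R ≤ P) : Q ≤ R ∨ R ≤ Q := by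
  by_contra hcon
  rw [not_or, SetLike.not_le_iff_exists, SetLike.not_le_iff_exists] at hcon
  obtain ⟨⟨x, hxQ, hxR⟩, ⟨y, hyR, hyQ⟩⟩ := hcon
  have hy0 : (y : k) ≠ 0 := by
    intro h0
    apply hyQ
    have : y = 0 := Subtype.ext h0
    rw [this]
    exact Q.zero_mem
  obtain ⟨a, b, r, s, _, hab, hrs⟩ := D.exists_frac ((x : k) / y)
  have h1 : x * b = y * a := by
    apply Subtype.ext
    push_cast
    rw [← hab]
    field_simp
  by_cases hbP : b ∈ P
  · have haP : a ∉ P := by
      intro haP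
      apply hP.ne_top
      rw [Ideal.eq_top_iff_one, ← hrs]
      exact P.add_mem (P.mul_mem_left _ haP) (P.mul_mem_left _ hbP)
    have h2 : y * a ∈ Q := by rw [← h1]; exact Q.mul_mem_right _ hxQ
    rcases hQ.mem_or_mem h2 with h | h
    · exact hyQ h
    · exact haP (hQP h)
  · have h2 : x * b ∈ R := by rw [h1]; exact R.mul_mem_right _ hyR
    rcases hR.mem_or_mem h2 with h | h
    · exact hxR h
    · exact hbP (hRP h)

/-- The two distinguished primes. -/
def LDat.PI (i : Bool) : Ideal D.ring where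
  carrier := {m | ∀ o : D.ring, (A i).valuation ((o : k) * (m : k)) < 1}
  add_mem' := by
    intro a b ha hb o
    have h1 : (o : k) * ((a + b : D.ring) : k) = (o : k) * a + (o : k) * b := by
      push_cast; ring
    rw [h1]
    exact (A i).valuation.map_add_lt (ha o) (hb o)
  zero_mem' := by
    intro o
    have h1 : (o : k) * ((0 : D.ring) : k) = 0 := by push_cast; ring
    rw [h1, map_zero]
    exact zero_lt_one
  smul_mem' := by
    intro a b hb o
    have h1 : (o : k) * ((a • b : D.ring) : k) = ((o * a : D.ring) : k) * b := by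
      rw [smul_eq_mul]; push_cast; ring
    rw [h1]
    exact hb _

theorem LDat.mem_PI {i : Bool} {m : D.ring} :
    m ∈ D.PI i ↔ ∀ o : D.ring, (A i).valuation ((o : k) * (m : k)) < 1 := Iff.rfl

theorem LDat.PI_prime (i : Bool) : (D.PI i).IsPrime := by
  refine ⟨?_, ?_⟩
  · rw [Ideal.ne_top_iff_one]
    intro h
    have h1 := h 1
    have h2 : ((1 : D.ring) : k) * ((1 : D.ring) : k) = 1 := by push_cast; ring
    rw [h2, map_one] at h1
    exact lt_irrefl _ h1
  · intro m m' hmm
    by_contra hcon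
    rw [not_or, LDat.mem_PI, LDat.mem_PI] at hcon
    push Not at hcon
    obtain ⟨⟨o, ho⟩, ⟨o', ho'⟩⟩ := hcon
    have h1 := hmm (o * o')
    have h2 : ((o * o' : D.ring) : k) * ((m * m' : D.ring) : k) =
        ((o : k) * m) * ((o' : k) * m') := by push_cast; ring
    rw [h2, map_mul] at h1
    exact absurd h1 (not_lt.2 (one_le_mul ho ho'))

theorem LDat.PI_lt {i : Bool} {m : D.ring} (hm : m ∈ D.PI i) {a : K} (ha : a ≠ 0) :
    (A i).valuation (m : k) < (A i).valuation (algebraMap K k a) := by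
  have h1 := hm ⟨_, D.algebraMap_mem a⁻¹⟩
  have hva : 0 < (A i).valuation (algebraMap K k a) :=
    zero_lt_iff.2 ((map_ne_zero _).2 ((map_ne_zero _).2 ha))
  change (A i).valuation (algebraMap K k a⁻¹ * (m : k)) < 1 at h1
  rw [map_mul, map_inv₀, map_inv₀, inv_mul_lt_iff₀ hva, mul_one] at h1
  exact h1

theorem LDat.inf_mem_PI {j : k} (hj : j ∈ Inf K T) (i : Bool) :
    (⟨j, D.inf_mem hj⟩ : D.ring) ∈ D.PI i := by
  intro o
  have h1 := D.inf_lt (o.2 j hj) i (a := 1) one_ne_zero
  rw [map_one, map_one] at h1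
  exact h1

theorem LDat.denom_notMem_PI {i : Bool} {x : k} (hx : x ∈ A i) {a b r s : D.ring}
    (hab : x * b = a) (hrs : r * a + s * b = 1) : b ∉ D.PI i := by
  intro hb
  have ha : a ∈ D.PI i := by
    intro o
    have h1 : (o : k) * (a : k) = x * ((o : k) * b) := by rw [← hab]; ring
    rw [h1, map_mul]
    have h2 := ((A i).valuation_le_one_iff _).2 hx
    calc (A i).valuation x * (A i).valuation ((o : k) * b) ≤
          1 * (A i).valuation ((o : k) * b) := by gcongr
      _ < 1 := by rw [one_mul]; exact hb o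
  apply (D.PI_prime i).ne_top
  rw [Ideal.eq_top_iff_one, ← hrs]
  exact Ideal.add_mem _ (Ideal.mul_mem_left _ _ ha) (Ideal.mul_mem_left _ _ hb)

/-- The two distinguished primes do not share small primes. -/
theorem LDat.not_le_both {j : k} (hj : j ∈ Inf K T) (hj0 : j ≠ 0) {Q : Ideal D.ring}
    (hQ : Q.IsPrime) (hjQ : (⟨j, D.inf_mem hj⟩ : D.ring) ∈ Q) (h1 : Q ≤ D.PI true)
    (h2 : Q ≤ D.PI false) : False := by
  obtain ⟨y, hy, z, hz, hyz⟩ := D.indep j⁻¹
  obtain ⟨a, b, r, s, _, hab, hrs⟩ := D.exists_frac y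
  obtain ⟨a', b', r', s', _, hab', hrs'⟩ := D.exists_frac z
  have e1 := D.denom_notMem_PI hy hab hrs
  have e2 := D.denom_notMem_PI hz hab' hrs'
  have h3 : b * b' = ⟨j, D.inf_mem hj⟩ * (a * a') := by
    apply Subtype.ext
    push_cast
    rw [← hab, ← hab']
    calc (b : k) * b' = j * j⁻¹ * (b * b') := by rw [mul_inv_cancel₀ hj0, one_mul]
      _ = j * (y * b * (z * b')) := by rw [hyz]; ring
  have h4 : b * b' ∈ Q := by rw [h3]; exact Q.mul_mem_right _ hjQ
  rcases hQ.mem_or_mem h4 with h | h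
  · exact e1 (h1 h)
  · exact e2 (h2 h)

omit D in
theorem exists_crt {R ι : Type*} [CommRing R] [Finite ι] (M : ι → Ideal R)
    (hM : Pairwise fun i j => IsCoprime (M i) (M j)) {P : Ideal R}
    (hP : ∀ i, IsCoprime (M i) P) (t : ι → R) : ∃ r : R, r - 1 ∈ P ∧ ∀ i, r - t i ∈ M i := by
  let I : Option ι → Ideal R := fun o => o.elim P M
  obtain ⟨r, hr⟩ := Ideal.exists_forall_sub_mem_ideal (I := I)
    (by
      intro x x' hxx'
      rcases x with _ | x <;> rcases x' with _ | x'
      · exact absurd rfl hxx'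
      · exact (hP x').symm
      · exact hP x
      · exact hM (fun h => hxx' (by rw [h])))
    (fun o => o.elim (1 : R) t)
  exact ⟨r, hr none, fun i => hr (some i)⟩

/-- There are only finitely many maximal ideals which do not contain one of the two primes. -/
theorem LDat.finite_exceptional :
    {M : Ideal D.ring | M.IsMaximal ∧ ¬ D.PI true ≤ M ∧ ¬ D.PI false ≤ M}.Finite := by
  classical
  by_contra hinf
  obtain ⟨X, hX⟩ := D.exists_inv
  obtain ⟨S, hSsub, hS⟩ := (show Set.Infinite _ from hinf).exists_subset_card_eq X.card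
  let e : X ≃ S := Fintype.equivOfCardEq (by rw [Fintype.card_coe, Fintype.card_coe, hS])
  let M : X → Ideal D.ring := fun x => (e x : Ideal D.ring)
  have hM : ∀ x, (M x).IsMaximal ∧ ¬ D.PI true ≤ M x ∧ ¬ D.PI false ≤ M x :=
    fun x => hSsub (e x).2
  obtain ⟨b, hb0, hb⟩ := D.exists_small (fun i => X.image fun x => β i / x)
  have hcop : ∀ x, IsCoprime (M x) (D.PI true * D.PI false) := by
    intro x
    refine IsCoprime.mul_right ?_ ?_
    · rw [Ideal.isCoprime_iff_sup_eq]
      by_contra hne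
      exact (hM x).2.1 (le_sup_right.trans ((hM x).1.eq_of_le hne le_sup_left).ge)
    · rw [Ideal.isCoprime_iff_sup_eq]
      by_contra hne
      exact (hM x).2.2 (le_sup_right.trans ((hM x).1.eq_of_le hne le_sup_left).ge)
  obtain ⟨r, h1, hr⟩ := exists_crt M (fun x x' hxx' => by
      have h1 : M x ≠ M x' := fun h => hxx' (e.injective (Subtype.ext h))
      exact Ideal.isCoprime_iff_sup_eq.2 ((hM x).1.coprime_of_ne (hM x').1 h1)) hcop
    (fun x => -(⟨algebraMap K k (b * (x : K)), D.algebraMap_mem _⟩ : D.ring))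
  have hr1 : ∀ i, r - 1 ∈ D.PI i := by
    intro i
    have e1 : D.PI true * D.PI false ≤ D.PI false := Ideal.mul_le_right
    have e2 : D.PI true * D.PI false ≤ D.PI true := Ideal.mul_le_left
    cases i
    · exact e1 h1
    · exact e2 h1
  have hvr : ∀ i, (A i).valuation (r : k) = 1 := by
    intro i
    have h1 := D.PI_lt (hr1 i) (a := 1) one_ne_zero
    rw [map_one, map_one] at h1
    have h2 : (r : k) = 1 + ((r - 1 : D.ring) : k) := by push_cast; ring
    rw [h2]
    exact Valuation.map_one_add_of_lt _ h1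
  have hr0 : (r : k) ≠ 0 := by
    intro h0
    have := hvr true
    rw [h0, map_zero] at this
    exact zero_ne_one this
  have hbk : algebraMap K k b ≠ 0 := (map_ne_zero _).2 hb0
  obtain ⟨x, hx, hne, hinv⟩ := hX ((r : k) / algebraMap K k b) (div_ne_zero hr0 hbk) (by
    intro x hx i
    have hβ : 0 < (A i).valuation (algebraMap K k (β i)) :=
      zero_lt_iff.2 ((map_ne_zero _).2 ((map_ne_zero _).2 (D.β0 i)))
    by_cases hx0 : x = 0
    · rw [hx0, map_zero, zero_div, map_zero]
      exact hβ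
    have hvx : 0 < (A i).valuation (algebraMap K k x) :=
      zero_lt_iff.2 ((map_ne_zero _).2 ((map_ne_zero _).2 hx0))
    have h1 := hb i (β i / x) (Finset.mem_image_of_mem _ hx) (div_ne_zero (D.β0 i) hx0)
    rw [map_div₀, map_div₀, lt_div_iff₀ hvx] at h1
    have h2 : algebraMap K k x / ((r : k) / algebraMap K k b) =
        algebraMap K k b * algebraMap K k x / r := by
      field_simp
    rw [h2, map_div₀, hvr, div_one, map_mul]
    exact h1)
  have h1 := hr ⟨x, hx⟩
  refine (hM ⟨x, hx⟩).1.ne_top (Ideal.eq_top_of_isUnit_mem _ h1 ?_)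
  refine IsUnit.of_mul_eq_one (⟨_, D.algebraMap_mem b⁻¹⟩ * ⟨_, hinv⟩) (Subtype.ext ?_)
  change ((r : k) - -(algebraMap K k (b * x))) * (algebraMap K k b⁻¹ *
    ((r : k) / algebraMap K k b + algebraMap K k x)⁻¹) = 1
  have h2 : (r : k) - -(algebraMap K k (b * x)) =
      algebraMap K k b * ((r : k) / algebraMap K k b + algebraMap K k x) := by
    rw [map_mul]
    field_simp
    ring
  rw [h2, map_inv₀]
  generalize (r : k) / algebraMap K k b + algebraMap K k x = z at hne
  field_simp

theorem LDat.aeval_mem (e : D.ring) (g : K[X]) : Polynomial.aeval (e : k) g ∈ D.ring := by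
  rw [Polynomial.aeval_eq_sum_range]
  refine D.ring.sum_mem fun n _ => ?_
  rw [Algebra.smul_def]
  exact D.ring.mul_mem (D.algebraMap_mem _) (D.ring.pow_mem e.2 _)

theorem LDat.exists_idem (g : K[X]) : ∃ e : k,
    (∀ a : K, a ≠ 0 → (A true).valuation (e - 1) < (A true).valuation (algebraMap K k a)) ∧
    (∀ a : K, a ≠ 0 → (A false).valuation e < (A false).valuation (algebraMap K k a)) ∧
    1 + e * (1 - e) * Polynomial.aeval e g ∈ T := by
  classical
  obtain ⟨j, hj0, hj⟩ := D.small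
  have hjI : j ∈ Inf K T := hj
  set j' : D.ring := ⟨j, D.inf_mem hjI⟩ with hj'
  set I : Ideal D.ring := Ideal.span {j'} with hI
  have hjP : ∀ i, I ≤ D.PI i := by
    intro i
    rw [hI, Ideal.span_singleton_le_iff_mem]
    exact D.inf_mem_PI hjI i
  have hq : ∀ i, ∃ q ∈ I.minimalPrimes, q ≤ D.PI i := by
    intro i
    have _ := D.PI_prime i
    exact Ideal.exists_minimalPrimes_le (hjP i)
  choose q hqmin hqP using hq
  have hmin_prime : ∀ Q ∈ I.minimalPrimes, Q.IsPrime ∧ I ≤ Q := fun Q hQ => hQ.1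
  have huniq : ∀ (P : Ideal D.ring), P.IsPrime → ∀ Q ∈ I.minimalPrimes, Q ≤ P →
      ∀ Q' ∈ I.minimalPrimes, Q' ≤ P → Q = Q' := by
    intro P hP Q hQ hQP Q' hQ' hQP'
    rcases D.chain hP (hmin_prime Q hQ).1 (hmin_prime Q' hQ').1 hQP hQP' with h | h
    · exact le_antisymm h (hQ'.2 (hmin_prime Q hQ) h)
    · exact le_antisymm (hQ.2 (hmin_prime Q' hQ') h) h
  have hcase : ∀ i, ∀ M : Ideal D.ring, M.IsMaximal → D.PI i ≤ M → ∀ Q ∈ I.minimalPrimes,
      Q ≤ M → Q = q i := by
    intro i M hM hPM Q hQ hQM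
    refine huniq _ (D.PI_prime i) Q hQ ?_ _ (hqmin i) (hqP i)
    rcases D.chain hM.isPrime (hmin_prime Q hQ).1 (D.PI_prime i) hQM hPM with h | h
    · exact h
    · exact hQ.2 ⟨D.PI_prime i, hjP i⟩ h
  have hfin : I.minimalPrimes.Finite := by
    let f : Ideal D.ring → Ideal D.ring := fun M =>
      if h : ∃ Q ∈ I.minimalPrimes, Q ≤ M then h.choose else ⊥
    refine Set.Finite.subset (((Set.finite_range q)).union
      (D.finite_exceptional.image f)) ?_
    intro Q hQ
    obtain ⟨M, hM, hQM⟩ := Ideal.exists_le_maximal Q (hmin_prime Q hQ).1.ne_top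
    by_cases h1 : D.PI true ≤ M
    · exact Or.inl ⟨true, (hcase true M hM h1 Q hQ hQM).symm⟩
    by_cases h2 : D.PI false ≤ M
    · exact Or.inl ⟨false, (hcase false M hM h2 Q hQ hQM).symm⟩
    · refine Or.inr ⟨M, ⟨hM, h1, h2⟩, ?_⟩
      have h : ∃ Q ∈ I.minimalPrimes, Q ≤ M := ⟨Q, hQ, hQM⟩
      change (if h : ∃ Q ∈ I.minimalPrimes, Q ≤ M then h.choose else ⊥) = Q
      rw [dif_pos h]
      exact huniq M hM.isPrime _ h.choose_spec.1 h.choose_spec.2 Q hQ hQM
  have hne : q false ≠ q true := by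
    intro h
    refine D.not_le_both hjI hj0 (hmin_prime _ (hqmin true)).1 ?_ (hqP true) ?_
    · exact (hmin_prime _ (hqmin true)).2 (Ideal.mem_span_singleton_self j')
    · rw [← h]; exact hqP false
  let s : Finset (Ideal D.ring) := hfin.toFinset.erase (q true)
  have hsup : q true ⊔ ⨅ Q ∈ s, Q = ⊤ := by
    refine Ideal.sup_iInf_eq_top fun Q hQ => ?_
    have hQ1 : Q ∈ I.minimalPrimes := hfin.mem_toFinset.1 (Finset.mem_of_mem_erase hQ)
    have hQ2 : Q ≠ q true := Finset.ne_of_mem_erase hQ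
    by_contra hne
    obtain ⟨M, hM, hMle⟩ := Ideal.exists_le_maximal _ hne
    exact hQ2 (huniq M hM.isPrime Q hQ1 (le_sup_right.trans hMle) _ (hqmin true)
      (le_sup_left.trans hMle))
  have h1mem : (1 : D.ring) ∈ q true ⊔ ⨅ Q ∈ s, Q := by rw [hsup]; trivial
  obtain ⟨c, hc, e₀, he₀, hce⟩ := Submodule.mem_sup.1 h1mem
  have hc' : 1 - e₀ = c := by rw [← hce]; ring
  have hmem : ∀ Q ∈ I.minimalPrimes, Q ≠ q true → e₀ ∈ Q := by
    intro Q hQ hQ'
    have h1 : Q ∈ s := Finset.mem_erase.2 ⟨hQ', hfin.mem_toFinset.2 hQ⟩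
    have h2 := (Submodule.mem_iInf _).1 he₀ Q
    exact (Submodule.mem_iInf _).1 h2 h1
  have hrad : e₀ * (1 - e₀) ∈ I.radical := by
    rw [← Ideal.sInf_minimalPrimes, Submodule.mem_sInf]
    intro Q hQ
    by_cases h : Q = q true
    · rw [h, hc']
      exact Ideal.mul_mem_left _ _ hc
    · exact Ideal.mul_mem_right _ _ (hmem Q hQ h)
  obtain ⟨N, hN⟩ := hrad
  have hN1 : (e₀ * (1 - e₀)) ^ (N + 1) ∈ I := by
    rw [pow_succ]
    exact I.mul_mem_right _ hN
  have hcop : IsCoprime (e₀ ^ (N + 1)) ((1 - e₀) ^ (N + 1)) :=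
    IsCoprime.pow ⟨1, 1, by ring⟩
  obtain ⟨a, b, hab⟩ := hcop
  set e : D.ring := a * e₀ ^ (N + 1) with he
  have h1e : 1 - e = b * (1 - e₀) ^ (N + 1) := by linear_combination (-1 : D.ring) * hab
  have heI : e * (1 - e) ∈ I := by
    have : e * (1 - e) = a * b * (e₀ * (1 - e₀)) ^ (N + 1) := by
      rw [h1e, mul_pow, he]; ring
    rw [this]
    exact I.mul_mem_left _ hN1
  have h1eP : 1 - e ∈ D.PI true := by
    apply hqP true
    rw [h1e, pow_succ, hc']
    exact Ideal.mul_mem_left _ _ (Ideal.mul_mem_left _ _ hc)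
  have heP : e ∈ D.PI false := by
    apply hqP false
    rw [he, pow_succ]
    exact Ideal.mul_mem_left _ _ (Ideal.mul_mem_left _ _ (hmem _ (hqmin false) hne))
  refine ⟨(e : k), fun a ha => ?_, fun a ha => D.PI_lt heP ha, ?_⟩
  · have h1 := D.PI_lt h1eP ha
    have h2 : ((1 - e : D.ring) : k) = -((e : k) - 1) := by push_cast; ring
    rw [h2, Valuation.map_neg] at h1
    exact h1
  · rw [hI, Ideal.mem_span_singleton'] at heI
    obtain ⟨d, hd⟩ := heI
    have h1 : (e : k) * (1 - e) = d * j := by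
      have := congrArg (fun z : D.ring => (z : k)) hd
      push_cast at this
      exact this.symm
    have h2 : (e : k) * (1 - e) * Polynomial.aeval (e : k) g = (d * Polynomial.aeval (e : k) g) * j := by
      rw [h1]; ring
    rw [h2]
    exact one_add_mem ((D.ring.mul_mem d.2 (D.aeval_mem e g)) j hjI)

end

end Pool.Agent.NIPFields.LC
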