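import Mathlib
import Pool.Agent.NIPFields.Approx
import Pool.Agent.NIPFields.FI.Ultra
import Pool.Agent.NIPFields.LC.Comb
import Pool.Agent.NIPFields.LC.Idem

set_option autoImplicit false

/-!
# The local character theorem
-/

namespace Pool.Agent.NIPFields.LC

open Set Filter Polynomial FI

universe u v

section val

variable {F : Type*} [Field F]

theorem val_le_iff (A : ValuationSubring F) (x y : F) :
    A.valuation x ≤ A.valuation y ↔ x * y⁻¹ ∈ A ∧ (y = 0 → x = 0) := by
  by_cases hy : y = 0
  · subst hy
    rw [map_zero, le_zero_iff, map_eq_zero]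
    simp
  · have hv : A.valuation y ≠ 0 := (A.valuation).ne_zero_iff.2 hy
    rw [← A.valuation_le_one_iff, map_mul, map_inv₀]
    constructor
    · intro h
      refine ⟨?_, fun h0 => absurd h0 hy⟩
      rw [← div_eq_mul_inv]
      exact div_le_one_of_le₀ h zero_le
    · rintro ⟨h, _⟩
      rw [← div_eq_mul_inv] at h
      exact (div_le_one₀ (zero_lt_iff.2 hv)).1 h

end val

section ultra

variable {I : Type u} {U : Ultrafilter I} {E : Type u} [Field E]

/-- The ultrapower of a valuation ring. -/
def UV (U : Ultrafilter I) (O : ValuationSubring E) :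
    ValuationSubring (Germ (U : Filter I) E) where
  carrier := {x | x.LiftPred (fun z => z ∈ O)}
  mul_mem' := by
    rintro x y hx hy
    induction x using Germ.inductionOn with | _ f
    induction y using Germ.inductionOn with | _ g
    simp only [mem_ofPred_eq] at hx hy ⊢
    rw [← Germ.coe_mul, Germ.liftPred_coe]
    rw [Germ.liftPred_coe] at hx hy
    filter_upwards [hx, hy] with t h1 h2
    exact O.mul_mem _ _ h1 h2
  one_mem' := by
    simp only [mem_ofPred_eq]
    rw [← Germ.coe_one, Germ.liftPred_coe]
    exact Eventually.of_forall fun t => O.one_mem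
  zero_mem' := by
    simp only [mem_ofPred_eq]
    rw [← Germ.coe_zero, Germ.liftPred_coe]
    exact Eventually.of_forall fun t => O.zero_mem
  add_mem' := by
    rintro x y hx hy
    induction x using Germ.inductionOn with | _ f
    induction y using Germ.inductionOn with | _ g
    simp only [mem_ofPred_eq] at hx hy ⊢
    rw [← Germ.coe_add, Germ.liftPred_coe]
    rw [Germ.liftPred_coe] at hx hy
    filter_upwards [hx, hy] with t h1 h2
    exact O.add_mem _ _ h1 h2
  neg_mem' := by
    rintro x hx
    induction x using Germ.inductionOn with | _ f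
    simp only [mem_ofPred_eq] at hx ⊢
    rw [← Germ.coe_neg, Germ.liftPred_coe]
    rw [Germ.liftPred_coe] at hx
    filter_upwards [hx] with t h1
    exact O.neg_mem _ h1
  mem_or_inv_mem' := by
    intro x
    induction x using Germ.inductionOn with | _ f
    simp only [mem_ofPred_eq]
    rw [← Germ.coe_inv, Germ.liftPred_coe, Germ.liftPred_coe, ← Ultrafilter.eventually_or]
    exact Eventually.of_forall fun t => O.mem_or_inv_mem (f t)

theorem mem_UV {O : ValuationSubring E} {f : I → E} :
    (↑f : Germ (U : Filter I) E) ∈ UV U O ↔ ∀ᶠ t in (U : Filter I), f t ∈ O := Iff.rfl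

theorem UV_le {O : ValuationSubring E} {f g : I → E} :
    (UV U O).valuation (↑f : Germ (U : Filter I) E) ≤ (UV U O).valuation (↑g) ↔
      ∀ᶠ t in (U : Filter I), O.valuation (f t) ≤ O.valuation (g t) := by
  rw [val_le_iff]
  simp only [val_le_iff]
  rw [← Germ.coe_inv, ← Germ.coe_mul, mem_UV, ← Germ.coe_zero, Germ.coe_eq, Germ.coe_eq,
    eventually_and]
  refine and_congr Iff.rfl ?_
  exact (Ultrafilter.eventually_imp (f := U) (p := fun t => g t = 0) (q := fun t => f t = 0)).symm

theorem UV_lt {O : ValuationSubring E} {f g : I → E} :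
    (UV U O).valuation (↑f : Germ (U : Filter I) E) < (UV U O).valuation (↑g) ↔
      ∀ᶠ t in (U : Filter I), O.valuation (f t) < O.valuation (g t) := by
  rw [← not_le, UV_le, ← Ultrafilter.eventually_not]
  simp only [not_le]

end ultra

section base

variable {K : Type u} [Field K] {O : Bool → ValuationSubring K}

/-- small elements for two independent valuation rings -/
theorem exists_smallK (hO : ∀ i, O i ≠ ⊤) (hind : O true ⊔ O false = ⊤) (a : Bool → K)
    (ha : ∀ i, a i ≠ 0) : ∃ b : K, b ≠ 0 ∧ ∀ i, (O i).valuation b < (O i).valuation (a i) := by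
  classical
  choose π hπ0 hπ using fun i => exists_lt (O i) (hO i) (a i) (ha i)
  have hind' : ∀ j i : Bool, j ≠ i → O j ⊔ O i = ⊤ := by
    intro j i hji
    rcases j with _ | _ <;> rcases i with _ | _
    · exact absurd rfl hji
    · rw [sup_comm]; exact hind
    · exact hind
    · exact absurd rfl hji
  have h1 : ∀ j : Bool, ∃ b : K, (O j).valuation b = (O j).valuation (π j) ∧
      (O (!j)).valuation b = 1 := by
    intro j
    obtain ⟨b, hb, hb'⟩ := exists_approx_val O hO j {!j} (by
      intro i hi
      rw [Finset.mem_singleton] at hi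
      subst hi
      exact hind' _ _ (by cases j <;> simp)) (π j) (hπ0 j)
    refine ⟨b, hb, ?_⟩
    have h2 := hb' (!j) (Finset.mem_singleton_self _)
    have h3 : b = 1 + (b - 1) := by ring
    rw [h3]
    exact Valuation.map_one_add_of_lt _ h2
  choose b hb hb' using h1
  refine ⟨b true * b false, ?_, ?_⟩
  · have h2 : ∀ j, b j ≠ 0 := by
      intro j h0
      have := hb j
      rw [h0, map_zero] at this
      exact hπ0 j (((O j).valuation).zero_iff.1 this.symm)
    exact mul_ne_zero (h2 _) (h2 _)
  · intro i
    rw [map_mul]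
    cases i with
    | true =>
      have e2 := hb' false
      change (O true).valuation (b false) = 1 at e2
      rw [hb true, e2, mul_one]
      exact hπ true
    | false =>
      have e2 := hb' true
      change (O false).valuation (b true) = 1 at e2
      rw [hb false, e2, one_mul]
      exact hπ false

variable {β : Bool → K}

/-- The set `B`. -/
def BSet {K : Type*} [Field K] (O : Bool → ValuationSubring K) (β : Bool → K) : Set K :=
  {x | ∀ i, (O i).valuation x < (O i).valuation (β i)}

theorem BSet_lt_one (hβ1 : ∀ i, (O i).valuation (β i) ≤ 1) {x : K} (hx : x ∈ BSet O β)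
    (i : Bool) : (O i).valuation x < 1 := (hx i).trans_le (hβ1 i)

theorem BSet_val (hβ1 : ∀ i, (O i).valuation (β i) ≤ 1) {x : K} (hx : x ∈ BSet O β)
    (i : Bool) : (O i).valuation (1 + x) = 1 :=
  Valuation.map_one_add_of_lt _ (BSet_lt_one hβ1 hx i)

theorem BSet_div (hβ1 : ∀ i, (O i).valuation (β i) ≤ 1) {x y : K} (hx : x ∈ BSet O β)
    (hy : y ∈ BSet O β) : y / (1 + x) ∈ BSet O β := by
  intro i
  rw [map_div₀, BSet_val hβ1 hx i, div_one]
  exact hy i

theorem BD_BSet (hO : ∀ i, O i ≠ ⊤) (hind : O true ⊔ O false = ⊤) (hβ0 : ∀ i, β i ≠ 0)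
    (hβ1 : ∀ i, (O i).valuation (β i) ≤ 1) : BD (BSet O β) where
  zero := by
    intro i
    rw [map_zero]
    exact zero_lt_iff.2 (((O i).valuation).ne_zero_iff.2 (hβ0 i))
  add := by
    intro x hx y hy i
    exact Valuation.map_add_lt _ (hx i) (hy i)
  neg := by
    intro x hx i
    rw [Valuation.map_neg]
    exact hx i
  mul := by
    intro x hx y hy i
    rw [map_mul]
    calc (O i).valuation x * (O i).valuation y ≤ (O i).valuation x * 1 := by
          gcongr
          exact (BSet_lt_one hβ1 hy i).le
      _ = (O i).valuation x := mul_one _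
      _ < _ := hx i
  ne := by
    intro x hx h0
    have := BSet_val hβ1 hx true
    rw [h0, map_zero] at this
    exact zero_ne_one this
  div := fun x hx => BSet_div hβ1 hx hx
  inf := by
    intro A
    classical
    have h1 : ∀ i, ∃ c : K, c ≠ 0 ∧ (O i).valuation c ≤ 1 ∧
        ∀ a ∈ A, (O i).valuation (c * a) ≤ (O i).valuation (β i) := by
      intro i
      induction A using Finset.induction_on with
      | empty => exact ⟨1, one_ne_zero, by simp, by simp⟩
      | insert a A _ ih =>
        obtain ⟨c, hc0, hc1, hc⟩ := ih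
        by_cases h : (O i).valuation (c * a) ≤ (O i).valuation (β i)
        · refine ⟨c, hc0, hc1, fun b hb => ?_⟩
          rw [Finset.mem_insert] at hb
          rcases hb with rfl | hb
          · exact h
          · exact hc b hb
        · rw [not_le] at h
          have ha : a ≠ 0 := by
            rintro rfl
            rw [mul_zero, map_zero] at h
            exact absurd h not_lt_zero
          have h2 : (O i).valuation (β i / a) < (O i).valuation c := by
            rw [map_div₀, div_lt_iff₀ (zero_lt_iff.2 (((O i).valuation).ne_zero_iff.2 ha)),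
              ← map_mul]
            exact h
          refine ⟨β i / a, div_ne_zero (hβ0 i) ha, h2.le.trans hc1, fun b hb => ?_⟩
          rw [Finset.mem_insert] at hb
          rcases hb with rfl | hb
          · rw [div_mul_cancel₀ _ ha]
          · refine le_trans ?_ (hc b hb)
            rw [map_mul, map_mul]
            exact mul_le_mul_left h2.le _
    choose c hc0 hc1 hc using h1
    obtain ⟨t, ht0, ht⟩ := exists_smallK hO hind c hc0
    have ht1 : ∀ i, (O i).valuation t < 1 := fun i => (ht i).trans_le (hc1 i)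
    have htA : ∀ a ∈ A, t * a ∈ BSet O β := by
      intro a ha i
      by_cases ha0 : a = 0
      · rw [ha0, mul_zero, map_zero]
        exact zero_lt_iff.2 (((O i).valuation).ne_zero_iff.2 (hβ0 i))
      · refine lt_of_lt_of_le ?_ (hc i a ha)
        rw [map_mul, map_mul]
        exact mul_lt_mul_of_pos_right (ht i)
          (zero_lt_iff.2 (((O i).valuation).ne_zero_iff.2 ha0))
    have hinj : Function.Injective (fun n : ℕ => t ^ (n + 1)) := by
      intro n m hnm
      have h2 : (O true).valuation t ^ (n + 1) = (O true).valuation t ^ (m + 1) := by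
        rw [← map_pow, ← map_pow]
        exact congrArg _ hnm
      have h3 := (pow_right_strictAnti₀ (zero_lt_iff.2 (((O true).valuation).ne_zero_iff.2 ht0))
        (ht1 true)).injective h2
      omega
    refine (Set.infinite_range_of_injective hinj).mono ?_
    rintro _ ⟨n, rfl⟩ a ha i
    have h2 : t ^ (n + 1) * a = t ^ n * (t * a) := by ring
    show (O i).valuation (t ^ (n + 1) * a) < _
    rw [h2, map_mul]
    calc (O i).valuation (t ^ n) * (O i).valuation (t * a)
        ≤ 1 * (O i).valuation (t * a) := by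
          gcongr
          rw [map_pow]
          exact pow_le_one₀ zero_le (ht1 i).le
      _ = (O i).valuation (t * a) := one_mul _
      _ < _ := htA a ha i

theorem exists_factor (hO : ∀ i, O i ≠ ⊤) (hind : O true ⊔ O false = ⊤) (x : K) :
    ∃ y ∈ O true, ∃ z ∈ O false, x = y * z := by
  by_cases hx : x = 0
  · exact ⟨0, (O true).zero_mem, 0, (O false).zero_mem, by rw [hx, zero_mul]⟩
  · obtain ⟨y, hy1, hy2⟩ := exists_small_large_val (O true) (O false) hind (hO true) (hO false)
      1 x one_ne_zero hx
    have hy0 : y ≠ 0 := by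
      rintro rfl
      rw [map_zero] at hy2
      exact absurd hy2 not_lt_zero
    refine ⟨y, ?_, x / y, ?_, (mul_div_cancel₀ x hy0).symm⟩
    · rw [← (O true).valuation_le_one_iff]
      rw [map_one] at hy1
      exact hy1.le
    · rw [← (O false).valuation_le_one_iff, map_div₀]
      exact div_le_one_of_le₀ hy2.le zero_le

end base

section main

attribute [local instance] germAlg

variable {K : Type u} [Field K] {O : Bool → ValuationSubring K} {β : Bool → K}

/-- The kernel of the character, in the ultrapower. -/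
def TL {Q : Type v} [Group Q] (O : Bool → ValuationSubring K) (β : Bool → K) (c : K → Q) :
    Set (Germ (UF K : Filter (Finset K)) K) :=
  {x | x.LiftPred (fun z => z - 1 ∈ BSet O β ∧ c z = 1)}

theorem mem_TL {Q : Type v} [Group Q] {c : K → Q} {f : Finset K → K} :
    (↑f : Germ (UF K : Filter (Finset K)) K) ∈ TL O β c ↔
      ∀ᶠ t in (UF K : Filter (Finset K)), f t - 1 ∈ BSet O β ∧ c (f t) = 1 := Iff.rfl

theorem mem_TL_lin {Q : Type v} [Group Q] {c : K → Q} {a : K} {f : Finset K → K} :
    1 + algebraMap K (Germ (UF K : Filter (Finset K)) K) a *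
      (↑f : Germ (UF K : Filter (Finset K)) K) ∈ TL O β c ↔
    ∀ᶠ t in (UF K : Filter (Finset K)), a * f t ∈ BSet O β ∧ c (1 + a * f t) = 1 := by
  rw [alg_apply, ← Germ.coe_mul, ← Germ.coe_one, ← Germ.coe_add, mem_TL]
  refine eventually_congr (Eventually.of_forall fun t => ?_)
  have : (1 + (fun _ : Finset K => a) * f) t = 1 + a * f t := rfl
  rw [this, add_sub_cancel_left]

/-- The two ultrapower valuation rings. -/
noncomputable def Ak (O : Bool → ValuationSubring K) (i : Bool) :
    ValuationSubring (Germ (UF K : Filter (Finset K)) K) := UV (UF K) (O i)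

theorem ldat (hO : ∀ i, O i ≠ ⊤) (hind : O true ⊔ O false = ⊤) (hβ0 : ∀ i, β i ≠ 0)
    (hβ1 : ∀ i, (O i).valuation (β i) ≤ 1) {Q : Type v} [Group Q] [Finite Q] {c : K → Q}
    (hc : ∀ x ∈ BSet O β, ∀ y ∈ BSet O β, c ((1 + x) * (1 + y)) = c (1 + x) * c (1 + y))
    (hVC : ∀ q : Q, ∃ d : ℕ, ∀ f : Fin d → K, ∃ J : Finset (Fin d), ∀ x : K,
      (∀ i, f i * x ∈ BSet O β) → ∃ i, ¬ (c (1 + f i * x) = q ↔ i ∈ J)) :
    LDat K (Germ (UF K : Filter (Finset K)) K) (Ak O) β (TL O β c) := by
  have hB := BD_BSet hO hind hβ0 hβ1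
  have hc1 : c 1 = 1 := by
    have := hc 0 hB.zero 0 hB.zero
    rw [add_zero, one_mul] at this
    exact (mul_eq_left.1 this.symm)
  have hlt : ∀ (f : Finset K → K) (i : Bool) (a : K),
      (Ak O i).valuation (↑f : Germ (UF K : Filter (Finset K)) K) <
        (Ak O i).valuation (algebraMap K (Germ (UF K : Filter (Finset K)) K) a) ↔
      ∀ᶠ t in (UF K : Filter (Finset K)), (O i).valuation (f t) < (O i).valuation a := by
    intro f i a
    rw [alg_apply]
    exact UV_lt
  refine ⟨?_, hβ0, ?_, ?_, ?_, ?_, ?_, ?_, ?_, ?_, ?_, ?_⟩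
  · -- infinite
    have := hB.inf ∅
    simp only [Finset.notMem_empty, false_implies, implies_true, ofPred_true] at this
    exact Set.infinite_univ_iff.1 this
  · intro i
    rw [ValuationSubring.valuation_le_one_iff, alg_apply]
    exact Eventually.of_forall fun t => ((O i).valuation_le_one_iff _).1 (hβ1 i)
  · rw [← Germ.coe_one, mem_TL]
    refine Eventually.of_forall fun t => ?_
    rw [Pi.one_apply, sub_self]
    exact ⟨hB.zero, hc1⟩
  · intro x hx y hy
    induction x using Germ.inductionOn with | _ f
    induction y using Germ.inductionOn with | _ g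
    rw [mem_TL] at hx hy
    rw [← Germ.coe_mul, mem_TL]
    filter_upwards [hx, hy] with t h1 h2
    rw [Pi.mul_apply]
    have e : f t * g t - 1 = (f t - 1) + (g t - 1) + (f t - 1) * (g t - 1) := by ring
    refine ⟨?_, ?_⟩
    · rw [e]
      exact hB.add _ (hB.add _ h1.1 _ h2.1) _ (hB.mul _ h1.1 _ h2.1)
    · have := hc _ h1.1 _ h2.1
      rw [add_sub_cancel, add_sub_cancel, h1.2, h2.2, one_mul] at this
      exact this
  · intro x hx
    induction x using Germ.inductionOn with | _ f
    rw [mem_TL] at hx
    rw [← Germ.coe_inv, mem_TL]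
    filter_upwards [hx] with t h1
    rw [Pi.inv_apply]
    have hne : f t ≠ 0 := by
      have := hB.ne _ h1.1
      rwa [add_sub_cancel] at this
    have e : (f t)⁻¹ - 1 = -((f t - 1) / (1 + (f t - 1))) := by
      rw [add_sub_cancel]
      field_simp
      ring
    have h2 : (f t)⁻¹ - 1 ∈ BSet O β := by
      rw [e]
      exact hB.neg _ (hB.div _ h1.1)
    refine ⟨h2, ?_⟩
    have := hc _ h1.1 _ h2
    rw [add_sub_cancel, add_sub_cancel, mul_inv_cancel₀ hne, hc1, h1.2, one_mul] at this
    exact this.symm
  · intro x hx i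
    induction x using Germ.inductionOn with | _ f
    rw [mem_TL] at hx
    rw [← Germ.coe_one, ← Germ.coe_sub, hlt]
    filter_upwards [hx] with t h1
    exact h1.1 i
  · choose ε hε0 hε using fun F : Finset K => exists_mem_NbB hB hc F
    refine ⟨(↑ε : Germ (UF K : Filter (Finset K)) K), ?_, fun a => ?_⟩
    · intro h0
      rw [← Germ.coe_zero, Germ.coe_eq] at h0
      obtain ⟨t, ht⟩ := h0.exists
      exact hε0 t ht
    · rw [mem_TL_lin]
      filter_upwards [eventually_mem a] with F hF
      exact hε F a hF
  · obtain ⟨F, hF⟩ := exists_addB hB hc hVC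
    refine ⟨F, fun α hα β' hβ' => ?_⟩
    induction α using Germ.inductionOn with | _ f
    induction β' using Germ.inductionOn with | _ g
    have h1 : ∀ᶠ t in (UF K : Filter (Finset K)), ∀ a ∈ F,
        a * f t ∈ BSet O β ∧ c (1 + a * f t) = 1 := by
      rw [Filter.eventually_all_finset]
      exact fun a ha => mem_TL_lin.1 (hα a ha)
    have h2 : ∀ᶠ t in (UF K : Filter (Finset K)), ∀ a ∈ F,
        a * g t ∈ BSet O β ∧ c (1 + a * g t) = 1 := by
      rw [Filter.eventually_all_finset]
      exact fun a ha => mem_TL_lin.1 (hβ' a ha)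
    rw [← Germ.coe_one, ← Germ.coe_add, ← Germ.coe_add, mem_TL]
    filter_upwards [h1, h2] with t e1 e2
    have h3 := hF _ e1 _ e2
    refine ⟨?_, h3.2⟩
    have e : (1 + f + g) t - 1 = f t + g t := by
      show 1 + f t + g t - 1 = _
      ring
    rw [e]
    exact h3.1
  · obtain ⟨X, F, h⟩ := exists_goodB hB hc hVC
    refine ⟨X, F, fun w hw => ?_⟩
    induction w using Germ.inductionOn with | _ g
    have hwX : ∀ᶠ t in (UF K : Filter (Finset K)), ∀ x ∈ X, g t * x ∈ BSet O β := by
      rw [Filter.eventually_all_finset]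
      intro x hx
      have h1 : ∀ i, ∀ᶠ t in (UF K : Filter (Finset K)),
          (O i).valuation (g t * x) < (O i).valuation (β i) := by
        intro i
        have := hw x hx i
        rw [alg_apply, ← Germ.coe_mul, hlt] at this
        exact this
      filter_upwards [h1 true, h1 false] with t e1 e2
      intro i
      cases i
      · exact e2
      · exact e1
    have h2 : ∀ᶠ t in (UF K : Filter (Finset K)), ∃ x ∈ (X : Set K), ∀ δ ∈ NbB (BSet O β) c F,
        g t * δ ∈ BSet O β → c (1 + g t * (x + δ)) = c (1 + g t * x) := by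
      filter_upwards [hwX] with t ht
      exact h (g t) ht
    rw [Ultrafilter.eventually_exists_mem_iff (Finset.finite_toSet X)] at h2
    obtain ⟨x, hx, h3⟩ := h2
    refine ⟨x, hx, fun δ hδ hδw => ?_⟩
    induction δ using Germ.inductionOn with | _ d
    have h4 : ∀ᶠ t in (UF K : Filter (Finset K)), ∀ a ∈ F,
        a * d t ∈ BSet O β ∧ c (1 + a * d t) = 1 := by
      rw [Filter.eventually_all_finset]
      exact fun a ha => mem_TL_lin.1 (hδ a ha)
    have h5 : ∀ i, ∀ᶠ t in (UF K : Filter (Finset K)),
        (O i).valuation (g t * d t) < (O i).valuation (β i) := by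
      intro i
      have := hδw i
      rw [← Germ.coe_mul, hlt] at this
      exact this
    rw [alg_apply, ← Germ.coe_add, ← Germ.coe_mul, ← Germ.coe_mul, ← Germ.coe_one,
      ← Germ.coe_add, ← Germ.coe_add, ← Germ.coe_div, mem_TL]
    filter_upwards [h3, h4, hwX, h5 true, h5 false] with t e1 e2 e3 e4 e5
    have e6 : g t * d t ∈ BSet O β := by
      intro i
      cases i
      · exact e5
      · exact e4
    have e7 := e1 (d t) e2 e6
    have e8 := e3 x hx
    have hne : 1 + g t * x ≠ 0 := hB.ne _ e8
    show (1 + g t * (x + d t)) / (1 + g t * x) - 1 ∈ _ ∧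
      c ((1 + g t * (x + d t)) / (1 + g t * x)) = 1
    have e9 : (1 + g t * (x + d t)) / (1 + g t * x) - 1 = g t * d t / (1 + g t * x) := by
      field_simp
      ring
    have e10 : (1 + g t * (x + d t)) / (1 + g t * x) - 1 ∈ BSet O β := by
      rw [e9]
      exact BSet_div hβ1 e8 e6
    refine ⟨e10, ?_⟩
    have e11 := hc _ e10 _ e8
    rw [add_sub_cancel, div_mul_cancel₀ _ hne, e7] at e11
    exact mul_eq_right.1 e11.symm
  · intro a ha
    obtain ⟨b, hb0, hb⟩ := exists_smallK hO hind a ha
    refine ⟨b, hb0, fun i => ?_⟩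
    have := (hlt (fun _ => b) i (a i)).2 (Eventually.of_forall fun t => hb i)
    exact this
  · intro x
    induction x using Germ.inductionOn with | _ f
    choose y hy z hz hxy using fun t => exists_factor hO hind (f t)
    refine ⟨(↑y : Germ (UF K : Filter (Finset K)) K), Eventually.of_forall hy,
      (↑z : Germ (UF K : Filter (Finset K)) K), Eventually.of_forall hz, ?_⟩
    rw [← Germ.coe_mul]
    congr 1
    funext t
    exact hxy t

theorem aeval_germ (g : K[X]) (f : Finset K → K) :
    aeval (↑f : Germ (UF K : Filter (Finset K)) K) g =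
      (↑(fun t => g.eval (f t)) : Germ (UF K : Filter (Finset K)) K) := by
  have h1 : aeval (↑f : Germ (UF K : Filter (Finset K)) K) g =
      eval₂ ((Germ.coeRingHom (UF K : Filter (Finset K))).comp (Pi.constRingHom (Finset K) K))
        (Germ.coeRingHom (UF K : Filter (Finset K)) f) g := rfl
  rw [h1, ← Polynomial.hom_eval₂]
  have h2 : eval₂ (Pi.constRingHom (Finset K) K) f g = fun t => g.eval (f t) := by
    funext t
    have h3 := Polynomial.hom_eval₂ g (Pi.constRingHom (Finset K) K)
      (Pi.evalRingHom (fun _ : Finset K => K) t) f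
    exact h3
  rw [h2]
  rfl

theorem local_character {K : Type u} [Field K] {O : Bool → ValuationSubring K}
    (hO : ∀ i, O i ≠ ⊤) (hind : O true ⊔ O false = ⊤) {β : Bool → K} (hβ0 : ∀ i, β i ≠ 0)
    (hβ1 : ∀ i, (O i).valuation (β i) ≤ 1) {Q : Type v} [Group Q] [Finite Q] {c : K → Q}
    (hc : ∀ x ∈ BSet O β, ∀ y ∈ BSet O β, c ((1 + x) * (1 + y)) = c (1 + x) * c (1 + y))
    (hVC : ∀ q : Q, ∃ d : ℕ, ∀ f : Fin d → K, ∃ J : Finset (Fin d), ∀ x : K,
      (∀ i, f i * x ∈ BSet O β) → ∃ i, ¬ (c (1 + f i * x) = q ↔ i ∈ J))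
    {b : K} (hb : b ≠ 0) (g : K[X]) :
    ∃ e : K, (O true).valuation (e - 1) < (O true).valuation b ∧
      (O false).valuation e < (O false).valuation b ∧
      e * (1 - e) * g.eval e ∈ BSet O β ∧ c (1 + e * (1 - e) * g.eval e) = 1 := by
  obtain ⟨e, h1, h2, h3⟩ := (ldat hO hind hβ0 hβ1 hc hVC).exists_idem g
  induction e using Germ.inductionOn with | _ f
  have k1 := h1 b hb
  have k2 := h2 b hb
  rw [alg_apply] at k1 k2
  rw [← Germ.coe_one, ← Germ.coe_sub] at k1
  have k1' := UV_lt.1 k1
  have k2' := UV_lt.1 k2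
  rw [aeval_germ, ← Germ.coe_one, ← Germ.coe_sub, ← Germ.coe_mul, ← Germ.coe_mul,
    ← Germ.coe_add, mem_TL] at h3
  obtain ⟨t, e1, e2, e3⟩ := (k1'.and (k2'.and h3)).exists
  refine ⟨f t, e1, e2, ?_, ?_⟩
  · have := e3.1
    have e4 : (1 + f * (1 - f) * fun t => g.eval (f t)) t - 1 = f t * (1 - f t) * g.eval (f t) := by
      show 1 + f t * (1 - f t) * g.eval (f t) - 1 = _
      ring
    rw [e4] at this
    exact this
  · exact e3.2

end main

end Pool.Agent.NIPFields.LC
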