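import Pool.Agent.NIPFields.LC.TTCore
import Pool.Agent.NIPFields.LC.LCThm

/-!
# Two independent valuations and small roots
-/

set_option autoImplicit false

namespace Pool.Agent.NIPFields.LC

universe u v

theorem TT {F : Type u} [Field F] {O₁ O₂ : ValuationSubring F} (h₁ : O₁ ≠ ⊤) (h₂ : O₂ ≠ ⊤)
    (hind : O₁ ⊔ O₂ = ⊤) {ℓ : ℕ} (hℓ : 2 ≤ ℓ) (hℓ0 : (ℓ : F) ≠ 0) {ζ : F}
    (hζ : IsPrimitiveRoot ζ ℓ) (hfin : ((powMonoidHom ℓ : Fˣ →* Fˣ).range).FiniteIndex)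
    (hVC : ∀ z : F, ∃ d : ℕ, ∀ f : Fin d → F, ∃ J : Finset (Fin d), ∀ x : F,
      ∃ i, ¬ ((∃ y, O₁.valuation (y - 1) < O₁.valuation (ℓ : F) ∧
        O₂.valuation (y - 1) < O₂.valuation (ℓ : F) ∧ y ^ ℓ * z = 1 + f i * x) ↔ i ∈ J)) :
    False := by
  set O : Bool → ValuationSubring F := fun b => bif b then O₁ else O₂ with hO
  refine TT_of_LC (O := O) hℓ hℓ0 hζ hfin hVC ?_
  intro Q _ _ c hc1 hc2 g
  have hOne : ∀ i, O i ≠ ⊤ := by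
    rintro (_ | _)
    · exact h₂
    · exact h₁
  obtain ⟨e, h3, h4, h5, h6⟩ := local_character (O := O) (β := TTaux.bll F ℓ) hOne hind
    (TTaux.bll_ne hℓ0) (TTaux.bll_le O ℓ) (c := c) hc1 hc2 hℓ0 g
  exact ⟨e, h3, h4, h5, h6⟩

end Pool.Agent.NIPFields.LC
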