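import Mathlib
import Pool.Agent.NIPFields.DefVal
import Pool.Agent.NIPFields.LDef
import Pool.Agent.NIPFields.LC.TT

set_option autoImplicit false

/-!
# Two incomparable definable valuation rings are impossible
-/

namespace Pool.Agent.NIPFields.LC

open FirstOrder FirstOrder.Language FirstOrder.Ring Set Filter IsLocalRing Polynomial

universe u v

section res

variable {L : Type u} [Field L]

theorem val_lt_one_iff_inv {A : ValuationSubring L} {x : L} :
    A.valuation x < 1 ↔ ∀ y, x * y = 1 → y ∉ A := by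
  constructor
  · intro h y hy
    have hx0 : x ≠ 0 := left_ne_zero_of_mul_eq_one hy
    rw [← (inv_eq_of_mul_eq_one_right hy)]
    exact val_inv_gt hx0 h
  · intro h
    by_cases hx0 : x = 0
    · rw [hx0, map_zero]; exact zero_lt_one
    · exact val_lt_one_of_inv_notMem (h _ (mul_inv_cancel₀ hx0))

variable {A U : ValuationSubring L}

/-- The image of `A` in the residue field of the larger valuation ring `U`. -/
noncomputable def resVal (h : A ≤ U) : ValuationSubring (ResidueField U) where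
  carrier := {z | ∃ x : U, (x : L) ∈ A ∧ residue U x = z}
  mul_mem' := by
    rintro _ _ ⟨x, hx, rfl⟩ ⟨y, hy, rfl⟩
    exact ⟨x * y, A.mul_mem _ _ hx hy, map_mul _ _ _⟩
  one_mem' := ⟨1, A.one_mem, map_one _⟩
  zero_mem' := ⟨0, A.zero_mem, map_zero _⟩
  add_mem' := by
    rintro _ _ ⟨x, hx, rfl⟩ ⟨y, hy, rfl⟩
    exact ⟨x + y, A.add_mem _ _ hx hy, map_add _ _ _⟩
  neg_mem' := by
    rintro _ ⟨x, hx, rfl⟩
    exact ⟨-x, A.neg_mem _ hx, map_neg _ _⟩
  mem_or_inv_mem' := by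
    intro z
    obtain ⟨x, rfl⟩ := residue_surjective z
    rcases A.mem_or_inv_mem (x : L) with hx | hx
    · exact Or.inl ⟨x, hx, rfl⟩
    · right
      by_cases hx0 : (x : L) = 0
      · have : x = 0 := Subtype.ext hx0
        exact ⟨0, A.zero_mem, by rw [this, map_zero, inv_zero]⟩
      · refine ⟨⟨(x : L)⁻¹, h hx⟩, hx, ?_⟩
        apply eq_inv_of_mul_eq_one_left
        rw [← map_mul, ← map_one (residue U)]
        congr 1
        apply Subtype.ext
        exact inv_mul_cancel₀ hx0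

theorem mem_resVal (h : A ≤ U) {x : U} : residue U x ∈ resVal h ↔ (x : L) ∈ A := by
  constructor
  · rintro ⟨y, hy, e⟩
    have h1 : residue U (x - y) = 0 := by rw [map_sub, e, sub_self]
    rw [residue_eq_zero_iff] at h1
    have h2 : U.valuation ((x - y : U) : L) < 1 := (U.valuation_lt_one_iff _).1 h1
    have h3 := val_lt_of_le h h2
    have h4 : ((x - y : U) : L) ∈ A := (A.valuation_le_one_iff _).1 h3.le
    have h5 : (x : L) = ((x - y : U) : L) + y := by push_cast; ring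
    rw [h5]
    exact A.add_mem _ _ h4 hy
  · intro hx
    exact ⟨x, hx, rfl⟩

theorem resVal_val_lt_one (h : A ≤ U) {x : U} :
    (resVal h).valuation (residue U x) < 1 ↔ A.valuation (x : L) < 1 := by
  rw [val_lt_one_iff_inv, val_lt_one_iff_inv]
  constructor
  · intro hx y hy hyA
    have hyU : y ∈ U := h hyA
    refine hx (residue U ⟨y, hyU⟩) ?_ ((mem_resVal h).2 hyA)
    rw [← map_mul, ← map_one (residue U)]
    congr 1
    exact Subtype.ext hy
  · intro hx z hz hzA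
    obtain ⟨y, hy, rfl⟩ := hzA
    rw [← map_mul] at hz
    have h1 : IsUnit (x * y) := by
      by_contra hnu
      have := (residue_eq_zero_iff (x * y)).2 hnu
      rw [hz] at this
      exact one_ne_zero this
    have hxu : IsUnit x := isUnit_of_mul_isUnit_left h1
    have hx0 : (x : L) ≠ 0 := by
      intro h0
      have : x = 0 := Subtype.ext h0
      rw [this] at hxu
      exact not_isUnit_zero hxu
    have hxi : (x : L)⁻¹ ∈ U := by
      obtain ⟨y', hy'⟩ := hxu.exists_right_inv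
      have : (x : L)⁻¹ = y' := inv_eq_of_mul_eq_one_right (by exact_mod_cast congrArg Subtype.val hy')
      rw [this]
      exact y'.2
    refine hx (x : L)⁻¹ (mul_inv_cancel₀ hx0) ?_
    have h2 : residue U y = residue U ⟨(x : L)⁻¹, hxi⟩ := by
      have h3 : residue U x * residue U ⟨(x : L)⁻¹, hxi⟩ = 1 := by
        rw [← map_mul, ← map_one (residue U)]
        congr 1
        exact Subtype.ext (mul_inv_cancel₀ hx0)
      rw [map_mul] at hz
      have hne : residue U x ≠ 0 := left_ne_zero_of_mul_eq_one hz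
      exact mul_left_cancel₀ hne (hz.trans h3.symm)
    have h4 : residue U ⟨(x : L)⁻¹, hxi⟩ ∈ resVal h := by
      rw [← h2]
      exact ⟨y, hy, rfl⟩
    exact (mem_resVal h).1 h4

end res


section fin

variable {L : Type u} [Field L]

theorem finiteIndex_res {U : ValuationSubring L} {ℓ : ℕ} (hℓ : ℓ ≠ 0)
    (hfin : ((powMonoidHom ℓ : Lˣ →* Lˣ).range).FiniteIndex) :
    ((powMonoidHom ℓ : (ResidueField U)ˣ →* (ResidueField U)ˣ).range).FiniteIndex := by
  classical
  let φ : Uˣ →* Lˣ := Units.map (U.subtype : U →* L)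
  let ψ : Uˣ →* (ResidueField U)ˣ := Units.map (residue U : U →* ResidueField U)
  have hψ : Function.Surjective ψ := by
    intro z
    obtain ⟨x, hx⟩ := residue_surjective (z : ResidueField U)
    have hxu : IsUnit x := by
      by_contra hnu
      have := (residue_eq_zero_iff x).2 hnu
      rw [hx] at this
      exact z.ne_zero this
    obtain ⟨u, rfl⟩ := hxu
    exact ⟨u, Units.ext hx⟩
  have h1 : ((powMonoidHom ℓ : Lˣ →* Lˣ).range.comap φ).FiniteIndex := by
    refine ⟨?_⟩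
    rw [Subgroup.index_comap]
    intro h
    have := Subgroup.relIndex_dvd_index_of_normal ((powMonoidHom ℓ : Lˣ →* Lˣ).range) φ.range
    rw [h] at this
    exact hfin.index_ne_zero (Nat.eq_zero_of_zero_dvd this)
  have h2 : (powMonoidHom ℓ : Lˣ →* Lˣ).range.comap φ ≤ (powMonoidHom ℓ : Uˣ →* Uˣ).range := by
    rintro u ⟨y, hy⟩
    have hy' : (y : L) ^ ℓ = ((u : U) : L) := by
      have := congrArg Units.val hy
      simpa [φ] using this
    have hv : U.valuation (y : L) = 1 := by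
      have hu : U.valuation (((u : U) : L)) = 1 := (U.valuation_eq_one_iff (u : U)).1 u.isUnit
      rw [← hy', map_pow] at hu
      exact (pow_eq_one_iff_of_nonneg zero_le hℓ).1 hu
    have hyU : (y : L) ∈ U := (U.valuation_le_one_iff _).1 hv.le
    have hyu : IsUnit (⟨y, hyU⟩ : U) := (U.valuation_eq_one_iff ⟨y, hyU⟩).2 hv
    obtain ⟨w, hw⟩ := hyu
    refine ⟨w, ?_⟩
    apply Units.ext
    apply Subtype.ext
    have hw' : ((w : U) : L) = y := by rw [hw]
    simp only [powMonoidHom_apply, Units.val_pow_eq_pow_val]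
    push_cast
    rw [hw', hy']
  have := h1
  have h3 : ((powMonoidHom ℓ : Uˣ →* Uˣ).range).FiniteIndex := Subgroup.finiteIndex_of_le h2
  have h4 : (powMonoidHom ℓ : Uˣ →* Uˣ).range.map ψ ≤
      (powMonoidHom ℓ : (ResidueField U)ˣ →* (ResidueField U)ˣ).range := by
    rintro _ ⟨_, ⟨y, rfl⟩, rfl⟩
    exact ⟨ψ y, by simp only [powMonoidHom_apply, map_pow]⟩
  have h5 : ((powMonoidHom ℓ : Uˣ →* Uˣ).range.map ψ).FiniteIndex := by
    refine ⟨?_⟩
    intro h
    have := Subgroup.index_map_dvd (H := (powMonoidHom ℓ : Uˣ →* Uˣ).range) hψ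
    rw [h] at this
    exact h3.index_ne_zero (Nat.eq_zero_of_zero_dvd this)
  have := h5
  exact Subgroup.finiteIndex_of_le h4

end fin

section main

variable {K : Type u} [Field K] [CompatibleRing K] {L : Type u} [Field L] [Algebra K L] {d : ℕ}
  {e : Module.Basis (Fin d) K L} {α : Type*}

theorem mem_sup_iff {O₁ O₂ : ValuationSubring L} {x : L} :
    x ∈ O₁ ⊔ O₂ ↔ ∃ y ∈ O₁, ∃ z ∈ O₂, x = y * z := by
  constructor
  · intro hx
    have hle : O₁ ⊔ O₂ ≤ joinRing O₁ O₂ := by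
      refine sup_le (le_joinRing _ _) ?_
      intro y hy
      exact mem_joinRing.2 ⟨y, hy, le_refl _⟩
    obtain ⟨o, ho, h⟩ := mem_joinRing.1 (hle hx)
    by_cases ho0 : o = 0
    · refine ⟨0, O₁.zero_mem, 0, O₂.zero_mem, ?_⟩
      rw [ho0, map_zero, le_zero_iff, map_eq_zero] at h
      rw [h, zero_mul]
    · refine ⟨x / o, ?_, o, ho, by field_simp⟩
      rw [← O₁.valuation_le_one_iff, map_div₀]
      exact div_le_one_of_le₀ h zero_le
  · rintro ⟨y, hy, z, hz, rfl⟩
    exact (O₁ ⊔ O₂).mul_mem _ _ ((le_sup_left : O₁ ≤ O₁ ⊔ O₂) hy)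
      ((le_sup_right : O₂ ≤ O₁ ⊔ O₂) hz)

theorem ldef_sup {O₁ O₂ : ValuationSubring L} (hd₁ : LDef₁ e {x | x ∈ O₁})
    (hd₂ : LDef₁ e {x | x ∈ O₂}) : LDef₁ e {x | x ∈ O₁ ⊔ O₂} := by
  have h1 : LDef e {v : Unit ⊕ Fin 2 → L | v (Sum.inr 0) ∈ {x | x ∈ O₁}} :=
    LDef₁.mem hd₁ (LFun.var _)
  have h2 : LDef e {v : Unit ⊕ Fin 2 → L | v (Sum.inr 1) ∈ {x | x ∈ O₂}} :=
    LDef₁.mem hd₂ (LFun.var _)
  have h3 : LDef e {v : Unit ⊕ Fin 2 → L | v (Sum.inl ()) = v (Sum.inr 0) * v (Sum.inr 1)} :=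
    LFun.eq (LFun.var _) ((LFun.var _).mul (LFun.var _))
  have h4 := ((h1.inter h2).inter h3).exists
  unfold LDef₁
  convert h4 using 1
  ext v
  simp only [mem_ofPred_eq, mem_inter_iff, Sum.elim_inl, Sum.elim_inr]
  rw [mem_sup_iff]
  constructor
  · rintro ⟨y, hy, z, hz, h⟩
    exact ⟨![y, z], ⟨hy, hz⟩, h⟩
  · rintro ⟨u, ⟨h, h'⟩, h''⟩
    exact ⟨_, h, _, h', h''⟩

theorem ldef_max {O : ValuationSubring L} (hd : LDef₁ e {x | x ∈ O}) :
    LDef₁ e {x | O.valuation x < 1} := by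
  have h1 : LDef e {v : Unit ⊕ Fin 1 → L | v (Sum.inr 0) ∈ {x | x ∈ O}} :=
    LDef₁.mem hd (LFun.var _)
  have h2 : LDef e {v : Unit ⊕ Fin 1 → L | v (Sum.inl ()) * v (Sum.inr 0) = 1} :=
    LFun.eq ((LFun.var _).mul (LFun.var _)) (LFun.const 1)
  have h3 := (h2.imp h1.compl).forall
  unfold LDef₁
  convert h3 using 1
  ext v
  simp only [mem_ofPred_eq, Sum.elim_inl, Sum.elim_inr, mem_compl_iff]
  rw [val_lt_one_iff_inv]
  constructor
  · intro h u hu
    exact h _ hu
  · intro h y hy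
    exact h (fun _ => y) hy

/-- The finite VC dimension of the relation on the residue field of the join. -/
theorem vc_res (hK : NIP K) {O₁ O₂ U : ValuationSubring L} (hd₁ : LDef₁ e {x | x ∈ O₁})
    (hd₂ : LDef₁ e {x | x ∈ O₂}) (hdU : LDef₁ e {x | x ∈ U}) (hu₁ : O₁ ≤ U) (hu₂ : O₂ ≤ U)
    (ℓ : ℕ) (hℓ : (ℓ : ResidueField U) ≠ 0) (z : ResidueField U) :
    ∃ d : ℕ, ∀ f : Fin d → ResidueField U, ∃ J : Finset (Fin d), ∀ x : ResidueField U,
      ∃ i, ¬ ((∃ y, (resVal hu₁).valuation (y - 1) < (resVal hu₁).valuation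
          (ℓ : ResidueField U) ∧
        (resVal hu₂).valuation (y - 1) < (resVal hu₂).valuation (ℓ : ResidueField U) ∧
        y ^ ℓ * z = 1 + f i * x) ↔ i ∈ J) := by
  classical
  obtain ⟨z, rfl⟩ := residue_surjective z
  have hM₁ := ldef_max hd₁
  have hM₂ := ldef_max hd₂
  have hMU : LDef₁ e {x | U.valuation x < 1} := ldef_max hdU
  have h1 : LDef e {v : (Fin 1 ⊕ Fin 1) ⊕ Fin 1 → L |
      v (Sum.inr 0) ∈ {x | O₁.valuation x < 1}} := LDef₁.mem hM₁ (LFun.var _)
  have h2 : LDef e {v : (Fin 1 ⊕ Fin 1) ⊕ Fin 1 → L |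
      v (Sum.inr 0) ∈ {x | O₂.valuation x < 1}} := LDef₁.mem hM₂ (LFun.var _)
  have h3 : LDef e {v : (Fin 1 ⊕ Fin 1) ⊕ Fin 1 → L |
      (1 + (ℓ : L) * v (Sum.inr 0)) ^ ℓ * (z : L) -
        (1 + v (Sum.inl (Sum.inl 0)) * v (Sum.inl (Sum.inr 0))) ∈ {x | U.valuation x < 1}} := by
    refine LDef₁.mem hMU (LFun.sub (LFun.mul (LFun.pow (LFun.add (LFun.const 1)
      (LFun.mul (LFun.const _) (LFun.var _))) _) (LFun.const _)) (LFun.add (LFun.const 1)
      (LFun.mul (LFun.var _) (LFun.var _))))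
  have h4 := ((h1.inter h2).inter h3).exists
  obtain ⟨n, hn⟩ := hK.ldef h4
  refine ⟨n, fun f => ?_⟩
  by_contra hcon
  push Not at hcon
  choose x hx using hcon
  have hlift : ∀ y : ResidueField U, ∃ x : U, residue U x = y := residue_surjective
  choose lift hl using hlift
  obtain ⟨i, J, hiJ⟩ := hn (fun i _ => (lift (f i) : L)) (fun J _ => (lift (x J) : L))
  apply hiJ
  rw [← hx J i]
  clear hiJ
  simp only [mem_ofPred_eq, mem_inter_iff, Sum.elim_inl, Sum.elim_inr]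
  have hℓU : ((ℓ : U) : L) = (ℓ : L) := by push_cast; rfl
  have hresℓ : residue U (ℓ : U) = (ℓ : ResidueField U) := map_natCast _ _
  have key : ∀ w : U, ((1 + (ℓ : L) * w) ^ ℓ * (z : L) -
        (1 + (lift (f i) : L) * (lift (x J) : L)) =
        (((1 + (ℓ : U) * w) ^ ℓ * z - (1 + lift (f i) * lift (x J)) : U) : L)) := by
    intro w
    push_cast
    rfl
  have key2 : ∀ w : U, U.valuation ((1 + (ℓ : L) * w) ^ ℓ * (z : L) -
        (1 + (lift (f i) : L) * (lift (x J) : L))) < 1 ↔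
      (1 + (ℓ : ResidueField U) * residue U w) ^ ℓ * residue U z = 1 + f i * x J := by
    intro w
    rw [key w, ← U.valuation_lt_one_iff, ← residue_eq_zero_iff]
    rw [map_sub, map_mul, map_pow, map_add, map_mul, map_natCast, map_one, map_add, map_mul,
      map_one, hl, hl, sub_eq_zero]
  constructor
  · rintro ⟨u, ⟨hu1, hu2⟩, hu3⟩
    have huU : u 0 ∈ U := hu₁ ((O₁.valuation_le_one_iff _).1 hu1.le)
    refine ⟨1 + (ℓ : ResidueField U) * residue U ⟨u 0, huU⟩, ?_, ?_, (key2 ⟨u 0, huU⟩).1 hu3⟩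
    · rw [add_sub_cancel_left, map_mul]
      refine mul_lt_of_lt_one_right (zero_lt_iff.2 ((_root_.map_ne_zero _).2 hℓ)) ?_
      exact (resVal_val_lt_one _).2 hu1
    · rw [add_sub_cancel_left, map_mul]
      refine mul_lt_of_lt_one_right (zero_lt_iff.2 ((_root_.map_ne_zero _).2 hℓ)) ?_
      exact (resVal_val_lt_one _).2 hu2
  · rintro ⟨y, hy1, hy2, hy3⟩
    obtain ⟨w, hw⟩ := residue_surjective ((y - 1) / (ℓ : ResidueField U))
    have hyw : y = 1 + (ℓ : ResidueField U) * residue U w := by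
      rw [hw]; field_simp; ring
    have hlt : ∀ B : ValuationSubring (ResidueField U),
        B.valuation (y - 1) < B.valuation (ℓ : ResidueField U) →
        B.valuation (residue U w) < 1 := by
      intro B hB
      rw [hw, map_div₀]
      exact (div_lt_one₀ (zero_lt_iff.2 ((_root_.map_ne_zero _).2 hℓ))).2 hB
    refine ⟨fun _ => (w : L), ⟨?_, ?_⟩, ?_⟩
    · exact (resVal_val_lt_one _).1 (hlt _ hy1)
    · exact (resVal_val_lt_one _).1 (hlt _ hy2)
    · exact (key2 w).2 (by rw [← hyw]; exact hy3)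

theorem resVal_ne_top {A U : ValuationSubring L} (h : A ≤ U) (h' : ¬ U ≤ A) : resVal h ≠ ⊤ := by
  intro htop
  apply h'
  intro x hx
  have : residue U ⟨x, hx⟩ ∈ resVal h := by rw [htop]; trivial
  exact (mem_resVal h).1 this

theorem resVal_sup (O₁ O₂ : ValuationSubring L) :
    resVal (le_sup_left : O₁ ≤ O₁ ⊔ O₂) ⊔ resVal (le_sup_right : O₂ ≤ O₁ ⊔ O₂) = ⊤ := by
  rw [eq_top_iff]
  intro z _
  obtain ⟨x, rfl⟩ := residue_surjective z
  obtain ⟨y, hy, w, hw, e⟩ := mem_sup_iff.1 x.2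
  rw [mem_sup_iff]
  have hyU : y ∈ O₁ ⊔ O₂ := (le_sup_left : O₁ ≤ O₁ ⊔ O₂) hy
  have hwU : w ∈ O₁ ⊔ O₂ := (le_sup_right : O₂ ≤ O₁ ⊔ O₂) hw
  refine ⟨residue _ ⟨y, hyU⟩, (mem_resVal _).2 hy, residue _ ⟨w, hwU⟩, (mem_resVal _).2 hw, ?_⟩
  rw [← map_mul]
  congr 1
  exact Subtype.ext e

theorem no_incomparable {K : Type u} [Field K] [CompatibleRing K] (hK : NIP K) {L : Type u}
    [Field L] [Algebra K L] [FiniteDimensional K L] (O₁ O₂ : ValuationSubring L)
    (h₁ : ¬ O₁ ≤ O₂) (h₂ : ¬ O₂ ≤ O₁) (hd₁ : LDef₁ (Module.finBasis K L) {x | x ∈ O₁})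
    (hd₂ : LDef₁ (Module.finBasis K L) {x | x ∈ O₂}) (hω : ∃ ω : L, ω ^ 2 + ω + 1 = 0)
    (hf2 : (2 : L) ≠ 0 → ((powMonoidHom 2 : Lˣ →* Lˣ).range).FiniteIndex)
    (hf3 : (3 : L) ≠ 0 → ((powMonoidHom 3 : Lˣ →* Lˣ).range).FiniteIndex) : False := by
  have key : ∀ (ℓ : ℕ) (ζ : ResidueField (O₁ ⊔ O₂ : ValuationSubring L)), 2 ≤ ℓ →
      (ℓ : ResidueField (O₁ ⊔ O₂ : ValuationSubring L)) ≠ 0 → IsPrimitiveRoot ζ ℓ →
      ((powMonoidHom ℓ : Lˣ →* Lˣ).range).FiniteIndex → False := by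
    intro ℓ ζ hℓ hℓ0 hζ hfin
    refine TT (resVal_ne_top (le_sup_left : O₁ ≤ O₁ ⊔ O₂) ?_)
      (resVal_ne_top (le_sup_right : O₂ ≤ O₁ ⊔ O₂) ?_) (resVal_sup O₁ O₂) hℓ hℓ0 hζ
      (finiteIndex_res (by omega) hfin) 
      (vc_res hK hd₁ hd₂ (ldef_sup hd₁ hd₂) le_sup_left le_sup_right ℓ hℓ0)
    · exact fun h => h₂ (le_sup_right.trans h)
    · exact fun h => h₁ (le_sup_left.trans h)
  have hcast : ∀ n : ℕ, (n : ResidueField (O₁ ⊔ O₂ : ValuationSubring L)) ≠ 0 → (n : L) ≠ 0 := by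
    intro n hn h
    apply hn
    have h1 : ((n : (O₁ ⊔ O₂ : ValuationSubring L))) = 0 := by
      apply Subtype.ext
      push_cast
      exact h
    rw [← map_natCast (residue (O₁ ⊔ O₂ : ValuationSubring L)), h1, map_zero]
  by_cases h2 : (2 : ResidueField (O₁ ⊔ O₂ : ValuationSubring L)) = 0
  · have h3 : ((3 : ℕ) : ResidueField (O₁ ⊔ O₂ : ValuationSubring L)) ≠ 0 := by
      have : ((3 : ℕ) : ResidueField (O₁ ⊔ O₂ : ValuationSubring L)) = 1 := by
        push_cast
        linear_combination h2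
      rw [this]
      exact one_ne_zero
    obtain ⟨ω, hω⟩ := hω
    have hωU : ω ∈ O₁ ⊔ O₂ := by
      rcases (O₁ ⊔ O₂).mem_or_inv_mem ω with h | h
      · exact h
      · by_cases hω0 : ω = 0
        · rw [hω0]; exact (O₁ ⊔ O₂).zero_mem
        have : ω = -1 - ω⁻¹ := by
          field_simp
          linear_combination hω
        rw [this]
        exact sub_mem (neg_mem (one_mem (O₁ ⊔ O₂))) h
    set ζ := residue (O₁ ⊔ O₂ : ValuationSubring L) ⟨ω, hωU⟩ with hζ
    have hζe : ζ ^ 2 + ζ + 1 = 0 := by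
      rw [hζ, ← map_pow, ← map_add, ← map_one (residue (O₁ ⊔ O₂ : ValuationSubring L)), ← map_add,
        ← map_zero (residue (O₁ ⊔ O₂ : ValuationSubring L))]
      congr 1
      exact Subtype.ext hω
    have hζ3 : ζ ^ 3 = 1 := by linear_combination (ζ - 1) * hζe
    have hζ1 : ζ ≠ 1 := by
      intro h
      apply h3
      rw [h] at hζe
      push_cast
      linear_combination hζe
    have hord : orderOf ζ = 3 := orderOf_eq_prime hζ3 hζ1
    refine key 3 ζ (by norm_num) h3 ?_ (hf3 ?_)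
    · rw [← hord]
      exact IsPrimitiveRoot.orderOf ζ
    · have := hcast 3 h3
      exact_mod_cast this
  · have h2' : ((2 : ℕ) : ResidueField (O₁ ⊔ O₂ : ValuationSubring L)) ≠ 0 := by
      push_cast
      exact h2
    have hne : (-1 : ResidueField (O₁ ⊔ O₂ : ValuationSubring L)) ≠ 1 := by
      intro h
      apply h2
      linear_combination -h
    have hord : orderOf (-1 : ResidueField (O₁ ⊔ O₂ : ValuationSubring L)) = 2 :=
      orderOf_eq_prime (by norm_num) hne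
    refine key 2 (-1) le_rfl h2' ?_ (hf2 ?_)
    · rw [← hord]
      exact IsPrimitiveRoot.orderOf _
    · have := hcast 2 h2'
      exact_mod_cast this

end main

end Pool.Agent.NIPFields.LC
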