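import Mathlib
import Pool.Agent.NIPFields.FI.Main
import Pool.Agent.NIPFields.DefValT

set_option autoImplicit false

/-!
# Ultrapowers of sets
-/

namespace Pool.Agent.NIPFields.LC

open FirstOrder FirstOrder.Language FirstOrder.Ring Set Filter
open Pool.Agent.NIPFields.FI

universe u

section

variable {L : Type u}

/-- The ultrapower of a set. -/
def GS (S : Set L) : Set (Germ (UF L : Filter (Finset L)) L) :=
  {x | x.LiftPred (fun z => z ∈ S)}

theorem mem_GS {S : Set L} {f : Finset L → L} :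
    (↑f : Germ (UF L : Filter (Finset L)) L) ∈ GS S ↔
      ∀ᶠ t in (UF L : Filter (Finset L)), f t ∈ S := Iff.rfl

/-- The constant germ. -/
noncomputable def cst (a : L) : Germ (UF L : Filter (Finset L)) L := ↑(fun _ : Finset L => a)

theorem cst_mem_GS {S : Set L} {a : L} : cst a ∈ GS S ↔ a ∈ S := by
  unfold cst
  rw [mem_GS]
  exact eventually_const

end

section

variable {L : Type u} [Field L]

theorem cst_zero : cst (0 : L) = 0 := rfl

theorem cst_one : cst (1 : L) = 1 := rfl

theorem cst_mul (a b : L) : cst (a * b) = cst a * cst b := rfl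

theorem cst_div (a b : L) : cst (a / b) = cst a / cst b := rfl

theorem cst_inv (a : L) : cst a⁻¹ = (cst a)⁻¹ := rfl

theorem cst_pow (a : L) (n : ℕ) : cst (a ^ n) = cst a ^ n := rfl

theorem cst_ne {a : L} (ha : a ≠ 0) : cst a ≠ 0 := by
  intro h
  apply ha
  rw [← cst_zero] at h
  unfold cst at h
  rw [Germ.coe_eq] at h
  obtain ⟨t, ht⟩ := h.exists
  exact ht

theorem ne_zero_iff {f : Finset L → L} : (↑f : Germ (UF L : Filter (Finset L)) L) ≠ 0 ↔
    ∀ᶠ t in (UF L : Filter (Finset L)), f t ≠ 0 := by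
  rw [Ultrafilter.eventually_not, ← Germ.coe_zero, Ne, Germ.coe_eq]
  exact Iff.rfl

theorem powGrp_GS {ℓ : ℕ} {T : Set L} (hT : PowGrp ℓ T) : PowGrp ℓ (GS T) where
  pow := by
    intro y
    induction y using Germ.inductionOn with | _ f
    rw [← Germ.coe_pow, mem_GS]
    exact Eventually.of_forall fun t => hT.pow (f t)
  mul := by
    intro x hx y hy
    induction x using Germ.inductionOn with | _ f
    induction y using Germ.inductionOn with | _ g
    rw [mem_GS] at hx hy
    rw [← Germ.coe_mul, mem_GS]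
    filter_upwards [hx, hy] with t h1 h2
    exact hT.mul _ h1 _ h2
  inv := by
    intro x hx
    induction x using Germ.inductionOn with | _ f
    rw [mem_GS] at hx
    rw [← Germ.coe_inv, mem_GS]
    filter_upwards [hx] with t h1
    exact hT.inv _ h1

theorem VE_GS {U : Set L} {c : L} (hE : VE U c) : VE (GS U) (cst c) where
  zero := by
    rw [← cst_zero, cst_mem_GS]
    exact hE.zero
  c0 := cst_ne hE.c0
  add := by
    intro x hx y hy
    induction x using Germ.inductionOn with | _ f
    induction y using Germ.inductionOn with | _ g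
    rw [mem_GS] at hx hy
    refine ⟨↑(fun t => (f t + g t) / c), ?_, ?_⟩
    · rw [mem_GS]
      filter_upwards [hx, hy] with t h1 h2
      obtain ⟨z, hz, e⟩ := hE.add _ h1 _ h2
      rw [e, mul_div_cancel_left₀ _ hE.c0]
      exact hz
    · unfold cst
      rw [← Germ.coe_add, ← Germ.coe_mul, Germ.coe_eq]
      exact Eventually.of_forall fun t => (mul_div_cancel₀ _ hE.c0).symm
  mul := by
    intro x hx y hy
    induction x using Germ.inductionOn with | _ f
    induction y using Germ.inductionOn with | _ g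
    rw [mem_GS] at hx hy
    refine ⟨↑(fun t => (f t * g t) / c), ?_, ?_⟩
    · rw [mem_GS]
      filter_upwards [hx, hy] with t h1 h2
      obtain ⟨z, hz, e⟩ := hE.mul _ h1 _ h2
      rw [e, mul_div_cancel_left₀ _ hE.c0]
      exact hz
    · unfold cst
      rw [← Germ.coe_mul, ← Germ.coe_mul, Germ.coe_eq]
      exact Eventually.of_forall fun t => (mul_div_cancel₀ _ hE.c0).symm
  inv := by
    intro x hx
    induction x using Germ.inductionOn with | _ f
    rw [mem_GS, ← Ultrafilter.eventually_not] at hx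
    refine ⟨↑(fun t => (f t)⁻¹ / c), ?_, ?_⟩
    · rw [mem_GS]
      filter_upwards [hx] with t h1
      obtain ⟨z, hz, e⟩ := hE.inv _ h1
      rw [e, mul_div_cancel_left₀ _ hE.c0]
      exact hz
    · unfold cst
      rw [← Germ.coe_inv, ← Germ.coe_mul, Germ.coe_eq]
      exact Eventually.of_forall fun t => (mul_div_cancel₀ _ hE.c0).symm
  ne := by
    obtain ⟨e, he⟩ := hE.ne
    exact ⟨cst e, fun h => he (cst_mem_GS.1 h)⟩

theorem LL_GS {U : Set L} {a b : L} (h : LL U a b) : LL (GS U) (cst a) (cst b) := by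
  classical
  intro z hz
  induction z using Germ.inductionOn with | _ f
  rw [mem_GS] at hz
  refine ⟨↑(fun t => if ht : f t ∈ U then (h (f t) ht).choose else 0), ?_, ?_⟩
  · rw [mem_GS]
    filter_upwards [hz] with t h1
    rw [dif_pos h1]
    exact (h (f t) h1).choose_spec.1
  · unfold cst
    rw [← Germ.coe_mul, ← Germ.coe_mul, Germ.coe_eq]
    filter_upwards [hz] with t h1
    simp only [Pi.mul_apply]
    rw [dif_pos h1]
    exact (h (f t) h1).choose_spec.2

/-- Representatives of the classes of powers. -/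
theorem exists_reps {ℓ : ℕ} (hfin : ((powMonoidHom ℓ : Lˣ →* Lˣ).range).FiniteIndex) :
    ∃ R₀ : Finset L, ∀ x : L, x ≠ 0 → ∃ r ∈ R₀, r ≠ 0 ∧ ∃ y, y ≠ 0 ∧ x / r = y ^ ℓ := by
  classical
  have hfq : Finite (Lˣ ⧸ (powMonoidHom ℓ : Lˣ →* Lˣ).range) :=
    Subgroup.finite_quotient_of_finiteIndex
  have _ := Fintype.ofFinite (Lˣ ⧸ (powMonoidHom ℓ : Lˣ →* Lˣ).range)
  let rep : (Lˣ ⧸ (powMonoidHom ℓ : Lˣ →* Lˣ).range) → L := fun q => ((Quotient.out q : Lˣ) : L)
  refine ⟨Finset.univ.image rep, fun x hx => ?_⟩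
  set q : Lˣ ⧸ (powMonoidHom ℓ : Lˣ →* Lˣ).range := QuotientGroup.mk (Units.mk0 x hx) with hq
  refine ⟨rep q, Finset.mem_image_of_mem _ (Finset.mem_univ q),
    (Quotient.out q : Lˣ).ne_zero, ?_⟩
  have h1 : (Quotient.out q : Lˣ)⁻¹ * Units.mk0 x hx ∈ (powMonoidHom ℓ : Lˣ →* Lˣ).range := by
    rw [← QuotientGroup.eq]
    exact (QuotientGroup.out_eq' q).trans hq
  obtain ⟨z, hz⟩ := h1
  refine ⟨z, z.ne_zero, ?_⟩
  have h2 := congrArg (Units.val) hz
  rw [powMonoidHom_apply, Units.val_pow_eq_pow_val, Units.val_mul, Units.val_mk0] at h2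
  rw [h2, Units.val_inv_eq_inv_val, div_eq_inv_mul]

/-- Representatives of the classes of a group containing the powers, in the ultrapower. -/
theorem exists_reps_GS {ℓ : ℕ} {H : Set L} (hH : PowGrp ℓ H)
    (hfin : ((powMonoidHom ℓ : Lˣ →* Lˣ).range).FiniteIndex) :
    ∃ R : Finset (Germ (UF L : Filter (Finset L)) L),
      ∀ x : Germ (UF L : Filter (Finset L)) L, x ≠ 0 → ∃ r ∈ R, r ≠ 0 ∧ x / r ∈ GS H := by
  classical
  obtain ⟨R₀, hR₀⟩ := exists_reps hfin
  refine ⟨R₀.image cst, fun x hx => ?_⟩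
  induction x using Germ.inductionOn with | _ f
  rw [ne_zero_iff] at hx
  have h2 : ∀ᶠ t in (UF L : Filter (Finset L)), ∃ r ∈ (R₀ : Set L), r ≠ 0 ∧ f t / r ∈ H := by
    filter_upwards [hx] with t ht
    obtain ⟨r, hr, hr0, y, _, e⟩ := hR₀ _ ht
    exact ⟨r, hr, hr0, by rw [e]; exact hH.pow y⟩
  rw [Ultrafilter.eventually_exists_mem_iff (Finset.finite_toSet R₀)] at h2
  obtain ⟨r, hr, h3⟩ := h2
  have hr0 : r ≠ 0 := by
    obtain ⟨t, ht⟩ := h3.exists
    exact ht.1
  refine ⟨cst r, Finset.mem_image_of_mem _ (Finset.mem_coe.1 hr), cst_ne hr0, ?_⟩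
  unfold cst
  rw [← Germ.coe_div, mem_GS]
  filter_upwards [h3] with t ht
  exact ht.2

end

section

theorem def_of_formula {M : Type*} [Field M] [CompatibleRing M] {p : ℕ}
    (ψ : Language.ring.Formula (Fin 1 ⊕ Fin p)) (c : Fin p → M) {S : Set M}
    (h : ∀ x, x ∈ S ↔ ψ.Realize (Sum.elim (fun _ => x) c)) :
    (univ : Set M).Definable₁ Language.ring S := by
  unfold Set.Definable₁
  rw [Set.definable_iff_exists_formula_sum]
  refine ⟨ψ.relabel (Sum.elim (fun i => Sum.inr i)
    (fun i => Sum.inl (⟨c i, mem_univ _⟩ : (univ : Set M)))), ?_⟩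
  ext x
  rw [mem_ofPred_eq, mem_ofPred_eq, Formula.realize_relabel, h]
  have h6 : (Sum.elim (fun _ : Fin 1 => x 0) c) =
      (Sum.elim (fun (a : (univ : Set M)) => (a : M)) x) ∘
        (Sum.elim (fun i => Sum.inr i)
          (fun i => Sum.inl (⟨c i, mem_univ _⟩ : (univ : Set M)))) := by
    funext y
    rcases y with y | y
    · have : y = 0 := Subsingleton.elim _ _
      subst this
      rfl
    · rfl
  rw [h6]

variable {L : Type u} [Field L] [CompatibleRing L]

theorem def_GS {S : Set L} (hS : (univ : Set L).Definable₁ Language.ring S) :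
    @Set.Definable₁ (Germ (UF L : Filter (Finset L)) L) univ Language.ring
      (germCompat (UF L) L).toStructure (GS S) := by
  obtain ⟨p, ψ, c, hc⟩ := exists_formula_of_definable hS
  refine @def_of_formula _ _ (germCompat (UF L) L) p ψ (fun i => cst (c i)) _ fun x => ?_
  induction x using Germ.inductionOn with | _ g
  rw [mem_GS]
  have h2 := germ_realize (U := UF L) (E := L) ψ (Sum.elim (fun _ : Fin 1 => g) (fun i _ => c i))
  have h3 : (fun x => (↑((Sum.elim (fun _ : Fin 1 => g) (fun i _ => c i)) x) :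
      Germ (UF L : Filter (Finset L)) L)) =
      Sum.elim (fun _ : Fin 1 => (↑g : Germ (UF L : Filter (Finset L)) L))
        (fun i => cst (c i)) := by
    funext x
    rcases x with x | x <;> rfl
  rw [h3] at h2
  refine Iff.trans ?_ h2.symm
  refine eventually_congr (Eventually.of_forall fun t => ?_)
  rw [hc]
  have h4 : (fun x => (Sum.elim (fun _ : Fin 1 => g) (fun i _ => c i)) x t) =
      Sum.elim (fun _ : Fin 1 => g t) c := by
    funext x
    rcases x with x | x <;> rfl
  rw [h4]

end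

end Pool.Agent.NIPFields.LC
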