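import Mathlib
import Pool.Agent.NIPFields.LC.GermSet

set_option autoImplicit false

/-!
# A definable V-topology from finitely many power classes
-/

namespace Pool.Agent.NIPFields.LC

open FirstOrder FirstOrder.Language FirstOrder.Ring Set Filter
open Pool.Agent.NIPFields.FI

universe u

section

variable {k : Type*} [Field k]

/-- The neighbourhood given by an element outside of the closure of the powers. -/
theorem nbhd_bounds {W : ValuationSubring k} (hW : W ≠ ⊤) {ℓ : ℕ} {t : k} (ht0 : t ≠ 0)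
    (ht : ∀ x, W.valuation x ≤ W.valuation t → 1 + x ∈ Cl W ℓ) {b : k} (hb0 : b ≠ 0)
    (hb : b ∉ Cl W ℓ) :
    (∃ s : k, s ≠ 0 ∧ ∀ x, 1 + x ∈ Cl W ℓ → 1 + b * x ∈ Cl W ℓ →
      W.valuation x ≤ W.valuation s) ∧
    (∃ t' : k, t' ≠ 0 ∧ ∀ x, W.valuation x ≤ W.valuation t' →
      1 + x ∈ Cl W ℓ ∧ 1 + b * x ∈ Cl W ℓ) := by
  constructor
  · obtain ⟨s', hs'0, hs't, hs'b⟩ := exists_min₂ W ht0 (mul_ne_zero hb0 ht0)
    refine ⟨s'⁻¹, inv_ne_zero hs'0, fun z hz1 hz2 => ?_⟩
    by_contra hlt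
    rw [not_le] at hlt
    have hz0 : z ≠ 0 := by
      rintro rfl
      rw [map_zero] at hlt
      exact absurd hlt (by simp)
    have hvs : 0 < W.valuation s' := zero_lt_iff.2 ((map_ne_zero _).2 hs'0)
    have hvz : 0 < W.valuation z := zero_lt_iff.2 ((map_ne_zero _).2 hz0)
    have hzs : W.valuation z⁻¹ ≤ W.valuation s' := by
      rw [map_inv₀] at hlt ⊢
      exact (inv_lt_of_inv_lt₀ hvs hlt).le
    have h1 : z ∈ Cl W ℓ := by
      have h2 := ht z⁻¹ (hzs.trans hs't)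
      have h3 : z = (1 + z) * (1 + z⁻¹)⁻¹ := by
        have h4 := h2.1
        have h5 : (1 + z⁻¹) * z = 1 + z := by field_simp; ring
        rw [eq_mul_inv_iff_mul_eq₀ h4, mul_comm]
        exact h5
      rw [h3]
      exact Cl_mul hW hz1 (Cl_inv hW h2)
    have h2 : b * z ∈ Cl W ℓ := by
      have h2 := ht (b * z)⁻¹ (by
        rw [mul_inv, map_mul]
        calc W.valuation b⁻¹ * W.valuation z⁻¹ ≤ W.valuation b⁻¹ * W.valuation (b * t) := by
              gcongr
              exact hzs.trans hs'b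
          _ = W.valuation t := by rw [← map_mul, inv_mul_cancel_left₀ hb0])
      have h3 : b * z = (1 + b * z) * (1 + (b * z)⁻¹)⁻¹ := by
        have h4 := h2.1
        have h5 : (1 + (b * z)⁻¹) * (b * z) = 1 + b * z := by field_simp; ring
        rw [eq_mul_inv_iff_mul_eq₀ h4, mul_comm]
        exact h5
      rw [h3]
      exact Cl_mul hW hz2 (Cl_inv hW h2)
    apply hb
    have h3 : b = b * z * z⁻¹ := by field_simp
    rw [h3]
    exact Cl_mul hW h2 (Cl_inv hW h1)
  · obtain ⟨t', ht'0, ht't, ht'b⟩ := exists_min₂ W ht0 (div_ne_zero ht0 hb0)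
    refine ⟨t', ht'0, fun x hx => ⟨ht x (hx.trans ht't), ht (b * x) ?_⟩⟩
    rw [map_mul]
    calc W.valuation b * W.valuation x ≤ W.valuation b * W.valuation (t / b) := by
          gcongr
          exact hx.trans ht'b
      _ = W.valuation t := by rw [← map_mul, mul_div_cancel₀ _ hb0]

/-- the bounds needed for `VE` -/
theorem exists_gamma {W : ValuationSubring k} (hW : W ≠ ⊤) {U : Set k} {s t : k} (hs0 : s ≠ 0)
    (ht0 : t ≠ 0) (hs : ∀ x ∈ U, W.valuation x ≤ W.valuation s)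
    (ht : ∀ x, W.valuation x ≤ W.valuation t → x ∈ U) :
    ∃ γ : k, γ ≠ 0 ∧ (∀ x ∈ U, ∀ y ∈ U, (x + y) / γ ∈ U) ∧ (∀ x ∈ U, ∀ y ∈ U, (x * y) / γ ∈ U) ∧
      (∀ x, x ∉ U → x⁻¹ / γ ∈ U) ∧ ∃ e, e ∉ U := by
  classical
  obtain ⟨m, hm0, hm⟩ := exists_min W {t / s, t / s ^ 2, t ^ 2} (by
    intro a ha
    simp only [Finset.mem_insert, Finset.mem_singleton] at ha
    rcases ha with rfl | rfl | rfl
    · exact div_ne_zero ht0 hs0
    · exact div_ne_zero ht0 (pow_ne_zero _ hs0)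
    · exact pow_ne_zero _ ht0)
  have h1 := hm (t / s) (by simp)
  have h2 := hm (t / s ^ 2) (by simp)
  have h3 := hm (t ^ 2) (by simp)
  refine ⟨m⁻¹, inv_ne_zero hm0, ?_, ?_, ?_, ?_⟩
  · intro x hx y hy
    apply ht
    rw [div_inv_eq_mul, map_mul]
    calc W.valuation (x + y) * W.valuation m ≤ W.valuation s * W.valuation (t / s) := by
          gcongr
          exact (W.valuation.map_add _ _).trans (max_le (hs x hx) (hs y hy))
      _ = W.valuation t := by rw [← map_mul, mul_div_cancel₀ _ hs0]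
  · intro x hx y hy
    apply ht
    rw [div_inv_eq_mul, map_mul, map_mul]
    calc W.valuation x * W.valuation y * W.valuation m
        ≤ W.valuation s * W.valuation s * W.valuation (t / s ^ 2) := by
          gcongr
          · exact hs x hx
          · exact hs y hy
      _ = W.valuation t := by
          rw [← map_mul, ← map_mul, ← pow_two, mul_div_cancel₀ _ (pow_ne_zero 2 hs0)]
  · intro x hx
    apply ht
    have hxt : W.valuation t < W.valuation x := by
      by_contra hcon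
      exact hx (ht x (not_lt.1 hcon))
    have hvt : 0 < W.valuation t := zero_lt_iff.2 ((map_ne_zero _).2 ht0)
    have hxi : W.valuation x⁻¹ ≤ W.valuation t⁻¹ := by
      rw [map_inv₀, map_inv₀]
      exact (inv_le_inv₀ (hvt.trans hxt) hvt).2 hxt.le
    rw [div_inv_eq_mul, map_mul]
    calc W.valuation x⁻¹ * W.valuation m ≤ W.valuation t⁻¹ * W.valuation (t ^ 2) := by
          gcongr
      _ = W.valuation t := by
          rw [← map_mul, pow_two, inv_mul_cancel_left₀ ht0]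
  · obtain ⟨e, he⟩ : ∃ e, e ∉ W := by
      by_contra hcon
      push Not at hcon
      exact hW (eq_top_iff.2 fun x _ => hcon x)
    have hve : 1 < W.valuation e := by
      rw [← not_le, W.valuation_le_one_iff]; exact he
    refine ⟨e * s, fun h => ?_⟩
    have h4 := hs _ h
    rw [map_mul] at h4
    have hvs : 0 < W.valuation s := zero_lt_iff.2 ((map_ne_zero _).2 hs0)
    have h5 : W.valuation s < W.valuation e * W.valuation s := by
      calc W.valuation s = 1 * W.valuation s := (one_mul _).symm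
        _ < W.valuation e * W.valuation s := by gcongr
    exact absurd h4 (not_le.2 h5)

end

section

variable {L : Type u} [Field L]

/-- The classes of the elements of a finite set. -/
def CL (ℓ : ℕ) (R : Finset L) : Set L := {x | ∃ r ∈ R, ∃ y, y ≠ 0 ∧ x = r * y ^ ℓ}

theorem def_CL [CompatibleRing L] (ℓ : ℕ) (R : Finset L) :
    (univ : Set L).Definable₁ Language.ring (CL ℓ R) := by
  unfold Definable₁
  have h2 : {x : Fin 1 → L | x 0 ∈ CL ℓ R} = ⋃ r ∈ R,
      {x : Fin 1 → L | x 0 ∈ {x | ∃ y, y ≠ 0 ∧ x = r * y ^ ℓ}} := by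
    ext x
    simp only [mem_iUnion]
    constructor
    · rintro ⟨r, hr, h⟩
      exact ⟨r, hr, h⟩
    · rintro ⟨r, hr, h⟩
      exact ⟨r, hr, h⟩
  rw [h2]
  exact definable_biUnion_finset (fun r => def_coset r ℓ) _

theorem mem_GS_CL {ℓ : ℕ} {R : Finset L} {x : Germ (UF L : Filter (Finset L)) L} :
    x ∈ GS (CL ℓ R) ↔ ∃ r ∈ R, ∃ y : Germ (UF L : Filter (Finset L)) L,
      y ≠ 0 ∧ x = cst r * y ^ ℓ := by
  classical
  induction x using Germ.inductionOn with | _ f
  rw [mem_GS]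
  constructor
  · intro h
    have h1 : ∀ᶠ t in (UF L : Filter (Finset L)), ∃ r ∈ (R : Set L),
        ∃ y, y ≠ 0 ∧ f t = r * y ^ ℓ := h
    rw [Ultrafilter.eventually_exists_mem_iff (Finset.finite_toSet R)] at h1
    obtain ⟨r, hr, h3⟩ := h1
    refine ⟨r, Finset.mem_coe.1 hr,
      ↑(fun t => if ht : ∃ y, y ≠ 0 ∧ f t = r * y ^ ℓ then ht.choose else 0), ?_, ?_⟩
    · rw [ne_zero_iff]
      filter_upwards [h3] with t ht
      rw [dif_pos ht]
      exact ht.choose_spec.1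
    · unfold cst
      rw [← Germ.coe_pow, ← Germ.coe_mul, Germ.coe_eq]
      filter_upwards [h3] with t ht
      simp only [Pi.mul_apply, Pi.pow_apply]
      rw [dif_pos ht]
      exact ht.choose_spec.2
  · rintro ⟨r, hr, y, hy, hxy⟩
    induction y using Germ.inductionOn with | _ g
    rw [ne_zero_iff] at hy
    unfold cst at hxy
    rw [← Germ.coe_pow, ← Germ.coe_mul, Germ.coe_eq] at hxy
    filter_upwards [hy, hxy] with t h1 h2
    exact ⟨r, hr, g t, h1, h2⟩

end

theorem exists_VE_of_finiteIndex {L : Type u} [Field L] [CompatibleRing L] (hL : NIP L)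
    [Infinite L] {ℓ : ℕ} (hℓ : ℓ ≠ 0) (hfin : ((powMonoidHom ℓ : Lˣ →* Lˣ).range).FiniteIndex)
    (hnp : ∃ a : L, a ≠ 0 ∧ ∀ y, a ≠ y ^ ℓ) :
    ∃ (H U : Set L) (c t : L), (univ : Set L).Definable₁ Language.ring H ∧
      (univ : Set L).Definable₁ Language.ring U ∧ PowGrp ℓ H ∧ (0 : L) ∈ H ∧ (∃ a, a ∉ H) ∧
      VE U c ∧ t ≠ 0 ∧ ∀ z ∈ U, 1 + t * z ∈ H := by
  classical
  have hQ : Finite (Qt (powMonoidHom ℓ : Lˣ →* Lˣ).range) := finite_Q
  let c := col ((powMonoidHom ℓ : Lˣ →* Lˣ).range)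
  have hc : ∃ a : L, a ≠ 0 ∧ c a ≠ 1 := by
    obtain ⟨a, ha, h⟩ := hnp
    refine ⟨a, ha, fun h1 => ?_⟩
    obtain ⟨y, _, hy⟩ := col_pow.1 h1
    exact h y hy
  let E := Germ (UF L : Filter (Finset L)) L
  let _ : Algebra L E := germAlg L
  have D : Dat L E (TS c) := dat_of_VC (c := c) hc (NIP.vc hL ℓ)
  have hT : ∀ x : E, x ∈ TS c ↔ ∃ y, y ≠ 0 ∧ x = y ^ ℓ := by
    intro x
    have h1 : x ∈ TS c ↔ x ∈ GS (CL ℓ ({1} : Finset L)) := by
      induction x using Germ.inductionOn with | _ f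
      rw [mem_TS, mem_GS]
      refine eventually_congr (Eventually.of_forall fun t => ?_)
      rw [col_pow]
      constructor
      · rintro ⟨y, hy, e⟩
        exact ⟨1, Finset.mem_singleton_self _, y, hy, by rw [one_mul]; exact e⟩
      · rintro ⟨r, hr, y, hy, e⟩
        rw [Finset.mem_singleton.1 hr, one_mul] at e
        exact ⟨y, hy, e⟩
    rw [h1, mem_GS_CL]
    constructor
    · rintro ⟨r, hr, y, hy, e⟩
      rw [Finset.mem_singleton.1 hr, cst_one, one_mul] at e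
      exact ⟨y, hy, e⟩
    · rintro ⟨y, hy, e⟩
      exact ⟨1, Finset.mem_singleton_self _, y, hy, by rw [cst_one, one_mul]; exact e⟩
  obtain ⟨W, hW, hnd⟩ := D.exists_nondense hT
  obtain ⟨R₀, hR₀⟩ := exists_reps (L := L) hfin
  -- representatives in the ultrapower
  have hRE : ∀ x : E, x ≠ 0 → ∃ r ∈ R₀, r ≠ 0 ∧ ∃ y : E, y ≠ 0 ∧ x = cst r * y ^ ℓ := by
    intro x hx
    have h1 : x ∈ GS (CL ℓ (R₀.filter (fun r => r ≠ 0))) := by
      induction x using Germ.inductionOn with | _ f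
      rw [ne_zero_iff] at hx
      rw [mem_GS]
      filter_upwards [hx] with t ht
      obtain ⟨r, hr, hr0, y, hy, e⟩ := hR₀ _ ht
      refine ⟨r, Finset.mem_filter.2 ⟨hr, hr0⟩, y, hy, ?_⟩
      rw [← e, mul_div_cancel₀ _ hr0]
    obtain ⟨r, hr, y, hy, e⟩ := mem_GS_CL.1 h1
    rw [Finset.mem_filter] at hr
    exact ⟨r, hr.1, hr.2, y, hy, e⟩
  let R₁ : Finset L := R₀.filter (fun r => cst r ∈ Cl W ℓ)
  have hCl : ∀ x : E, x ∈ GS (CL ℓ R₁) ↔ x ∈ Cl W ℓ := by
    intro x
    rw [mem_GS_CL]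
    constructor
    · rintro ⟨r, hr, y, hy, rfl⟩
      exact Cl_mul hW (Finset.mem_filter.1 hr).2 (pow_mem_Cl hy)
    · intro hx
      obtain ⟨r, hr, hr0, y, hy, e⟩ := hRE x hx.1
      refine ⟨r, Finset.mem_filter.2 ⟨hr, ?_⟩, y, hy, e⟩
      have h2 : cst r = x * y⁻¹ ^ ℓ := by
        rw [e, mul_assoc, ← mul_pow, mul_inv_cancel₀ hy, one_pow, mul_one]
      rw [h2]
      exact Cl_mul hW hx (pow_mem_Cl (inv_ne_zero hy))
  have hClL : ∀ x : L, x ∈ CL ℓ R₁ ↔ cst x ∈ Cl W ℓ := fun x => by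
    rw [← hCl, cst_mem_GS]
  -- an element outside of the closure
  obtain ⟨b, hb0, hb⟩ : ∃ b : L, b ≠ 0 ∧ cst b ∉ Cl W ℓ := by
    obtain ⟨u, hu, a, ha, h⟩ := hnd
    obtain ⟨r, hr, hr0, y, hy, e⟩ := hRE u hu
    refine ⟨r, hr0, fun hC => ?_⟩
    have h1 : u ∈ Cl W ℓ := by
      rw [e]
      exact Cl_mul hW hC (pow_mem_Cl hy)
    obtain ⟨y, hy⟩ := h1.2 a ha
    exact h y hy
  obtain ⟨R, hR⟩ : ∃ R : Finset E, ∀ x : E, x ≠ 0 → ∃ r ∈ R, ∃ y, y ≠ 0 ∧ x = r * y ^ ℓ := by
    refine ⟨R₀.image cst, fun x hx => ?_⟩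
    obtain ⟨r, hr, _, y, hy, e⟩ := hRE x hx
    exact ⟨cst r, Finset.mem_image_of_mem _ hr, y, hy, e⟩
  obtain ⟨t, ht0, ht⟩ := Cl_open hW hR
  obtain ⟨⟨s, hs0, hs⟩, ⟨t', ht'0, ht'⟩⟩ := nbhd_bounds hW ht0 ht (cst_ne hb0) hb
  let U : Set L := {z | 1 + z ∈ CL ℓ R₁ ∧ 1 + b * z ∈ CL ℓ R₁}
  have hU : ∀ x : E, x ∈ GS U ↔ (1 + x ∈ Cl W ℓ ∧ 1 + cst b * x ∈ Cl W ℓ) := by
    intro x
    rw [← hCl, ← hCl]
    induction x using Germ.inductionOn with | _ f
    exact eventually_and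
  obtain ⟨γ, hγ0, hγ1, hγ2, hγ3, hγ4⟩ := exists_gamma hW (U := GS U) hs0 ht'0
    (fun x hx => hs x ((hU x).1 hx).1 ((hU x).1 hx).2) (fun x hx => (hU x).2 (ht' x hx))
  -- the element `τ`
  obtain ⟨τ, hτ0, hτ⟩ : ∃ τ : E, τ ≠ 0 ∧ ∀ x ∈ GS U, 1 + τ * x ∈ Cl W ℓ := by
    refine ⟨t / s, div_ne_zero ht0 hs0, fun x hx => ht _ ?_⟩
    rw [map_mul]
    calc W.valuation (t / s) * W.valuation x ≤ W.valuation (t / s) * W.valuation s := by
          gcongr
          exact hs x ((hU x).1 hx).1 ((hU x).1 hx).2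
      _ = W.valuation t := by rw [← map_mul, div_mul_cancel₀ _ hs0]
  have hUne : ∃ e, e ∉ U := by
    obtain ⟨e, he⟩ := hγ4
    induction e using Germ.inductionOn with | _ f
    rw [mem_GS, ← Ultrafilter.eventually_not] at he
    obtain ⟨t, ht⟩ := he.exists
    exact ⟨_, ht⟩
  have h1Cl : (1 : E) ∈ Cl W ℓ := by
    have := pow_mem_Cl (W := W) (ℓ := ℓ) (one_ne_zero : (1 : E) ≠ 0)
    rwa [one_pow] at this
  have h1C : (1 : L) ∈ CL ℓ R₁ := (hClL 1).2 h1Cl
  have hU0 : (0 : L) ∈ U := by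
    refine ⟨?_, ?_⟩
    · rw [add_zero]; exact h1C
    · rw [mul_zero, add_zero]; exact h1C
  -- transfer
  obtain ⟨g, hg⟩ : ∃ g : Finset L → L, (↑g : E) = γ := Germ.inductionOn γ (fun g => ⟨g, rfl⟩)
  obtain ⟨h, hh⟩ : ∃ h : Finset L → L, (↑h : E) = τ := Germ.inductionOn τ (fun g => ⟨g, rfl⟩)
  subst hg hh
  rw [ne_zero_iff] at hγ0 hτ0
  have e1 : ∀ᶠ t in (UF L : Filter (Finset L)), ∀ x y, x ∈ U → y ∈ U → (x + y) / g t ∈ U := by
    refine eventually_forall_of fun f => eventually_forall_of fun f' => ?_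
    by_cases e1 : ∀ᶠ t in (UF L : Filter (Finset L)), f t ∈ U
    · by_cases e2 : ∀ᶠ t in (UF L : Filter (Finset L)), f' t ∈ U
      · have e3 := hγ1 (↑f) e1 (↑f') e2
        rw [← Germ.coe_add, ← Germ.coe_div, mem_GS] at e3
        filter_upwards [e3] with t ht _ _
        exact ht
      · rw [← Ultrafilter.eventually_not] at e2
        filter_upwards [e2] with t ht _ h
        exact absurd h ht
    · rw [← Ultrafilter.eventually_not] at e1
      filter_upwards [e1] with t ht h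
      exact absurd h ht
  have e2 : ∀ᶠ t in (UF L : Filter (Finset L)), ∀ x y, x ∈ U → y ∈ U → (x * y) / g t ∈ U := by
    refine eventually_forall_of fun f => eventually_forall_of fun f' => ?_
    by_cases e1 : ∀ᶠ t in (UF L : Filter (Finset L)), f t ∈ U
    · by_cases e2 : ∀ᶠ t in (UF L : Filter (Finset L)), f' t ∈ U
      · have e3 := hγ2 (↑f) e1 (↑f') e2
        rw [← Germ.coe_mul, ← Germ.coe_div, mem_GS] at e3
        filter_upwards [e3] with t ht _ _
        exact ht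
      · rw [← Ultrafilter.eventually_not] at e2
        filter_upwards [e2] with t ht _ h
        exact absurd h ht
    · rw [← Ultrafilter.eventually_not] at e1
      filter_upwards [e1] with t ht h
      exact absurd h ht
  have e3 : ∀ᶠ t in (UF L : Filter (Finset L)), ∀ x, x ∉ U → x⁻¹ / g t ∈ U := by
    refine eventually_forall_of fun f => ?_
    by_cases e1 : ∀ᶠ t in (UF L : Filter (Finset L)), f t ∈ U
    · filter_upwards [e1] with t ht h
      exact absurd ht h
    · have e3 := hγ3 (↑f) e1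
      rw [← Germ.coe_inv, ← Germ.coe_div, mem_GS] at e3
      filter_upwards [e3] with t ht _
      exact ht
  have e4 : ∀ᶠ t in (UF L : Filter (Finset L)), ∀ x, x ∈ U → 1 + h t * x ∈ CL ℓ R₁ := by
    refine eventually_forall_of fun f => ?_
    by_cases e1 : ∀ᶠ t in (UF L : Filter (Finset L)), f t ∈ U
    · have e3 := (hCl _).2 (hτ (↑f) e1)
      rw [← Germ.coe_mul, ← Germ.coe_one, ← Germ.coe_add, mem_GS] at e3
      filter_upwards [e3] with t ht _
      exact ht
    · rw [← Ultrafilter.eventually_not] at e1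
      filter_upwards [e1] with t ht h
      exact absurd h ht
  obtain ⟨t, a1, a2, a3, a4, a5, a6⟩ := (hγ0.and (hτ0.and (e1.and (e2.and (e3.and e4))))).exists
  have hCdef := def_CL ℓ R₁
  refine ⟨{x | x = 0 ∨ x ∈ CL ℓ R₁}, U, g t, h t, ?_, ?_, ?_, Or.inl rfl, ?_, ?_, a2,
    fun z hz => Or.inr (a6 z hz)⟩
  · have e0 : (univ : Set L).Definable Language.ring {v : Fin 1 → L | v 0 = 0} :=
      (dfun_var 0).ofPred_eq dfun_zero
    exact e0.union hCdef
  · have e1 : (univ : Set L).Definable Language.ring {v : Fin 1 → L | 1 + v 0 ∈ CL ℓ R₁} :=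
      def_mem hCdef (dfun_add dfun_one (dfun_var 0))
    have e2 : (univ : Set L).Definable Language.ring {v : Fin 1 → L | 1 + b * v 0 ∈ CL ℓ R₁} :=
      def_mem hCdef (dfun_add dfun_one (dfun_mul (dfun_const (mem_univ b)) (dfun_var 0)))
    exact e1.inter e2
  · refine ⟨fun y => ?_, fun x hx y hy => ?_, fun x hx => ?_⟩
    · by_cases hy : y = 0
      · exact Or.inl (by rw [hy, zero_pow hℓ])
      · exact Or.inr ((hClL _).2 (by rw [cst_pow]; exact pow_mem_Cl (cst_ne hy)))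
    · rcases hx with rfl | hx
      · exact Or.inl (zero_mul _)
      rcases hy with rfl | hy
      · exact Or.inl (mul_zero _)
      right
      rw [hClL] at hx hy ⊢
      rw [cst_mul]
      exact Cl_mul hW hx hy
    · rcases hx with rfl | hx
      · exact Or.inl inv_zero
      right
      rw [hClL] at hx ⊢
      rw [cst_inv]
      exact Cl_inv hW hx
  · refine ⟨b, ?_⟩
    rintro (h | h)
    · exact hb0 h
    · exact hb ((hClL b).1 h)
  · exact
      { zero := hU0
        c0 := a1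
        add := fun x hx y hy => ⟨_, a3 x y hx hy, (mul_div_cancel₀ _ a1).symm⟩
        mul := fun x hx y hy => ⟨_, a4 x y hx hy, (mul_div_cancel₀ _ a1).symm⟩
        inv := fun x hx => ⟨_, a5 x hx, (mul_div_cancel₀ _ a1).symm⟩
        ne := hUne }

end Pool.Agent.NIPFields.LC
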