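import Mathlib
import Pool.Agent.NIPFields.FI.Galois

set_option autoImplicit false

/-!
# Characteristic zero: fields all of whose finite extensions are closed under power maps
-/

namespace Pool.Agent.NIPFields.LC

open Module Polynomial

universe u

/-- All `q`-power maps are surjective on all finite extensions. -/
def Good0 (F : Type u) [Field F] : Prop :=
  ∀ (E : Type u) [Field E] [Algebra F E] [FiniteDimensional F E],
    ∀ q : ℕ, q.Prime → ∀ a : E, ∃ y, y ^ q = a

theorem Good0.of_finite {F : Type u} [Field F] (h : Good0 F) (M : Type u) [Field M]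
    [Algebra F M] [FiniteDimensional F M] : Good0 M := by
  intro E _ _ _
  let _ : Algebra F E := ((algebraMap M E).comp (algebraMap F M)).toAlgebra
  have : IsScalarTower F M E := IsScalarTower.of_algebraMap_eq fun _ => rfl
  have : FiniteDimensional F E := FiniteDimensional.trans F M E
  exact h E

/-- A cyclic piece of prime degree at the top of a Galois extension. -/
theorem exists_sub0 {F N : Type u} [Field F] [Field N] [Algebra F N]
    [FiniteDimensional F N] [IsGalois F N] (hF : Good0 F) {r : ℕ} (hr : r.Prime)
    (hrd : r ∣ finrank F N) :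
    ∃ M : IntermediateField F N, Good0 M ∧ finrank M N = r := by
  have _ : Fact r.Prime := ⟨hr⟩
  rw [← IsGalois.card_aut_eq_finrank] at hrd
  obtain ⟨σ, hσ⟩ := exists_prime_orderOf_dvd_card' r hrd
  refine ⟨IntermediateField.fixedField (Subgroup.zpowers σ), hF.of_finite _, ?_⟩
  rw [IntermediateField.finrank_fixedField_eq_card, Nat.card_zpowers, hσ]

theorem no_cyclic0 (q : ℕ) :
    ∀ (F N : Type u) [Field F] [CharZero F] [Field N] [Algebra F N] [FiniteDimensional F N]
      [IsGalois F N], q.Prime → Good0 F → finrank F N = q → False := by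
  induction q using Nat.strong_induction_on with
  | _ q ih =>
  intro F N _ _ _ _ _ _ hq hF hd
  have hne : NeZero ((q : ℕ) : F) := ⟨Nat.cast_ne_zero.2 hq.ne_zero⟩
  have hq0 : NeZero q := ⟨hq.ne_zero⟩
  by_cases hroot : ∃ ζ : F, IsPrimitiveRoot ζ q
  · obtain ⟨ζ, hζ⟩ := hroot
    exact FI.no_Kummer hq (hF F q hq) hζ hd
  · let C := CyclotomicField q F
    have hgal : IsGalois F C := IsCyclotomicExtension.isGalois {q} F C
    have hfd : FiniteDimensional F C := IsCyclotomicExtension.finiteDimensional {q} F C
    have hneC : NeZero ((q : ℕ) : C) := NeZero.nat_of_injective (algebraMap F C).injective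
    have hζ := IsCyclotomicExtension.zeta_spec q F C
    have hne1 : finrank F C ≠ 1 := by
      intro h1
      apply hroot
      have h2 : (⊥ : IntermediateField F C) = ⊤ :=
        (IntermediateField.bot_eq_top_iff_finrank_eq_one).2 h1
      have h3 : IsCyclotomicExtension.zeta q F C ∈ (⊥ : IntermediateField F C) := by
        rw [h2]; exact IntermediateField.mem_top
      obtain ⟨z, hz⟩ := IntermediateField.mem_bot.1 h3
      refine ⟨z, ?_⟩
      rw [← hz] at hζ
      exact IsPrimitiveRoot.of_map_of_injective hζ (algebraMap F C).injective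
    obtain ⟨r, hr, hrd⟩ := Nat.exists_prime_and_dvd hne1
    have hlt : r < q := by
      have h1 : finrank F C ≤ q - 1 := by
        have h3 : finrank F C = (minpoly F (IsCyclotomicExtension.zeta q F C)).natDegree := by
          rw [(hζ.powerBasis F).finrank, IsPrimitiveRoot.powerBasis_dim]
        rw [h3, ← Nat.totient_prime hq, ← natDegree_cyclotomic q F]
        refine natDegree_le_of_dvd (minpoly.dvd _ _ ?_) (cyclotomic_ne_zero q F)
        rw [aeval_def, ← eval_map, map_cyclotomic]
        exact hζ.isRoot_cyclotomic hq.pos
      have h2 := Nat.le_of_dvd finrank_pos hrd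
      have h3 := hq.one_lt
      omega
    obtain ⟨M, hM, hMd⟩ := exists_sub0 (N := C) hF hr hrd
    have _ : CharZero M := charZero_of_injective_algebraMap (algebraMap F M).injective
    exact ih r hlt M C hr hM hMd

/-- Such a field of characteristic zero is algebraically closed. -/
theorem Good0.isAlgClosed {K : Type u} [Field K] [CharZero K] (hK : Good0 K) :
    IsAlgClosed K := by
  refine IsAlgClosed.of_exists_root _ fun f _ hirr => ?_
  have hgal : IsGalois K f.SplittingField :=
    IsGalois.of_separable_splitting_field hirr.separable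
  by_cases h1 : finrank K f.SplittingField = 1
  · have h2 : (⊥ : IntermediateField K f.SplittingField) = ⊤ :=
      (IntermediateField.bot_eq_top_iff_finrank_eq_one).2 h1
    obtain ⟨x, hx⟩ := (SplittingField.splits f).exists_eval_eq_zero (by
      rw [degree_map]; exact (degree_pos_of_irreducible hirr).ne')
    have h3 : x ∈ (⊥ : IntermediateField K f.SplittingField) := by
      rw [h2]; exact IntermediateField.mem_top
    obtain ⟨z, hz⟩ := IntermediateField.mem_bot.1 h3
    refine ⟨z, ?_⟩
    apply (algebraMap K f.SplittingField).injective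
    rw [map_zero, ← hx, ← hz, eval_map, eval₂_at_apply]
  · exfalso
    obtain ⟨r, hr, hrd⟩ := Nat.exists_prime_and_dvd h1
    obtain ⟨M, hM, hMd⟩ := exists_sub0 (N := f.SplittingField) hK hr hrd
    have _ : CharZero M := charZero_of_injective_algebraMap (algebraMap K M).injective
    exact no_cyclic0 r M f.SplittingField hr hM hMd

theorem exists_not_power {K : Type u} [Field K] [CharZero K] :
    IsAlgClosed K ∨ Module.finrank K (AlgebraicClosure K) = 2 ∨
      ∃ (L : Type u) (_ : Field L) (_ : Algebra K L) (q : ℕ), FiniteDimensional K L ∧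
        (∃ i : L, i ^ 2 = -1) ∧ q.Prime ∧ ∃ a : L, ∀ y, a ≠ y ^ q := by
  by_contra hcon
  push Not at hcon
  obtain ⟨hnac, hn2, hL⟩ := hcon
  -- a square root of `-1`
  obtain ⟨i, hi⟩ := IsAlgClosed.exists_pow_nat_eq (-1 : AlgebraicClosure K) (n := 2) (by norm_num)
  have hint : IsIntegral K i := Algebra.IsIntegral.isIntegral i
  have hfd : FiniteDimensional K (IntermediateField.adjoin K {i}) :=
    IntermediateField.adjoin.finiteDimensional hint
  have hgood : Good0 (IntermediateField.adjoin K {i}) := by
    intro E _ _ _ q hq a
    let _ : Algebra K E := ((algebraMap (IntermediateField.adjoin K {i}) E).comp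
      (algebraMap K (IntermediateField.adjoin K {i}))).toAlgebra
    have : IsScalarTower K (IntermediateField.adjoin K {i}) E :=
      IsScalarTower.of_algebraMap_eq fun _ => rfl
    have : FiniteDimensional K E := FiniteDimensional.trans K (IntermediateField.adjoin K {i}) E
    obtain ⟨y, hy⟩ := hL E inferInstance inferInstance q this
      ⟨algebraMap (IntermediateField.adjoin K {i}) E
        ⟨i, IntermediateField.mem_adjoin_simple_self K i⟩, by
        rw [← map_pow]
        have h1 : (⟨i, IntermediateField.mem_adjoin_simple_self K i⟩ :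
          IntermediateField.adjoin K {i}) ^ 2 = -1 := Subtype.ext hi
        rw [h1, map_neg, map_one]⟩ hq a
    exact ⟨y, hy.symm⟩
  have hchar : CharZero (IntermediateField.adjoin K {i}) :=
    charZero_of_injective_algebraMap (algebraMap K (IntermediateField.adjoin K {i})).injective
  have hac : IsAlgClosed (IntermediateField.adjoin K {i}) := hgood.isAlgClosed
  have hsurj : Function.Surjective
      (algebraMap (IntermediateField.adjoin K {i}) (AlgebraicClosure K)) := by
    have : Algebra.IsIntegral (IntermediateField.adjoin K {i}) (AlgebraicClosure K) := by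
      have h1 : Algebra.IsAlgebraic K (AlgebraicClosure K) := inferInstance
      have h2 : Algebra.IsAlgebraic (IntermediateField.adjoin K {i}) (AlgebraicClosure K) :=
        Algebra.IsAlgebraic.tower_top (K := K) _
      exact Algebra.isAlgebraic_iff_isIntegral.1 h2
    exact (IsAlgClosed.algebraMap_bijective_of_isIntegral).2
  have htop : IntermediateField.adjoin K {i} = ⊤ := by
    rw [eq_top_iff]
    intro x _
    obtain ⟨y, rfl⟩ := hsurj x
    exact y.2
  have hfin : finrank K (AlgebraicClosure K) = (minpoly K i).natDegree := by
    rw [← IntermediateField.adjoin.finrank hint, htop, IntermediateField.finrank_top']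
  have hle : (minpoly K i).natDegree ≤ 2 := by
    have h1 : (minpoly K i) ∣ (X ^ 2 + 1 : K[X]) := by
      refine minpoly.dvd _ _ ?_
      simp [hi]
    have h2 : (X ^ 2 + 1 : K[X]).natDegree = 2 := by compute_degree!
    have h3 : (X ^ 2 + 1 : K[X]) ≠ 0 := by
      intro h
      rw [h] at h2
      simp at h2
    exact (natDegree_le_of_dvd h1 h3).trans h2.le
  have hpos : 0 < (minpoly K i).natDegree := minpoly.natDegree_pos hint
  have hone : finrank K (AlgebraicClosure K) = 1 := by omega
  apply hnac
  have hbt : (⊥ : IntermediateField K (AlgebraicClosure K)) = ⊤ :=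
    (IntermediateField.bot_eq_top_iff_finrank_eq_one).2 hone
  have hsurj2 : Function.Surjective (algebraMap K (AlgebraicClosure K)) := by
    intro x
    have h3 : x ∈ (⊥ : IntermediateField K (AlgebraicClosure K)) := by
      rw [hbt]; exact IntermediateField.mem_top
    exact IntermediateField.mem_bot.1 h3
  exact IsAlgClosed.of_ringEquiv (AlgebraicClosure K) K
    (RingEquiv.ofBijective (algebraMap K (AlgebraicClosure K))
      ⟨(algebraMap K (AlgebraicClosure K)).injective, hsurj2⟩).symm

end Pool.Agent.NIPFields.LC
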