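import Mathlib
import Pool.Agent.NIPFields.KDT

set_option autoImplicit false

/-!
# The archimedean lemma

If the integers are unbounded for a V-topology on a field which contains a square root of `-1`,
then every open subgroup of the multiplicative group is the whole group.
-/

namespace Pool.Agent.NIPFields

section

variable {F : Type*} [Field F] {E : Set F} {c : F}

/-- Finite sets are bounded. -/
theorem VE.exists_ub_finset (hE : VE E c) (S : Finset F) : ∃ w, w ≠ 0 ∧ ∀ x ∈ S, LL E x w := by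
  classical
  induction S using Finset.induction_on with
  | empty => exact ⟨1, one_ne_zero, fun x hx => absurd hx (Finset.notMem_empty x)⟩
  | insert a S _ ih =>
    obtain ⟨w, hw, h⟩ := ih
    by_cases ha : a = 0
    · refine ⟨w, hw, fun x hx => ?_⟩
      rcases Finset.mem_insert.1 hx with rfl | h1
      · rw [ha]; exact hE.zero_LL _
      · exact h x h1
    · obtain ⟨w', hw', h1, h2⟩ := hE.exists_ub hw ha
      refine ⟨w', hw', fun x hx => ?_⟩
      rcases Finset.mem_insert.1 hx with rfl | h3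
      · exact h2
      · exact (h x h3).trans h1

/-- A field with unbounded integers has characteristic zero. -/
theorem VE.charZero_of_unbounded (hE : VE E c)
    (hZ : ∀ s : F, s ≠ 0 → ∃ n : ℕ, ¬ LL E (n : F) s) : CharZero F := by
  classical
  obtain ⟨p, hp⟩ := CharP.exists F
  rcases Nat.eq_zero_or_pos p with rfl | hpos
  · exact CharP.charP_to_charZero F
  exfalso
  obtain ⟨w, hw, h⟩ := hE.exists_ub_finset ((Finset.range p).image (fun n : ℕ => (n : F)))
  obtain ⟨n, hn⟩ := hZ w hw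
  apply hn
  have h1 : (n : F) = ((n % p : ℕ) : F) := by
    conv_lhs => rw [← Nat.div_add_mod n p]
    rw [Nat.cast_add, Nat.cast_mul, CharP.cast_eq_zero F p, zero_mul, zero_add]
  rw [h1]
  exact h _ (Finset.mem_image.2 ⟨n % p, Finset.mem_range.2 (Nat.mod_lt _ hpos), rfl⟩)

/-- Rational numbers in `[0, 1]` are bounded. -/
theorem VE.rat_LL (hE : VE E c) [CharZero F]
    (hZ : ∀ s : F, s ≠ 0 → ∃ n : ℕ, ¬ LL E (n : F) s) (q : ℚ) (h0 : 0 ≤ q) (h1 : q ≤ 1) :
    LL E (q : F) (c ^ 4) := by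
  classical
  have hc := hE.c0
  by_contra hcon
  have hq0 : q ≠ 0 := by
    rintro rfl
    rw [Rat.cast_zero] at hcon
    exact hcon (hE.zero_LL _)
  have hq1 : q < 1 := by
    rcases h1.lt_or_eq with h | h
    · exact h
    · exfalso
      rw [h, Rat.cast_one] at hcon
      apply hcon
      have := hE.one_LL.pow 4
      rwa [one_pow] at this
  have hqF : (q : F) ≠ 0 := Rat.cast_ne_zero.2 hq0
  have hinv : LL E (q : F)⁻¹ c⁻¹ := by
    rcases hE.total ((q : F) / c) with h | h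
    · exfalso
      apply hcon
      have := h.mul_left c
      rwa [mul_div_cancel₀ _ hc, ← pow_succ'] at this
    · have := h.mul_left (c * ((c : F)⁻¹ * (q : F)⁻¹))
      have e1 : c * (c⁻¹ * (q : F)⁻¹) * 1 = (q : F)⁻¹ := by field_simp
      have e2 : c * (c⁻¹ * (q : F)⁻¹) * ((q : F) / c) = c⁻¹ := by field_simp
      rwa [e1, e2] at this
  set w : ℕ := q.num.toNat with hw
  set u : ℕ := q.den with hu
  have hnum : 0 < q.num := Rat.num_pos.2 (lt_of_le_of_ne h0 (Ne.symm hq0))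
  have hwnum : (w : ℤ) = q.num := Int.toNat_of_nonneg hnum.le
  have hw0 : 0 < w := by
    have : (0 : ℤ) < w := by rw [hwnum]; exact hnum
    exact_mod_cast this
  have hu0 : 0 < u := q.den_pos
  have hq : q = (w : ℚ) / u := by
    have h2 := Rat.num_div_den q
    rw [← h2]
    have h3 : ((q.num : ℤ) : ℚ) = ((w : ℕ) : ℚ) := by
      rw [← hwnum]; norm_cast
    rw [h3]
  have hwu : w < u := by
    rw [hq, div_lt_one (by exact_mod_cast hu0)] at hq1
    exact_mod_cast hq1
  have hwF : (w : F) ≠ 0 := Nat.cast_ne_zero.2 hw0.ne'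
  have huF : (u : F) ≠ 0 := Nat.cast_ne_zero.2 hu0.ne'
  have hqF' : (q : F)⁻¹ = (u : F) / w := by
    rw [hq]
    push_cast
    rw [inv_div]
  obtain ⟨s, hs, hsb⟩ := hE.exists_ub_finset ((Finset.range u).image (fun d : ℕ => (d : F) / w))
  obtain ⟨n, hn⟩ := hZ (c * s) (mul_ne_zero hc hs)
  apply hn
  clear hn
  induction n using Nat.strong_induction_on with
  | _ N ih =>
    rcases Nat.eq_zero_or_pos N with rfl | hN
    · rw [Nat.cast_zero]; exact hE.zero_LL _
    have hN' : w * N / u < N := by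
      rw [Nat.div_lt_iff_lt_mul hu0]
      nlinarith
    have h2 := ih _ hN'
    have h3 : (N : F) = (((w * N % u : ℕ) : F) / w) + (q : F)⁻¹ * ((w * N / u : ℕ) : F) := by
      rw [hqF']
      have h4 : ((w * N : ℕ) : F) = ((u * (w * N / u) + w * N % u : ℕ) : F) := by
        rw [Nat.div_add_mod]
      rw [Nat.cast_add, Nat.cast_mul, Nat.cast_mul u] at h4
      field_simp
      linear_combination h4
    rw [h3]
    refine hE.LL_add (hsb _ (Finset.mem_image.2 ⟨w * N % u, Finset.mem_range.2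
      (Nat.mod_lt _ hu0), rfl⟩)) ?_
    have h5 := hinv.mul h2
    rwa [← mul_assoc, inv_mul_cancel₀ hc, one_mul] at h5

/-- `1 / N` is small for large `N`. -/
theorem VE.exists_inv_LL (hE : VE E c)
    (hZ : ∀ s : F, s ≠ 0 → ∃ n : ℕ, ¬ LL E (n : F) s) {δ : F} (hδ : δ ≠ 0) :
    ∃ N : ℕ, (N : F) ≠ 0 ∧ LL E ((N : F)⁻¹) δ := by
  have hc := hE.c0
  obtain ⟨n, hn⟩ := hZ (δ⁻¹ * c ^ 3) (mul_ne_zero (inv_ne_zero hδ) (pow_ne_zero _ hc))
  have hn0 : (n : F) ≠ 0 := by
    intro h
    rw [h] at hn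
    exact hn (hE.zero_LL _)
  refine ⟨n, hn0, ?_⟩
  rcases hE.total (δ * n) with h | h
  · exfalso
    apply hn
    have := h.mul_left δ⁻¹
    rwa [inv_mul_cancel_left₀ hδ] at this
  · have := h.mul_left ((n : F)⁻¹)
    have e2 : (n : F)⁻¹ * (δ * n) = δ := by field_simp
    rwa [mul_one, e2] at this

/-- A segment from `1` to `x` on which the inverses are bounded. -/
theorem VE.mem_of_good (hE : VE E c) [CharZero F]
    (hZ : ∀ s : F, s ≠ 0 → ∃ n : ℕ, ¬ LL E (n : F) s) {ℓ : ℕ} {T : Set F} (hT : PowGrp ℓ T)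
    {b : F} (hb : b ≠ 0) (hbT : ∀ z ∈ E, 1 + b * z ∈ T) {x u : F} (hu : u ≠ 0)
    (hgood : ∀ t : ℚ, 0 ≤ t → t ≤ 1 → 1 - (t : F) + t * x ≠ 0 ∧
      LL E (1 - (t : F) + t * x)⁻¹ u) : x ∈ T := by
  have hc := hE.c0
  by_cases hx1 : x = 1
  · rw [hx1]; exact hT.one
  have hx1' : x - 1 ≠ 0 := sub_ne_zero.2 hx1
  have hδ : b / (c * (x - 1) * u) ≠ 0 := div_ne_zero hb (mul_ne_zero (mul_ne_zero hc hx1') hu)
  obtain ⟨N, hN, hNs⟩ := hE.exists_inv_LL hZ hδ
  have hNℕ : 0 < N := Nat.pos_of_ne_zero (by rintro rfl; exact hN Nat.cast_zero)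
  have hNQ : (0 : ℚ) < N := by exact_mod_cast hNℕ
  have key : ∀ j : ℕ, j ≤ N → 1 - (((j / N : ℚ)) : F) + (((j / N : ℚ)) : F) * x ∈ T := by
    intro j
    induction j with
    | zero =>
      intro _
      simp only [Nat.cast_zero, zero_div, Rat.cast_zero, sub_zero, zero_mul, add_zero]
      exact hT.one
    | succ j ih =>
      intro hj
      have h1 := ih (by omega)
      have hj1 : ((j : ℚ) / N) ≤ 1 := by
        rw [div_le_one hNQ]
        exact_mod_cast (by omega : j ≤ N)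
      obtain ⟨h2, h3⟩ := hgood (j / N) (by positivity) hj1
      set y := 1 - (((j / N : ℚ)) : F) + (((j / N : ℚ)) : F) * x with hy
      have h4 : 1 - ((((j + 1 : ℕ) / N : ℚ)) : F) + ((((j + 1 : ℕ) / N : ℚ)) : F) * x =
          y * (1 + (x - 1) * y⁻¹ * (N : F)⁻¹) := by
        have h5 : y * (1 + (x - 1) * y⁻¹ * (N : F)⁻¹) = y + (x - 1) * (N : F)⁻¹ := by
          field_simp
        rw [h5, hy]
        push_cast
        field_simp
        ring
      rw [h4]
      refine hT.mul _ h1 _ ?_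
      have h6 : LL E ((x - 1) * y⁻¹ * (N : F)⁻¹) (b / c) := by
        have h7 := (h3.mul_left (x - 1)).mul hNs
        have e : (x - 1) * u * (b / (c * (x - 1) * u)) = b / c := by field_simp
        rwa [e] at h7
      obtain ⟨z, hz, e⟩ := hE.mem_of_LL h6
      rw [e, div_mul_cancel₀ _ hc]
      exact hbT z hz
  have h1 := key N le_rfl
  rw [div_self hNQ.ne', Rat.cast_one, sub_self, zero_add, one_mul] at h1
  exact h1

/-- The archimedean lemma. -/
theorem VE.mem_of_unbounded (hE : VE E c) {i : F} (hi : i ^ 2 = -1)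
    (hZ : ∀ s : F, s ≠ 0 → ∃ n : ℕ, ¬ LL E (n : F) s)
    {ℓ : ℕ} {T : Set F} (hT : PowGrp ℓ T) {b : F} (hb : b ≠ 0) (hbT : ∀ z ∈ E, 1 + b * z ∈ T)
    (x : F) (hx : x ≠ 0) : x ∈ T := by
  classical
  have := hE.charZero_of_unbounded hZ
  have hc := hE.c0
  have hi0 : i ≠ 0 := by
    rintro rfl
    rw [zero_pow two_ne_zero] at hi
    exact one_ne_zero (neg_eq_zero.1 hi.symm)
  obtain ⟨W, hW, hWb⟩ := hE.exists_ub_finset {c, c ^ 4, i, -i, -1, 1 - x, x⁻¹, 2, 4, 16}
  have hWc : LL E c W := hWb _ (by simp)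
  have hWc4 : LL E (c ^ 4) W := hWb _ (by simp)
  have hWi : LL E i W := hWb _ (by simp)
  have hWni : LL E (-i) W := hWb _ (by simp)
  have hWn1 : LL E (-1) W := hWb _ (by simp)
  have hWx : LL E (1 - x) W := hWb _ (by simp)
  have hWx' : LL E x⁻¹ W := hWb _ (by simp)
  have hW2 : LL E 2 W := hWb _ (by simp)
  have hW4 : LL E 4 W := hWb _ (by simp)
  have hW16 : LL E 16 W := hWb _ (by simp)
  have hW1 : LL E 1 W := hE.one_LL.trans hWc
  have hrat : ∀ q : ℚ, 0 ≤ q → q ≤ 1 → LL E (q : F) W := fun q h0 h1 =>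
    (hE.rat_LL hZ q h0 h1).trans hWc4
  have hmono : ∀ {m n : ℕ} (y : F), m ≤ n → LL E (W ^ m * y) (W ^ n * y) := by
    intro m n y hmn
    obtain ⟨l, rfl⟩ := Nat.exists_eq_add_of_le hmn
    have h1 := (hW1.pow l).mul_left (W ^ m * y)
    rw [one_pow, mul_one] at h1
    have e : W ^ m * y * W ^ l = W ^ (m + l) * y := by rw [pow_add]; ring
    rwa [e] at h1
  have hadd : ∀ {y z v : F}, LL E y v → LL E z v → LL E (y + z) (W * v) := by
    intro y z v h1 h2
    exact (hE.LL_add h1 h2).trans (hWc.mul (LL.refl _))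
  -- `i` is good
  have hiT : i ∈ T := by
    refine hE.mem_of_good hZ hT hb hbT (u := W ^ 5) (pow_ne_zero _ hW) fun t ht0 ht1 => ?_
    have hpos : 0 < (1 - t) ^ 2 + t ^ 2 := by nlinarith [sq_nonneg (1 - t), sq_nonneg t]
    have hne : (((1 - t) ^ 2 + t ^ 2 : ℚ) : F) ≠ 0 := Rat.cast_ne_zero.2 hpos.ne'
    have hmul : (1 - (t : F) + t * i) * ((1 - (t : F)) + t * (-i)) =
        (((1 - t) ^ 2 + t ^ 2 : ℚ) : F) := by
      push_cast
      linear_combination -(t : F) ^ 2 * hi
    have h1 : 1 - (t : F) + t * i ≠ 0 := left_ne_zero_of_mul (hmul ▸ hne)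
    refine ⟨h1, ?_⟩
    set ρ : ℚ := 1 / (2 * ((1 - t) ^ 2 + t ^ 2)) with hρ
    have hρ0 : 0 ≤ ρ := by positivity
    have hρ1 : ρ ≤ 1 := by
      rw [hρ, div_le_one (by positivity)]
      nlinarith [sq_nonneg (1 - 2 * t)]
    have h2 : (1 - (t : F) + t * i)⁻¹ = 2 * ((ρ : F) * ((1 - (t : F)) + t * (-i))) := by
      rw [inv_eq_of_mul_eq_one_right]
      have h3 : (2 * ρ) * ((1 - t) ^ 2 + t ^ 2) = 1 := by
        rw [hρ]; field_simp
      have h4 : (2 * (ρ : F)) * (((1 - t) ^ 2 + t ^ 2 : ℚ) : F) = 1 := by exact_mod_cast h3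
      rw [← hmul] at h4
      linear_combination h4
    rw [h2]
    have h3 : LL E (1 - (t : F)) (W ^ 2) := by
      have := hrat (1 - t) (by linarith) (by linarith)
      rw [Rat.cast_sub, Rat.cast_one] at this
      refine this.trans ?_
      have := hmono (m := 1) (n := 2) 1 (by norm_num)
      rwa [pow_one, mul_one, mul_one] at this
    have h4 : LL E ((t : F) * -i) (W ^ 2) := by
      rw [sq]; exact (hrat t ht0 ht1).mul hWni
    have h5 := hW2.mul ((hrat ρ hρ0 hρ1).mul (hadd h3 h4))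
    have e : W * (W * (W * W ^ 2)) = W ^ 5 := by ring
    rwa [e] at h5
  -- a small element
  obtain ⟨κ, hκ0, hκ1, hκ⟩ : ∃ κ : F, κ ≠ 0 ∧ LL E κ 1 ∧ ¬ LL E 1 κ := by
    obtain ⟨e, he⟩ := hE.ne
    have he0 : e ≠ 0 := by rintro rfl; exact he hE.zero
    have h1 : ¬ LL E 1 ((c * e)⁻¹) := by
      intro h
      obtain ⟨z, hz, h2⟩ := hE.mem_of_LL h
      apply he
      have h3 : z = e := by
        field_simp at h2
        exact h2.symm
      rwa [h3] at hz
    refine ⟨(c * e)⁻¹ / c ^ 3, div_ne_zero (inv_ne_zero (mul_ne_zero hc he0))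
      (pow_ne_zero _ hc), ?_, ?_⟩
    · rcases hE.total (c * e * c ^ 3) with h | h
      · exfalso
        apply h1
        have := h.mul_left ((c * e)⁻¹ / c ^ 3)
        have e1 : (c * e)⁻¹ / c ^ 3 * (c * e * c ^ 3) = 1 := by field_simp
        have e2 : (c * e)⁻¹ / c ^ 3 * c ^ 3 = (c * e)⁻¹ := by field_simp
        rwa [e1, e2] at this
      · have := h.mul_left ((c * e)⁻¹ / c ^ 3)
        have e1 : (c * e)⁻¹ / c ^ 3 * (c * e * c ^ 3) = 1 := by field_simp
        rwa [e1, mul_one] at this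
    · intro h
      apply h1
      have h2 := hE.one_LL.pow 3
      rw [one_pow] at h2
      have h3 := h.mul h2
      have e2 : (c * e)⁻¹ / c ^ 3 * c ^ 3 = (c * e)⁻¹ := by field_simp
      rwa [one_mul, e2] at h3
  set ε : F := κ / W ^ 10 with hε
  have hε0 : ε ≠ 0 := div_ne_zero hκ0 (pow_ne_zero _ hW)
  have hεκ : ∀ m : ℕ, m ≤ 10 → LL E (W ^ m * ε) κ := by
    intro m hm
    have h1 := hmono (m := m) (n := 10) ε hm
    rwa [hε, mul_div_cancel₀ _ (pow_ne_zero _ hW)] at h1
  set η : F := ε ^ 2 * κ / W ^ 8 with hη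
  have hη0 : η ≠ 0 := div_ne_zero (mul_ne_zero (pow_ne_zero _ hε0) hκ0) (pow_ne_zero _ hW)
  have hWη : W ^ 8 * η = ε ^ 2 * κ := by rw [hη, mul_div_cancel₀ _ (pow_ne_zero _ hW)]
  have hε1 : LL E ε 1 := by
    have := hεκ 0 (by norm_num)
    rw [pow_zero, one_mul] at this
    exact this.trans hκ1
  have hηε : LL E η ε := by
    have h1 := hmono (m := 0) (n := 8) η (by norm_num)
    rw [pow_zero, one_mul, hWη] at h1
    have h2 : LL E (ε ^ 2 * κ) (ε * 1 * 1) := by
      rw [sq]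
      exact ((LL.refl ε).mul hε1).mul hκ1
    rw [mul_one, mul_one] at h2
    exact h1.trans h2
  -- bad elements
  have hbad : ∀ y : F, y ∉ T → ∃ t : ℚ, 0 ≤ t ∧ t ≤ 1 ∧ LL E (1 - (t : F) + t * y) η := by
    intro y hy
    by_contra hcon
    push Not at hcon
    apply hy
    refine hE.mem_of_good hZ hT hb hbT (u := η⁻¹ * c ^ 3)
      (mul_ne_zero (inv_ne_zero hη0) (pow_ne_zero _ hc)) fun t ht0 ht1 => ?_
    have h1 := hcon t ht0 ht1
    have h2 : 1 - (t : F) + t * y ≠ 0 := by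
      intro h
      rw [h] at h1
      exact h1 (hE.zero_LL _)
    refine ⟨h2, ?_⟩
    rcases hE.total (η * (1 - (t : F) + t * y)⁻¹) with h | h
    · have := h.mul_left η⁻¹
      rwa [inv_mul_cancel_left₀ hη0] at this
    · exfalso
      apply h1
      have := h.mul_left (1 - (t : F) + t * y)
      rwa [mul_one, mul_comm η, mul_inv_cancel_left₀ h2] at this
  by_contra hxT
  have hixT : i * x ∉ T := by
    intro h
    apply hxT
    have h1 := hT.mul _ (hT.inv _ hiT) _ h
    rwa [inv_mul_cancel_left₀ hi0] at h1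
  obtain ⟨t, ht0, ht1, hα⟩ := hbad x hxT
  obtain ⟨t', ht'0, ht'1, hβ⟩ := hbad (i * x) hixT
  set α : F := 1 - (t : F) + t * x with hαd
  set β : F := 1 - (t' : F) + t' * (i * x) with hβd
  set A : ℚ := t * (1 - t') with hA
  set B : ℚ := t' * (1 - t) with hB
  have hA0 : 0 ≤ A := mul_nonneg ht0 (by linarith)
  have hB0 : 0 ≤ B := mul_nonneg ht'0 (by linarith)
  have hA1 : A ≤ 1 := by nlinarith
  have hB1 : B ≤ 1 := by nlinarith
  have hAB : LL E (((A ^ 2 + B ^ 2 : ℚ)) : F) (W ^ 6 * η) := by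
    have h1 : (((A ^ 2 + B ^ 2 : ℚ)) : F) =
        ((t : F) * β + -i * ((t' : F) * α)) * ((A : F) + i * B) := by
      have h2 : (t : F) * β + -i * ((t' : F) * α) = (A : F) - i * B := by
        rw [hαd, hβd, hA, hB]
        push_cast
        ring
      rw [h2]
      push_cast
      linear_combination (B : F) ^ 2 * hi
    rw [h1]
    have h3 : LL E ((t : F) * β + -i * ((t' : F) * α)) (W * (W ^ 2 * η)) := by
      apply hadd
      · have h4 := (hrat t ht0 ht1).mul hβ
        have h5 := hmono (m := 1) (n := 2) η (by norm_num)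
        rw [pow_one] at h5
        exact h4.trans h5
      · have h4 := hWni.mul ((hrat t' ht'0 ht'1).mul hα)
        rwa [← mul_assoc W W η, ← sq] at h4
    have h6 : LL E ((A : F) + i * B) (W * W ^ 2) := by
      apply hadd
      · have h4 := hrat A hA0 hA1
        have h5 := hmono (m := 1) (n := 2) 1 (by norm_num)
        rw [pow_one, mul_one, mul_one] at h5
        exact h4.trans h5
      · rw [sq]; exact hWi.mul (hrat B hB0 hB1)
    have h7 := h3.mul h6
    have e : W * (W ^ 2 * η) * (W * W ^ 2) = W ^ 6 * η := by ring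
    rwa [e] at h7
  -- a rational bounded by a multiple of `A ^ 2 + B ^ 2`
  have hcomp : ∀ (q : ℚ) (n : ℕ), LL E (n : F) W → 0 ≤ q → q ≤ n * (A ^ 2 + B ^ 2) →
      LL E (q : F) (ε ^ 2 * κ) := by
    intro q n hn hq0 hq
    rw [← hWη]
    by_cases h0 : (n : ℚ) * (A ^ 2 + B ^ 2) = 0
    · have : q = 0 := le_antisymm (hq.trans h0.le) hq0
      rw [this, Rat.cast_zero]
      exact hE.zero_LL _
    · have hpos : 0 < (n : ℚ) * (A ^ 2 + B ^ 2) :=
        lt_of_le_of_ne (by positivity) (Ne.symm h0)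
      have h1 : q = q / (n * (A ^ 2 + B ^ 2)) * (n * (A ^ 2 + B ^ 2)) :=
        (div_mul_cancel₀ q h0).symm
      have h2 : (q : F) = ((q / (n * (A ^ 2 + B ^ 2)) : ℚ) : F) *
          ((n : F) * ((A ^ 2 + B ^ 2 : ℚ) : F)) := by
        have := congrArg (Rat.cast : ℚ → F) h1
        rw [Rat.cast_mul, Rat.cast_mul (n : ℚ), Rat.cast_natCast] at this
        exact this
      rw [h2]
      have h3 := (hrat (q / (n * (A ^ 2 + B ^ 2))) (by positivity)
        ((div_le_one hpos).2 hq)).mul (hn.mul hAB)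
      have e : W * (W * (W ^ 6 * η)) = W ^ 8 * η := by ring
      rwa [e] at h3
  have hsqrt : ∀ q : F, LL E (q ^ 2) (ε ^ 2 * κ) → LL E q (W ^ 3 * ε) := by
    intro q hq
    rcases hE.total (ε⁻¹ * q) with h | h
    · have h1 := h.mul_left ε
      rw [mul_inv_cancel_left₀ hε0, mul_comm ε] at h1
      exact h1.trans ((hWc.pow 3).mul (LL.refl ε))
    · exfalso
      apply hκ
      have h1 := (h.mul_left ε).pow 2
      rw [mul_inv_cancel_left₀ hε0, mul_one] at h1
      have h2 := h1.trans hq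
      have h3 : LL E (ε ^ 2 * 1) (ε ^ 2 * κ) := by rwa [mul_one]
      exact h3.of_mul_left (pow_ne_zero 2 hε0)
  have h4W : LL E ((4 : ℕ) : F) W := by exact_mod_cast hW4
  have h16W : LL E ((16 : ℕ) : F) W := by exact_mod_cast hW16
  have hmixed : ∀ C : ℚ, 1 / 4 ≤ C → C ^ 2 ≤ A ^ 2 + B ^ 2 → False := by
    intro C hC hCAB
    apply hκ
    have h1 := hcomp 1 16 h16W zero_le_one (by push_cast; nlinarith)
    rw [Rat.cast_one] at h1
    have h2 : LL E (ε ^ 2 * κ) (1 ^ 2 * κ) := (hε1.pow 2).mul (LL.refl κ)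
    rw [one_pow, one_mul] at h2
    exact h1.trans h2
  have hαW : ∀ m : ℕ, LL E α (W ^ m * ε) := by
    intro m
    have h1 := hmono (m := 0) (n := m) ε (Nat.zero_le _)
    rw [pow_zero, one_mul] at h1
    exact (hα.trans hηε).trans h1
  rcases le_total t (1 / 2) with h1 | h1 <;> rcases le_total t' (1 / 2) with h2 | h2
  · -- both small
    apply hκ
    have h3 : LL E (t : F) (W ^ 3 * ε) := by
      apply hsqrt
      have := hcomp (t ^ 2) 4 h4W (sq_nonneg t) (by
        push_cast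
        have h5 : t / 2 ≤ A := by rw [hA]; nlinarith
        nlinarith [sq_nonneg B])
      rwa [Rat.cast_pow] at this
    have h4 : LL E ((t : F) * (1 - x)) (W ^ 4 * ε) := by
      have := h3.mul hWx
      have e : W ^ 3 * ε * W = W ^ 4 * ε := by ring
      rwa [e] at this
    have h5 := hadd (hαW 4) h4
    have e1 : α + (t : F) * (1 - x) = 1 := by rw [hαd]; ring
    have e2 : W * (W ^ 4 * ε) = W ^ 5 * ε := by ring
    rw [e1, e2] at h5
    exact h5.trans (hεκ 5 (by norm_num))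
  · -- `t ≤ 1 / 2 ≤ t'`
    refine hmixed B ?_ (by nlinarith [sq_nonneg A])
    rw [hB]
    nlinarith
  · -- `t' ≤ 1 / 2 ≤ t`
    refine hmixed A ?_ (by nlinarith [sq_nonneg B])
    rw [hA]
    nlinarith
  · -- both large
    apply hκ
    have h3 : LL E (1 - (t : F)) (W ^ 3 * ε) := by
      apply hsqrt
      have := hcomp ((1 - t) ^ 2) 4 h4W (sq_nonneg _) (by
        push_cast
        have h5 : (1 - t) / 2 ≤ B := by rw [hB]; nlinarith
        nlinarith [sq_nonneg A])
      rwa [Rat.cast_pow, Rat.cast_sub, Rat.cast_one] at this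
    have h4 : LL E (-1 * (1 - (t : F))) (W ^ 4 * ε) := by
      have := hWn1.mul h3
      have e : W * (W ^ 3 * ε) = W ^ 4 * ε := by ring
      rwa [e] at this
    have h5 := hadd (hαW 4) h4
    have e1 : α + -1 * (1 - (t : F)) = t * x := by rw [hαd]; ring
    rw [e1] at h5
    have hρ0 : 0 ≤ 1 / (2 * t) := by positivity
    have hρ1 : 1 / (2 * t) ≤ 1 := by
      rw [div_le_one (by linarith)]; linarith
    have h6 := hWx'.mul (hW2.mul ((hrat _ hρ0 hρ1).mul h5))
    have htF : (t : F) ≠ 0 := Rat.cast_ne_zero.2 (by linarith)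
    have e2 : x⁻¹ * (2 * (((1 / (2 * t) : ℚ) : F) * ((t : F) * x))) = 1 := by
      push_cast
      field_simp
    have e3 : W * (W * (W * (W * (W ^ 4 * ε)))) = W ^ 8 * ε := by ring
    rw [e2, e3] at h6
    exact h6.trans (hεκ 8 (by norm_num))

end

end Pool.Agent.NIPFields
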