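import Mathlib
import Pool.Agent.NIPFields.KDT

set_option autoImplicit false

/-!
# The lattice lemma (Baldwin-Saxl)
-/

namespace Pool.Agent.NIPFields.LC

/-- Baldwin-Saxl for a family of additive subgroups. -/
theorem baldwin_saxl {G ι : Type*} [AddCommGroup G] (A : ι → AddSubgroup G) (n : ℕ)
    (hn : ∀ b : Fin n → ι, ∃ J : Finset (Fin n), ∀ x : G, ∃ i, ¬ (x ∈ A (b i) ↔ i ∈ J))
    (S : Finset ι) :
    ∃ S' ⊆ S, S'.card < n ∧ ∀ x, (∀ b ∈ S', x ∈ A b) → ∀ b ∈ S, x ∈ A b := by
  classical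
  have hex : ∃ k : ℕ, ∃ S' ⊆ S, S'.card = k ∧ ∀ x, (∀ b ∈ S', x ∈ A b) → ∀ b ∈ S, x ∈ A b :=
    ⟨S.card, S, Finset.Subset.refl _, rfl, fun x h => h⟩
  obtain ⟨S', hS', hcard, hx⟩ := Nat.find_spec hex
  refine ⟨S', hS', ?_, hx⟩
  by_contra hlt
  push Not at hlt
  have hw : ∀ b ∈ S', ∃ x, (∀ b' ∈ S', b' ≠ b → x ∈ A b') ∧ x ∉ A b := by
    intro b hb
    by_contra hcon
    push Not at hcon
    apply Nat.find_min hex (m := (S'.erase b).card)
    · rw [← hcard]
      exact Finset.card_erase_lt_of_mem hb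
    · refine ⟨S'.erase b, (Finset.erase_subset _ _).trans hS', rfl, fun x h => hx x ?_⟩
      intro b' hb'
      by_cases e : b' = b
      · rw [e]
        exact hcon x (fun b'' h1 h2 => h b'' (Finset.mem_erase.2 ⟨h2, h1⟩))
      · exact h b' (Finset.mem_erase.2 ⟨e, hb'⟩)
  let f : Fin n → ι := fun i => (S'.equivFin.symm (Fin.castLE hlt i)).1
  have hfi : Function.Injective f :=
    Subtype.val_injective.comp (S'.equivFin.symm.injective.comp (Fin.castLE_injective hlt))
  have hfm : ∀ i, f i ∈ S' := fun i => (S'.equivFin.symm (Fin.castLE hlt i)).2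
  choose x hx1 hx2 using fun i => hw (f i) (hfm i)
  obtain ⟨J, hJ⟩ := hn f
  obtain ⟨i, hi⟩ := hJ (∑ j ∈ Finset.univ.filter (fun j => j ∉ J), x j)
  apply hi
  constructor
  · intro h
    by_contra hiJ
    have hmem : i ∈ Finset.univ.filter (fun j => j ∉ J) := by simp [hiJ]
    rw [← Finset.add_sum_erase _ _ hmem] at h
    have h2 : ∑ j ∈ (Finset.univ.filter (fun j => j ∉ J)).erase i, x j ∈ A (f i) := by
      refine AddSubgroup.sum_mem _ (fun j hj => ?_)
      exact hx1 j (f i) (hfm i) (fun e => (Finset.ne_of_mem_erase hj) (hfi e).symm)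
    exact hx2 i ((AddSubgroup.add_mem_cancel_right _ h2).1 h)
  · intro hiJ
    refine AddSubgroup.sum_mem _ (fun j hj => ?_)
    refine hx1 j (f i) (hfm i) (fun e => ?_)
    have := hfi e
    rw [Finset.mem_filter] at hj
    rw [← this] at hj
    exact hj.2 hiJ

theorem lattice {F : Type*} [Field F] {B : ValuationSubring F} {ℓ : ℕ} {T : Set F}
    (hT : PowGrp ℓ T) (hR : ∃ R : Finset F, ∀ x : F, x ≠ 0 → ∃ r ∈ R, r ≠ 0 ∧ x / r ∈ T)
    {d : F} (hd : d ≠ 0) (hdT : ∀ x ∈ B, 1 + d * x ∈ T)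
    (hnil : ∀ m, B.valuation m < 1 → ∀ u, u ≠ 0 →
      ∃ n : ℕ, B.valuation (m ^ n) ≤ B.valuation u)
    (hVC : ∃ n : ℕ, ∀ b : Fin n → F, ∃ J : Finset (Fin n), ∀ x : F,
      (∀ i, B.valuation (b i * x) < 1) → ∃ i, ¬ (1 + b i * x ∈ T ↔ i ∈ J)) :
    (∀ m, B.valuation m < 1 → 1 + m ∈ T) ∨
      ∃ π, B.valuation π < 1 ∧ ∀ m, B.valuation m < 1 → B.valuation m ≤ B.valuation π := by
  classical
  by_contra hcon
  push Not at hcon
  obtain ⟨⟨m0, hm0, hm0T⟩, hnp⟩ := hcon
  -- the submodule `N`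
  let N : Set F := {x | ∀ b ∈ B, 1 + x * b ∈ T}
  have hNle : ∀ {x y : F}, B.valuation x ≤ B.valuation y → y ∈ N → x ∈ N := by
    intro x y hxy hy b hb
    by_cases hy0 : y = 0
    · have : x = 0 := by
        rw [hy0, map_zero] at hxy
        exact (map_eq_zero B.valuation).1 (le_antisymm hxy zero_le)
      rw [this, zero_mul, add_zero]
      exact hT.one
    · have h1 : x / y ∈ B := by
        rw [← B.valuation_le_one_iff, map_div₀]
        exact div_le_one_of_le₀ hxy zero_le
      have h2 := hy (x / y * b) (B.mul_mem _ _ h1 hb)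
      have h3 : y * (x / y * b) = x * b := by field_simp
      rwa [h3] at h2
  have hdN : d ∈ N := hdT
  have hm0N : m0 ∉ N := fun h => hm0T (by simpa using h 1 B.one_mem)
  -- square roots
  have hsq : ∀ m, B.valuation m < 1 → ∃ z, B.valuation z < 1 ∧
      B.valuation m ≤ B.valuation (z ^ 2) := by
    intro m hm
    obtain ⟨m1, h1, h2⟩ := hnp m hm
    by_cases hm1 : m1 = 0
    · exfalso
      rw [hm1, map_zero] at h2
      exact absurd h2 (not_lt.2 zero_le)
    have hv1 : B.valuation m1 ≠ 0 := (map_ne_zero _).2 hm1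
    have ht : B.valuation (m / m1) < 1 := by
      rw [map_div₀]
      exact (div_lt_one₀ (zero_lt_iff.2 hv1)).2 h2
    have hmm : m = m1 * (m / m1) := by field_simp
    rcases le_total (B.valuation m1) (B.valuation (m / m1)) with h | h
    · refine ⟨m / m1, ht, ?_⟩
      calc B.valuation m = B.valuation m1 * B.valuation (m / m1) := by
            rw [← map_mul, ← hmm]
        _ ≤ B.valuation (m / m1) * B.valuation (m / m1) := mul_le_mul_left h _
        _ = B.valuation ((m / m1) ^ 2) := by rw [map_pow, sq]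
    · refine ⟨m1, h1, ?_⟩
      calc B.valuation m = B.valuation m1 * B.valuation (m / m1) := by
            rw [← map_mul, ← hmm]
        _ ≤ B.valuation m1 * B.valuation m1 := mul_le_mul_right h _
        _ = B.valuation (m1 ^ 2) := by rw [map_pow, sq]
  obtain ⟨z, hz, hmz⟩ := hsq m0 hm0
  obtain ⟨s, hs, hzs⟩ := hsq z hz
  have hms : B.valuation m0 ≤ B.valuation (s ^ 4) := by
    refine hmz.trans ?_
    have : s ^ 4 = (s ^ 2) ^ 2 := by ring
    rw [this, map_pow, map_pow B.valuation (s ^ 2)]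
    exact pow_le_pow_left₀ zero_le hzs 2
  have hs4 : s ^ 4 ∉ N := fun h => hm0N (hNle hms h)
  have hpow : ∀ {i j : ℕ}, i ≤ j → B.valuation (s ^ j) ≤ B.valuation (s ^ i) := by
    intro i j hij
    rw [map_pow, map_pow]
    exact pow_le_pow_of_le_one zero_le hs.le hij
  have hexn : ∃ n : ℕ, s ^ n ∈ N := by
    obtain ⟨n, hn⟩ := hnil s hs d hd
    exact ⟨n, hNle hn hdN⟩
  obtain ⟨n, hn, hnmin⟩ : ∃ n : ℕ, s ^ n ∈ N ∧ ∀ m < n, s ^ m ∉ N :=
    ⟨Nat.find hexn, Nat.find_spec hexn, fun m hm => Nat.find_min hexn hm⟩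
  have hn5 : 5 ≤ n := by
    by_contra hlt
    push Not at hlt
    exact hs4 (hNle (hpow (by omega : n ≤ 4)) hn)
  set y := s ^ (n - 2) with hy
  have hyN : y ^ 2 ∈ N := by
    refine hNle ?_ hn
    rw [hy, ← pow_mul]
    exact hpow (by omega)
  have hysN : y * s ∉ N := by
    have h1 : y * s = s ^ (n - 1) := by
      rw [hy, ← pow_succ]
      congr 1
      omega
    rw [h1]
    exact hnmin _ (by omega)
  have hy1 : B.valuation y < 1 := by
    refine lt_of_le_of_lt ?_ hs
    calc B.valuation y ≤ B.valuation (s ^ 1) := hpow (by omega)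
      _ = B.valuation s := by rw [pow_one]
  have hy0 : y ≠ 0 := by
    intro h
    apply hysN
    rw [h, zero_mul]
    intro b _
    rw [zero_mul, add_zero]
    exact hT.one
  -- key: additivity
  have hbx : ∀ b ∈ B, ∀ x, B.valuation x ≤ B.valuation y → B.valuation (b * x) < 1 := by
    intro b hb x hx
    rw [map_mul]
    exact lt_of_le_of_lt (mul_le_of_le_one_left' ((B.valuation_le_one_iff b).2 hb))
      (lt_of_le_of_lt hx hy1)
  have hadd : ∀ b ∈ B, ∀ x₁ x₂, B.valuation x₁ ≤ B.valuation y → B.valuation x₂ ≤ B.valuation y →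
      (1 + b * x₁) * (1 + b * x₂) / (1 + b * (x₁ + x₂)) ∈ T := by
    intro b hb x₁ x₂ h1 h2
    have h12 : B.valuation (x₁ + x₂) ≤ B.valuation y :=
      (B.valuation.map_add _ _).trans (max_le h1 h2)
    have hu : B.valuation (1 + b * (x₁ + x₂)) = 1 :=
      Valuation.map_one_add_of_lt _ (hbx b hb _ h12)
    have hu0 : 1 + b * (x₁ + x₂) ≠ 0 := by
      intro h
      rw [h, map_zero] at hu
      exact zero_ne_one hu
    have e : (1 + b * x₁) * (1 + b * x₂) / (1 + b * (x₁ + x₂)) =
        1 + (b ^ 2 * (x₁ * x₂) / (1 + b * (x₁ + x₂))) * 1 := by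
      field_simp
      ring
    rw [e]
    refine hNle (y := y ^ 2) ?_ hyN 1 B.one_mem
    rw [map_div₀, hu, div_one, map_mul, map_mul, map_pow, map_pow, sq (B.valuation y)]
    have hb1 : B.valuation b ^ 2 ≤ 1 := pow_le_one₀ zero_le ((B.valuation_le_one_iff b).2 hb)
    calc B.valuation b ^ 2 * (B.valuation x₁ * B.valuation x₂)
        ≤ B.valuation x₁ * B.valuation x₂ := mul_le_of_le_one_left' hb1
      _ ≤ B.valuation y * B.valuation y := mul_le_mul' h1 h2
  have hne : ∀ b ∈ B, ∀ x, B.valuation x ≤ B.valuation y → 1 + b * x ≠ 0 := by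
    intro b hb x hx h
    have hu : B.valuation (1 + b * x) = 1 := Valuation.map_one_add_of_lt _ (hbx b hb _ hx)
    rw [h, map_zero] at hu
    exact zero_ne_one hu
  let H : AddSubgroup F :=
    { carrier := {x | B.valuation x ≤ B.valuation y}
      zero_mem' := by
        change B.valuation 0 ≤ B.valuation y
        rw [map_zero]
        exact zero_le
      add_mem' := by
        intro x₁ x₂ h1 h2
        change B.valuation (x₁ + x₂) ≤ B.valuation y
        exact (B.valuation.map_add _ _).trans (max_le h1 h2)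
      neg_mem' := by
        intro x h
        change B.valuation (-x) ≤ B.valuation y
        rw [Valuation.map_neg]
        exact h }
  have hH : ∀ x : H, B.valuation (x : F) ≤ B.valuation y := fun x => x.2
  let A : B → AddSubgroup H := fun b =>
    { carrier := {x | 1 + (b : F) * (x : F) ∈ T}
      zero_mem' := by
        change 1 + (b : F) * ((0 : H) : F) ∈ T
        rw [AddSubgroup.coe_zero, mul_zero, add_zero]
        exact hT.one
      add_mem' := by
        intro x₁ x₂ h1' h2'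
        have h1 := hH x₁
        have h2 := hH x₂
        have h12 := hH (x₁ + x₂)
        change 1 + (b : F) * ((x₁ + x₂ : H) : F) ∈ T
        rw [AddSubgroup.coe_add] at h12 ⊢
        have h3 := hT.mul _ (hT.mul _ h1' _ h2') _ (hT.inv _ (hadd b b.2 x₁ x₂ h1 h2))
        have h4 : (1 + (b : F) * (x₁ : F)) * (1 + (b : F) * (x₂ : F)) *
            ((1 + (b : F) * (x₁ : F)) * (1 + (b : F) * (x₂ : F)) /
              (1 + (b : F) * ((x₁ : F) + (x₂ : F))))⁻¹ = 1 + (b : F) * ((x₁ : F) + (x₂ : F)) := by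
          have := hne b b.2 _ h1
          have := hne b b.2 _ h2
          have := hne b b.2 _ h12
          field_simp
        rwa [h4] at h3
      neg_mem' := by
        intro x h1'
        have h1 := hH x
        have h2 := hH (-x)
        change 1 + (b : F) * ((-x : H) : F) ∈ T
        rw [AddSubgroup.coe_neg] at h2 ⊢
        have h3 := hT.mul _ (hadd b b.2 x (-x) h1 h2) _ (hT.inv _ h1')
        have h4 : (1 + (b : F) * (x : F)) * (1 + (b : F) * -(x : F)) /
            (1 + (b : F) * ((x : F) + -(x : F))) *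
            (1 + (b : F) * (x : F))⁻¹ = 1 + (b : F) * -(x : F) := by
          have := hne b b.2 _ h1
          rw [add_neg_cancel, mul_zero, add_zero, div_one]
          field_simp
        rwa [h4] at h3 }
  have hA : ∀ (b : B) (x : H), x ∈ A b ↔ 1 + (b : F) * (x : F) ∈ T := fun b x => Iff.rfl
  obtain ⟨k, hk⟩ := hVC
  have hn' : ∀ b : Fin k → B, ∃ J : Finset (Fin k), ∀ x : H, ∃ i, ¬ (x ∈ A (b i) ↔ i ∈ J) := by
    intro b
    obtain ⟨J, hJ⟩ := hk (fun i => (b i : F))
    refine ⟨J, fun x => ?_⟩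
    obtain ⟨i, hi⟩ := hJ x (fun i => hbx _ (b i).2 _ (hH x))
    exact ⟨i, fun h => hi ((hA (b i) x).symm.trans h)⟩
  obtain ⟨R, hR⟩ := hR
  -- an increasing sequence of elements
  have hseq : ∃ π : ℕ → F, (∀ i, B.valuation (π i) < 1) ∧ (∀ i, B.valuation s ≤ B.valuation (π i)) ∧
      ∀ i j, i < j → B.valuation (π i) < B.valuation (π j) := by
    choose g hg1 hg2 using hnp
    let P : ℕ → {x : F // B.valuation x < 1} := fun n =>
      Nat.rec ⟨s, hs⟩ (fun _ x => ⟨g x.1 x.2, hg1 x.1 x.2⟩) n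
    have hmono : StrictMono (fun n => B.valuation (P n).1) :=
      strictMono_nat_of_lt_succ (fun n => hg2 (P n).1 (P n).2)
    exact ⟨fun n => (P n).1, fun n => (P n).2, fun n => hmono.monotone (Nat.zero_le n),
      fun i j hij => hmono hij⟩
  obtain ⟨π, hπ1, hπs, hπm⟩ := hseq
  let X : ℕ → H := fun i => ⟨y * π i, by
    change B.valuation (y * π i) ≤ B.valuation y
    rw [map_mul]
    exact mul_le_of_le_one_right' (hπ1 i).le⟩
  have hX : ∀ i j, ∃ b : B, i < j → X i - X j ∉ A b := by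
    intro i j
    by_cases hij : i < j
    swap
    · exact ⟨0, fun h => absurd h hij⟩
    by_contra hcon
    replace hcon : ∀ b : B, X i - X j ∈ A b := fun b => by
      by_contra h
      exact hcon ⟨b, fun _ => h⟩
    apply hysN
    have h1 : B.valuation (y * s) ≤ B.valuation (((X i - X j : H)) : F) := by
      rw [AddSubgroup.coe_sub]
      change _ ≤ B.valuation (y * π i - y * π j)
      rw [← mul_sub, map_mul, map_mul]
      have h2 : B.valuation (π i - π j) = B.valuation (π j) :=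
        Valuation.map_sub_eq_of_lt_right _ (hπm i j hij)
      rw [h2]
      exact mul_le_mul_right (hπs j) _
    refine hNle h1 (fun b hb => ?_)
    have h3 := (hA ⟨b, hb⟩ _).1 (hcon ⟨b, hb⟩)
    rwa [mul_comm] at h3
  choose b hb using hX
  -- pigeonhole
  choose ρ hρR hρ0 hρT using hR
  obtain ⟨S', -, hS'k, hS'⟩ := baldwin_saxl A k hn'
    ((Finset.univ : Finset (Fin (R.card ^ k + 1) × Fin (R.card ^ k + 1))).image
      (fun ij => b ij.1.1 ij.2.1))
  have hne' : ∀ (b : B) (x : H), 1 + (b : F) * (x : F) ≠ 0 := fun b x => hne b b.2 _ (hH x)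
  let φ : Fin (R.card ^ k + 1) → (S' → R) := fun i b' =>
    ⟨ρ _ (hne' b' (X i)), hρR _ _⟩
  have hRpos : 0 < R.card := Finset.card_pos.2 ⟨_, hρR 1 one_ne_zero⟩
  obtain ⟨i, j, hij, hφ⟩ : ∃ i j, i < j ∧ φ i = φ j := by
    have hcard : Fintype.card (S' → R) < Fintype.card (Fin (R.card ^ k + 1)) := by
      rw [Fintype.card_fin, Fintype.card_fun, Fintype.card_coe, Fintype.card_coe]
      exact Nat.lt_succ_of_le (Nat.pow_le_pow_right hRpos hS'k.le)
    obtain ⟨i, j, hne, h⟩ := Fintype.exists_ne_map_eq_of_card_lt φ hcard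
    rcases lt_or_gt_of_ne hne with h' | h'
    · exact ⟨i, j, h', h⟩
    · exact ⟨j, i, h', h.symm⟩
  have hmem : ∀ b' ∈ S', X i - X j ∈ A b' := by
    intro b' hb'
    have h1 := congrArg Subtype.val (congrFun hφ ⟨b', hb'⟩)
    change ρ _ (hne' b' (X i)) = ρ _ (hne' b' (X j)) at h1
    have hi := hρT _ (hne' b' (X i))
    have hj := hρT _ (hne' b' (X j))
    have hr0 := hρ0 _ (hne' b' (X j))
    rw [h1] at hi
    -- `X i = (X i - X j) + X j`
    have h2 := hadd b' b'.2 ((X i - X j : H) : F) (X j : F) (hH _) (hH _)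
    have e1 : ((X i - X j : H) : F) + (X j : F) = (X i : F) := by
      rw [AddSubgroup.coe_sub, sub_add_cancel]
    rw [e1] at h2
    rw [hA]
    have h3 := hT.mul _ h2 _ (hT.mul _ hi _ (hT.inv _ hj))
    have hxi := hne' b' (X i)
    have hxj := hne' b' (X j)
    have e2 : (1 + (b' : F) * ((X i - X j : H) : F)) * (1 + (b' : F) * (X j : F)) /
        (1 + (b' : F) * (X i : F)) * ((1 + (b' : F) * (X i : F)) / ρ _ (hne' b' (X j)) *
        ((1 + (b' : F) * (X j : F)) / ρ _ (hne' b' (X j)))⁻¹) =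
        1 + (b' : F) * ((X i - X j : H) : F) := by
      field_simp
    rwa [e2] at h3
  exact hb i j hij (hS' _ hmem (b i j) (Finset.mem_image.2 ⟨(i, j), Finset.mem_univ _, rfl⟩))

end Pool.Agent.NIPFields.LC
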