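import Mathlib
import Pool.Agent.NIPFields.KD

set_option autoImplicit false

/-!
# The ring of power bounded elements when the integers are bounded
-/

namespace Pool.Agent.NIPFields

section

variable {F : Type*} [Field F] {E : Set F} {c : F}

/-- A sum of `2 ^ j` terms. -/
theorem VE.LL_sum (hE : VE E c) {w : F} (j : ℕ) :
    ∀ f : ℕ → F, (∀ i, LL E (f i) w) → LL E (∑ i ∈ Finset.range (2 ^ j), f i) (c ^ j * w) := by
  induction j with
  | zero =>
    intro f hf
    simpa using hf 0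
  | succ j ih =>
    intro f hf
    rw [pow_succ 2 j, mul_two, Finset.sum_range_add, pow_succ' c j, mul_assoc]
    exact hE.LL_add (ih f hf) (ih (fun i => f (2 ^ j + i)) fun i => hf _)

/-- Powers of `1 + z`. -/
theorem VE.LL_one_add_pow (hE : VE E c) {s u : F} (hZ : ∀ n : ℕ, LL E (n : F) s) {z : F}
    (hz : ∀ n : ℕ, LL E (z ^ n) u) {n j : ℕ} (hn : n < 2 ^ j) :
    LL E ((1 + z) ^ n) (c ^ j * (u * s)) := by
  have h1 : (1 + z) ^ n = ∑ i ∈ Finset.range (2 ^ j), z ^ i * (n.choose i : F) := by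
    rw [add_comm, add_pow]
    simp only [one_pow, mul_one]
    apply Finset.sum_subset
    · intro i hi
      rw [Finset.mem_range] at hi ⊢
      omega
    · intro i _ hi
      rw [Finset.mem_range, not_lt] at hi
      rw [Nat.choose_eq_zero_of_lt (by omega), Nat.cast_zero, mul_zero]
  rw [h1]
  exact hE.LL_sum j _ fun i => (hz i).mul (hZ _)

theorem VE.PB_one_add' (hE : VE E c) {s : F} (hs : s ≠ 0) (hZ : ∀ n : ℕ, LL E (n : F) s) {z : F}
    (hz : PB E z) : PB E (1 + z) := by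
  obtain ⟨u, hu, hz⟩ := hz
  by_contra hy
  have hc := hE.c0
  have hw : u * s ≠ 0 := mul_ne_zero hu hs
  obtain ⟨n₀, hn₀⟩ : ∃ n₀ : ℕ, LL E c ((1 + z) ^ n₀) := by
    by_contra hcon
    push Not at hcon
    apply hy
    refine ⟨c ^ 4, pow_ne_zero _ hc, fun n => ?_⟩
    rcases hE.total ((1 + z) ^ n / c) with h | h
    · have := h.mul_left c
      rwa [mul_div_cancel₀ _ hc, ← pow_succ'] at this
    · exfalso
      apply hcon n
      have := h.mul_left c
      rwa [mul_div_cancel₀ _ hc, mul_one] at this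
  have hcpb : ∀ i : ℕ, LL E (c ^ i) (u * s) := by
    intro i
    obtain ⟨j, hj⟩ : ∃ j : ℕ, n₀ * (i + j) < 2 ^ j := by
      have h1 : Filter.Tendsto (fun j : ℕ => ((n₀ : ℝ) * (i + j)) / 2 ^ j) Filter.atTop
          (nhds 0) := by
        have h2 : Filter.Tendsto (fun j : ℕ => ((j : ℝ) ^ 1) / 2 ^ j) Filter.atTop (nhds 0) :=
          tendsto_pow_const_div_const_pow_of_one_lt 1 (by norm_num)
        have h3 : Filter.Tendsto (fun j : ℕ => ((j : ℝ) ^ 0) / 2 ^ j) Filter.atTop (nhds 0) :=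
          tendsto_pow_const_div_const_pow_of_one_lt 0 (by norm_num)
        have h4 := ((h3.const_mul ((n₀ : ℝ) * i)).add (h2.const_mul (n₀ : ℝ)))
        rw [mul_zero, mul_zero, add_zero] at h4
        refine h4.congr fun j => ?_
        ring
      obtain ⟨j, hj⟩ := (h1.eventually (gt_mem_nhds (zero_lt_one (α := ℝ)))).exists
      refine ⟨j, ?_⟩
      rw [div_lt_one (by positivity)] at hj
      exact_mod_cast hj
    have h1 := hn₀.pow (i + j)
    rw [← pow_mul] at h1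
    have h2 := h1.trans (hE.LL_one_add_pow hZ hz hj)
    rw [add_comm, pow_add] at h2
    exact h2.of_mul_left (pow_ne_zero _ hc)
  apply hy
  refine ⟨(u * s) * (u * s), mul_ne_zero hw hw, fun n => ?_⟩
  obtain ⟨j, hj⟩ : ∃ j : ℕ, n < 2 ^ j := ⟨n, Nat.lt_two_pow_self⟩
  exact (hE.LL_one_add_pow hZ hz hj).trans ((hcpb j).mul (LL.refl _))

/-- The valuation ring of power bounded elements. -/
noncomputable def VE.ring0 (hE : VE E c) {s : F} (hs : s ≠ 0) (hZ : ∀ n : ℕ, LL E (n : F) s) :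
    ValuationSubring F where
  carrier := {x | PB E x}
  mul_mem' := fun hx hy => PB.mul hx hy
  one_mem' := ⟨c, hE.c0, fun n => by rw [one_pow]; exact hE.one_LL⟩
  zero_mem' := by
    rcases hE.PB_or 0 with h | h
    · exact h
    · rwa [inv_zero] at h
  add_mem' := by
    intro x y hx hy
    change PB E x at hx
    change PB E y at hy
    change PB E (x + y)
    by_cases hx0 : x = 0
    · rw [hx0, zero_add]; exact hy
    by_cases hy0 : y = 0
    · rw [hy0, add_zero]; exact hx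
    rcases hE.PB_or (y / x) with h | h
    · have h1 : x + y = x * (1 + y / x) := by field_simp
      rw [h1]
      exact hx.mul (hE.PB_one_add' hs hZ h)
    · have h1 : x + y = y * (1 + (y / x)⁻¹) := by field_simp; ring
      rw [h1]
      exact hy.mul (hE.PB_one_add' hs hZ h)
  neg_mem' := by
    intro x hx
    change PB E (-x)
    rw [neg_eq_neg_one_mul]
    refine PB.mul ?_ hx
    rcases hE.PB_or (-1) with h | h
    · exact h
    · rwa [inv_neg_one] at h
  mem_or_inv_mem' := hE.PB_or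

theorem VE.exists_rank_one (hE : VE E c) (hZ : ∃ s : F, s ≠ 0 ∧ ∀ n : ℕ, LL E (n : F) s)
    (hx : ∃ x, ¬ PB E x) :
    ∃ B : ValuationSubring F, B ≠ ⊤ ∧ (∃ d : F, d ≠ 0 ∧ ∀ x ∈ E, d * x ∈ B) ∧
      (∃ d : F, d ≠ 0 ∧ ∀ x ∈ B, d * x ∈ E) ∧
      ∀ m, B.valuation m < 1 → ∀ u, u ≠ 0 → ∃ n : ℕ, B.valuation (m ^ n) ≤ B.valuation u := by
  obtain ⟨s, hs, hZ⟩ := hZ
  obtain ⟨x₀, hx₀⟩ := hx
  have hc := hE.c0
  set B := hE.ring0 hs hZ with hB
  have hmem : ∀ x, x ∈ B ↔ PB E x := fun x => Iff.rfl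
  have hinv : ∀ m, m ≠ 0 → B.valuation m < 1 → ¬ PB E m⁻¹ := by
    intro m hm0 hm h
    have h1 : m⁻¹ ∈ B := h
    have h2 : B.valuation m⁻¹ ≤ 1 := (B.valuation_le_one_iff _).2 h1
    rw [map_inv₀] at h2
    have h3 : 1 < (B.valuation m)⁻¹ :=
      (one_lt_inv₀ (zero_lt_iff.2 ((map_ne_zero _).2 hm0))).2 hm
    exact absurd h2 (not_le.2 h3)
  have hsmall : ∀ m, m ≠ 0 → ¬ PB E m⁻¹ → ∀ u : F, u ≠ 0 → ∃ n : ℕ, LL E (m ^ n) u := by
    intro m hm0 hminv u hu
    by_contra hcon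
    push Not at hcon
    apply hminv
    refine ⟨c ^ 3 / u, div_ne_zero (pow_ne_zero _ hc) hu, fun n => ?_⟩
    rcases hE.total (u * m⁻¹ ^ n) with h | h
    · have := h.mul_left u⁻¹
      rwa [inv_mul_cancel_left₀ hu, mul_comm, ← div_eq_mul_inv] at this
    · exfalso
      apply hcon n
      have := h.mul_left (m ^ n)
      rwa [mul_one, mul_comm u, ← mul_assoc, ← mul_pow, mul_inv_cancel₀ hm0, one_pow,
        one_mul] at this
  have hmr : ∀ m, m ≠ 0 → ¬ PB E m⁻¹ → ∀ r : F, PB E r → LL E (m * r) (c ^ 3) := by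
    intro m hm0 hminv r hr
    by_cases hr0 : r = 0
    · rw [hr0, mul_zero]; exact hE.zero_LL _
    rcases hE.total (m * r) with h | h
    · exact h
    · exfalso
      apply hminv
      have h1 : PB E (m * r)⁻¹ := by
        refine hE.PB_of_one_LL (n := 1) one_ne_zero ?_
        rwa [pow_one]
      have h2 : m⁻¹ = (m * r)⁻¹ * r := by
        rw [mul_inv, mul_assoc, inv_mul_cancel₀ hr0, mul_one]
      rw [h2]
      exact h1.mul hr
  have hone : ∀ x, LL E x 1 → PB E x := fun x h => ⟨1, one_ne_zero, fun n => by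
    have := h.pow n
    rwa [one_pow] at this⟩
  have hx₀0 : x₀ ≠ 0 := by
    rintro rfl
    rcases hE.PB_or 0 with h | h
    · exact hx₀ h
    · rw [inv_zero] at h; exact hx₀ h
  have hm0 : x₀⁻¹ ≠ 0 := inv_ne_zero hx₀0
  have hminv : ¬ PB E (x₀⁻¹)⁻¹ := by rwa [inv_inv]
  refine ⟨B, ?_, ?_, ?_, ?_⟩
  · intro htop
    have : x₀ ∈ B := by rw [htop]; trivial
    exact hx₀ this
  · obtain ⟨n, hn⟩ := hsmall _ hm0 hminv c⁻¹ (inv_ne_zero hc)
    refine ⟨x₀⁻¹ ^ n, pow_ne_zero _ hm0, fun x hx => ?_⟩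
    apply hone
    have := hn.mul (hE.LL_of_mem hx)
    rwa [inv_mul_cancel₀ hc] at this
  · refine ⟨x₀⁻¹ / c ^ 4, div_ne_zero hm0 (pow_ne_zero _ hc), fun x hx => ?_⟩
    obtain ⟨z, hz, e⟩ := hE.mem_of_LL (hmr _ hm0 hminv x hx)
    have h1 : x₀⁻¹ / c ^ 4 * x = z := by
      have h2 : x₀⁻¹ / c ^ 4 * x = (x₀⁻¹ * x) / c ^ 4 := by ring
      rw [h2, e]
      field_simp
    rw [h1]
    exact hz
  · intro m hm u hu
    by_cases hm0 : m = 0
    · exact ⟨1, by rw [hm0, pow_one, map_zero]; exact zero_le⟩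
    obtain ⟨n, hn⟩ := hsmall m hm0 (hinv m hm0 hm) u hu
    refine ⟨n, ?_⟩
    have h1 : LL E (m ^ n / u) 1 := by
      have := hn.mul_left u⁻¹
      rwa [inv_mul_cancel₀ hu, mul_comm, ← div_eq_mul_inv] at this
    have h2 : m ^ n / u ∈ B := hone _ h1
    rw [← B.valuation_le_one_iff, map_div₀] at h2
    exact (div_le_one₀ (zero_lt_iff.2 ((map_ne_zero _).2 hu))).1 h2

end

end Pool.Agent.NIPFields
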