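import Mathlib
import Pool.Agent.NIPFields.DefValT
import Pool.Agent.NIPFields.LDef
import Pool.Agent.NIPFields.LC.Arch
import Pool.Agent.NIPFields.LC.PBRing
import Pool.Agent.NIPFields.LC.Lattice

set_option autoImplicit false

/-!
# Package P4: definable valuation rings from definable groups of finite index
-/

namespace Pool.Agent.NIPFields.LC

open FirstOrder FirstOrder.Language FirstOrder.Ring Set IsLocalRing

universe u

section

variable {K : Type u} [Field K] {ℓ : ℕ} {T : Set K}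

theorem isUnit_of_residue_ne {O₀ : ValuationSubring K} {x : O₀} (hx : residue O₀ x ≠ 0) :
    IsUnit x := by
  rwa [Ne, residue_eq_zero_iff, mem_maximalIdeal, mem_nonunits_iff, not_not] at hx

/-- The composite valuation ring. -/
noncomputable def compRing (O₀ : ValuationSubring K) (B : ValuationSubring (ResidueField O₀)) :
    ValuationSubring K where
  carrier := {x | ∃ h : x ∈ O₀, residue O₀ ⟨x, h⟩ ∈ B}
  mul_mem' := by
    rintro x y ⟨hx, hx'⟩ ⟨hy, hy'⟩
    refine ⟨O₀.mul_mem _ _ hx hy, ?_⟩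
    have : (⟨x * y, O₀.mul_mem _ _ hx hy⟩ : O₀) = ⟨x, hx⟩ * ⟨y, hy⟩ := rfl
    rw [this, map_mul]
    exact B.mul_mem _ _ hx' hy'
  one_mem' := by
    refine ⟨O₀.one_mem, ?_⟩
    have : (⟨1, O₀.one_mem⟩ : O₀) = 1 := rfl
    rw [this, map_one]
    exact B.one_mem
  zero_mem' := by
    refine ⟨O₀.zero_mem, ?_⟩
    have : (⟨0, O₀.zero_mem⟩ : O₀) = 0 := rfl
    rw [this, map_zero]
    exact B.zero_mem
  add_mem' := by
    rintro x y ⟨hx, hx'⟩ ⟨hy, hy'⟩
    refine ⟨O₀.add_mem _ _ hx hy, ?_⟩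
    have : (⟨x + y, O₀.add_mem _ _ hx hy⟩ : O₀) = ⟨x, hx⟩ + ⟨y, hy⟩ := rfl
    rw [this, map_add]
    exact B.add_mem _ _ hx' hy'
  neg_mem' := by
    rintro x ⟨hx, hx'⟩
    refine ⟨O₀.neg_mem _ hx, ?_⟩
    have : (⟨-x, O₀.neg_mem _ hx⟩ : O₀) = -⟨x, hx⟩ := rfl
    rw [this, map_neg]
    exact B.neg_mem _ hx'
  mem_or_inv_mem' := by
    intro x
    by_cases hx : x ∈ O₀
    · by_cases hx' : residue O₀ ⟨x, hx⟩ ∈ B
      · exact Or.inl ⟨hx, hx'⟩
      · right
        have h1 : residue O₀ ⟨x, hx⟩ ≠ 0 := by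
          intro h; rw [h] at hx'; exact hx' B.zero_mem
        have hu := isUnit_of_residue_ne h1
        have hv : O₀.valuation x = 1 := (O₀.valuation_eq_one_iff ⟨x, hx⟩).1 hu
        have hx0 : x ≠ 0 := by
          rintro rfl; rw [map_zero] at hv; exact zero_ne_one hv
        have hxi : x⁻¹ ∈ O₀ := by
          rw [← O₀.valuation_le_one_iff, map_inv₀, hv, inv_one]
        refine ⟨hxi, ?_⟩
        have h2 : residue O₀ ⟨x⁻¹, hxi⟩ = (residue O₀ ⟨x, hx⟩)⁻¹ := by
          symm
          apply inv_eq_of_mul_eq_one_left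
          rw [← map_mul, ← map_one (residue O₀)]
          congr 1
          exact Subtype.ext (inv_mul_cancel₀ hx0)
        rw [h2]
        exact (B.mem_or_inv_mem _).resolve_left hx'
    · right
      have hx0 : x ≠ 0 := by rintro rfl; exact hx O₀.zero_mem
      have hv : O₀.valuation x⁻¹ < 1 := val_lt_one_of_inv_notMem (by rwa [inv_inv])
      have hxi : x⁻¹ ∈ O₀ := (O₀.valuation_le_one_iff _).1 hv.le
      refine ⟨hxi, ?_⟩
      have h2 : residue O₀ ⟨x⁻¹, hxi⟩ = 0 := by
        rw [residue_eq_zero_iff]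
        exact (O₀.valuation_lt_one_iff ⟨x⁻¹, hxi⟩).2 hv
      rw [h2]
      exact B.zero_mem

theorem mem_compRing {O₀ : ValuationSubring K} {B : ValuationSubring (ResidueField O₀)} {x : K} :
    x ∈ compRing O₀ B ↔ ∃ h : x ∈ O₀, residue O₀ ⟨x, h⟩ ∈ B := Iff.rfl

theorem compRing_ne_top {O₀ : ValuationSubring K} (h0 : O₀ ≠ ⊤)
    (B : ValuationSubring (ResidueField O₀)) : compRing O₀ B ≠ ⊤ := by
  intro htop
  apply h0
  rw [eq_top_iff]
  intro x _
  have : x ∈ compRing O₀ B := by rw [htop]; trivial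
  exact this.1

theorem compatT_compRing (hT : PowGrp ℓ T) {O₀ : ValuationSubring K} (hcomp : CompatT T O₀)
    {B : ValuationSubring (ResidueField O₀)}
    (hB : ∀ m, B.valuation m < 1 → 1 + m ∈ resT T O₀) : CompatT T (compRing O₀ B) := by
  refine ⟨compRing_ne_top hcomp.1 B, ?_⟩
  intro m hm
  by_cases hm0 : m = 0
  · rw [hm0, add_zero]; exact hT.one
  have hmi := val_inv_gt hm0 hm
  obtain ⟨hmO, hmO₁⟩ := mem_compRing.1 (((compRing O₀ B).valuation_le_one_iff _).1 hm.le)
  rcases lt_or_eq_of_le ((O₀.valuation_le_one_iff _).2 hmO) with h | h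
  · exact hcomp.2 m h
  have hmi' : m⁻¹ ∈ O₀ := by
    rw [← O₀.valuation_le_one_iff, map_inv₀, h, inv_one]
  have h3 : (residue O₀ ⟨m, hmO⟩)⁻¹ ∉ B := by
    intro h4
    apply hmi
    refine ⟨hmi', ?_⟩
    have h2 : residue O₀ ⟨m⁻¹, hmi'⟩ = (residue O₀ ⟨m, hmO⟩)⁻¹ := by
      symm
      apply inv_eq_of_mul_eq_one_left
      rw [← map_mul, ← map_one (residue O₀)]
      congr 1
      exact Subtype.ext (inv_mul_cancel₀ hm0)
    rw [h2]
    exact h4
  have h4 := val_lt_one_of_inv_notMem h3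
  have hy := hB _ h4
  have h5 : residue O₀ (1 + ⟨m, hmO⟩) ∈ resT T O₀ := by
    rw [map_add, map_one]; exact hy
  have h6 : residue O₀ (1 + ⟨m, hmO⟩) ≠ 0 := by
    intro h7
    rw [map_add, map_one] at h7
    have := Valuation.map_one_add_of_lt B.valuation h4
    rw [h7, map_zero] at this
    exact zero_ne_one this
  exact lift_T hT hcomp _ h6 h5

end

section

variable {K : Type u} [Field K] {ℓ : ℕ} {T : Set K}

theorem caseYT_gen [CompatibleRing K] (hT : PowGrp ℓ T)
    (hTdef : (univ : Set K).Definable₁ Language.ring T)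
    {O₁ : ValuationSubring K} (hne : CompatT T O₁)
    (hnp : ∃ a : K, a ∉ T) (hT0 : (0 : K) ∈ T)
    (hY : ∀ O : ValuationSubring K, CompatT T O → ∃ u, O.valuation u = 1 ∧ u ∉ T) :
    (∃ O' : ValuationSubring K, CompatT T O' ∧
      (univ : Set K).Definable₁ Language.ring {x | x ∈ O'}) ∨
    ∃ (O₀ : ValuationSubring K) (a c' : O₀), CompatT T O₀ ∧
      (∀ O, CompatT T O → O₀ ≤ O) ∧ O₀.valuation (a : K) = 1 ∧ (a : K) ∉ T ∧
      (∀ z ∈ DYT T (a : K), z ∈ O₀) ∧
      VE {e | ∃ x : O₀, (x : K) ∈ DYT T (a : K) ∧ residue O₀ x = e} (residue O₀ c') := by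
  -- the chain condition
  have hchain : ∀ O O' : ValuationSubring K, CompatT T O → CompatT T O' → O ≤ O' ∨ O' ≤ O := by
    intro O O' hO hO'
    by_contra hcon
    push Not at hcon
    have hu := units_joinT hT hO.2 hO'.2 hcon.1 hcon.2
    by_cases htop : joinRing O O' = ⊤
    · obtain ⟨a, ha⟩ := hnp
      have ha0 : a ≠ 0 := by rintro rfl; exact ha hT0
      refine ha (hu a ?_)
      apply le_antisymm
      · rw [ValuationSubring.valuation_le_one_iff, htop]; trivial
      · have h1 : (joinRing O O').valuation a⁻¹ ≤ 1 := by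
          rw [ValuationSubring.valuation_le_one_iff, htop]; trivial
        rw [map_inv₀] at h1
        exact (inv_le_one₀ (zero_lt_iff.2 ((map_ne_zero _).2 ha0))).1 h1
    · have hR : CompatT T (joinRing O O') :=
        ⟨htop, fun m hm => hO.2 m (val_lt_of_le (le_joinRing O O') hm)⟩
      obtain ⟨u, hu1, hu2⟩ := hY _ hR
      exact hu2 (hu u hu1)
  set O₀ := interRingT T hchain with hO₀
  have hmem : ∀ {x}, x ∈ O₀ ↔ ∀ O : ValuationSubring K, CompatT T O → x ∈ O := Iff.rfl
  have hle : ∀ {O}, CompatT T O → O₀ ≤ O := fun hO x hx => hmem.1 hx _ hO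
  have hcomp : CompatT T O₀ := by
    constructor
    · intro htop
      have := hle hne
      rw [htop, top_le_iff] at this
      exact hne.1 this
    · intro m hm
      by_cases hm0 : m = 0
      · rw [hm0, add_zero]; exact hT.one
      have h1 := val_inv_gt hm0 hm
      rw [hmem] at h1
      push Not at h1
      obtain ⟨O, hO, h2⟩ := h1
      exact hO.2 m (val_lt_one_of_inv_notMem h2)
  obtain ⟨a, ha1, ha2⟩ := hY O₀ hcomp
  have ha0 : a ≠ 0 := by rintro rfl; rw [map_zero] at ha1; exact zero_ne_one ha1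
  have haO : a ∈ O₀ := (O₀.valuation_le_one_iff _).1 ha1.le
  set D := DYT T a with hD
  have h0D : (0 : K) ∈ D := by
    constructor
    · rw [add_zero]; exact hT.one
    · rw [mul_zero, add_zero]; exact hT.one
  have hMD : ∀ m, O₀.valuation m < 1 → m ∈ D := by
    intro m hm
    exact ⟨hcomp.2 m hm, hcomp.2 (a * m) (by rw [map_mul, ha1, one_mul]; exact hm)⟩
  have hDO : ∀ z ∈ D, z ∈ O₀ := by
    rintro z ⟨hy, hy'⟩
    by_contra hz
    have hz0 : z ≠ 0 := by rintro rfl; exact hz O₀.zero_mem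
    have hz1 : O₀.valuation z⁻¹ < 1 := val_lt_one_of_inv_notMem (by rwa [inv_inv])
    have hz2 : O₀.valuation (a * z)⁻¹ < 1 := by
      rw [mul_inv, map_mul, map_inv₀ _ a, ha1, inv_one, one_mul]
      exact hz1
    have ht := hcomp.2 _ hz1
    have ht' := hcomp.2 _ hz2
    have nt : 1 + z⁻¹ ≠ 0 := by
      intro h
      have := Valuation.map_one_add_of_lt O₀.valuation hz1
      rw [h, map_zero] at this
      exact zero_ne_one this
    have nt' : 1 + (a * z)⁻¹ ≠ 0 := by
      intro h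
      have := Valuation.map_one_add_of_lt O₀.valuation hz2
      rw [h, map_zero] at this
      exact zero_ne_one this
    have n1 : 1 + z ≠ 0 := by
      intro h
      apply nt
      have : 1 + z⁻¹ = z⁻¹ * (1 + z) := by field_simp; ring
      rw [this, h, mul_zero]
    have e1 : a = (1 + a * z) * (1 + z⁻¹) * ((1 + z)⁻¹ * (1 + (a * z)⁻¹)⁻¹) := by
      rw [← mul_inv, ← div_eq_mul_inv, eq_div_iff (mul_ne_zero n1 nt')]
      field_simp
      ring
    apply ha2
    rw [e1]
    exact hT.mul _ (hT.mul _ hy' _ ht) _ (hT.mul _ (hT.inv _ hy) _ (hT.inv _ ht'))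
  have hDdef : (univ : Set K).Definable₁ Language.ring D := def_DYT hTdef a
  by_cases hW : {x | x ∈ O₀} = WY D
  · left
    refine ⟨O₀, hcomp, ?_⟩
    rw [hW]; exact def_WY hDdef
  right
  obtain ⟨c', hc'⟩ : ∃ c' : O₀,
      VE {e | ∃ x : O₀, (x : K) ∈ D ∧ residue O₀ x = e} (residue O₀ c') := by
    by_contra hnot
    apply hW
    ext c
    constructor
    swap
    · -- elements outside `O₀` satisfy `SC`
      intro hc
      by_contra hcO
      have hcO : c ∉ O₀ := hcO
      have hc0 : c ≠ 0 := by rintro rfl; exact hcO O₀.zero_mem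
      have hcv : O₀.valuation c⁻¹ < 1 := val_lt_one_of_inv_notMem (by rwa [inv_inv])
      have hcD : ∀ x ∈ O₀, ∃ z, z ∈ D ∧ x = c * z := by
        intro x hx
        refine ⟨x / c, hMD _ ?_, by field_simp⟩
        rw [div_eq_mul_inv, map_mul]
        calc O₀.valuation x * O₀.valuation c⁻¹ ≤ 1 * O₀.valuation c⁻¹ := by
              have := (O₀.valuation_le_one_iff _).2 hx
              gcongr
          _ < 1 := by rwa [one_mul]
      rcases hc with h | h
      · exact hc0 h
      · apply h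
        refine ⟨fun x y hx hy => hcD _ (O₀.add_mem _ _ (hDO x hx) (hDO y hy)),
          fun x y hx hy => hcD _ (O₀.mul_mem _ _ (hDO x hx) (hDO y hy)), fun x hx => hcD _ ?_⟩
        by_contra h1
        exact hx (hMD _ (val_lt_one_of_inv_notMem h1))
    · intro hc
      have hc : c ∈ O₀ := hc
      by_contra hcW
      have hcW : ¬ (c = 0 ∨ ¬ SC D c) := hcW
      push Not at hcW
      obtain ⟨hc0, hS1, hS2, hS3⟩ := hcW
      -- `c` is a unit
      have hcu : IsUnit (⟨c, hc⟩ : O₀) := by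
        by_contra hcu
        have hcv : O₀.valuation c < 1 := (O₀.valuation_lt_one_iff ⟨c, hc⟩).1 hcu
        have hcz : ∀ z ∈ D, O₀.valuation (c * z) < 1 := by
          intro z hz
          rw [map_mul]
          calc O₀.valuation c * O₀.valuation z ≤ O₀.valuation c * 1 := by
                have := (O₀.valuation_le_one_iff _).2 (hDO z hz)
                gcongr
            _ < 1 := by rwa [mul_one]
        have h1D : (1 : K) ∉ D := by
          intro h
          obtain ⟨z, hz, e⟩ := hS1 1 0 h h0D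
          have := hcz z hz
          rw [← e, add_zero, map_one] at this
          exact lt_irrefl _ this
        obtain ⟨z, hz, e⟩ := hS3 1 h1D
        have := hcz z hz
        rw [← e, inv_one, map_one] at this
        exact lt_irrefl _ this
      set c' : O₀ := ⟨c, hc⟩ with hc'
      have hres : ∀ x : O₀, residue O₀ x ≠ 0 → IsUnit x := by
        intro x hx
        rwa [Ne, residue_eq_zero_iff, mem_maximalIdeal, mem_nonunits_iff, not_not] at hx
      let E : Set (ResidueField O₀) := {e | ∃ x : O₀, (x : K) ∈ D ∧ residue O₀ x = e}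
      have hVE : VE E (residue O₀ c') := by
        refine ⟨⟨0, h0D, map_zero _⟩, ?_, ?_, ?_, ?_, ?_⟩
        · intro h
          rw [residue_eq_zero_iff, mem_maximalIdeal, mem_nonunits_iff] at h
          exact h hcu
        · rintro _ ⟨x, hx, rfl⟩ _ ⟨y, hy, rfl⟩
          obtain ⟨z, hz, e⟩ := hS1 _ _ hx hy
          refine ⟨_, ⟨⟨z, hDO z hz⟩, hz, rfl⟩, ?_⟩
          rw [← map_add, ← map_mul]
          congr 1
          exact Subtype.ext e
        · rintro _ ⟨x, hx, rfl⟩ _ ⟨y, hy, rfl⟩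
          obtain ⟨z, hz, e⟩ := hS2 _ _ hx hy
          refine ⟨_, ⟨⟨z, hDO z hz⟩, hz, rfl⟩, ?_⟩
          rw [← map_mul, ← map_mul]
          congr 1
          exact Subtype.ext e
        · intro e he
          obtain ⟨x, rfl⟩ := residue_surjective e
          have hx0 : residue O₀ x ≠ 0 := by
            intro h
            exact he ⟨0, h0D, by rw [h, map_zero]⟩
          have hxD : (x : K) ∉ D := fun h => he ⟨x, h, rfl⟩
          have hxne : (x : K) ≠ 0 := by
            intro h
            exact hxD (h ▸ h0D)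
          obtain ⟨z, hz, e1⟩ := hS3 _ hxD
          refine ⟨_, ⟨⟨z, hDO z hz⟩, hz, rfl⟩, ?_⟩
          rw [inv_eq_iff_eq_inv, ← map_mul]
          symm
          apply inv_eq_of_mul_eq_one_left
          rw [← map_mul, ← map_one (residue O₀)]
          congr 1
          apply Subtype.ext
          change (x : K) * (c * z) = 1
          rw [← e1, mul_inv_cancel₀ hxne]
        · refine ⟨residue O₀ ⟨a, haO⟩ - 1, ?_⟩
          rintro ⟨z, hz, e⟩
          have h1 : residue O₀ ⟨a, haO⟩ = residue O₀ (1 + z) := by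
            rw [map_add, map_one, e]; ring
          have hau : IsUnit (⟨a, haO⟩ : O₀) := (O₀.valuation_eq_one_iff _).2 ha1
          refine ha2 (lift_T hT hcomp ⟨a, haO⟩ (by
            intro h
            rw [residue_eq_zero_iff, mem_maximalIdeal, mem_nonunits_iff] at h
            exact h hau) ⟨1 + z, by simpa using hz.1, h1.symm⟩)
      exact hnot ⟨c', hVE⟩
  exact ⟨O₀, ⟨a, haO⟩, c', hcomp, fun O hO => hle hO, ha1, ha2, hDO, hc'⟩

end

section

variable {K : Type u} [Field K] {ℓ : ℕ} {T : Set K}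

/-- The VC condition for the residue field. -/
theorem exists_vc [CompatibleRing K] (hK : NIP K) (hT : PowGrp ℓ T)
    (hTdef : (univ : Set K).Definable₁ Language.ring T) {O₀ : ValuationSubring K}
    (hcomp : CompatT T O₀) (B : ValuationSubring (ResidueField O₀)) :
    ∃ n : ℕ, ∀ b : Fin n → ResidueField O₀, ∃ J : Finset (Fin n), ∀ x : ResidueField O₀,
      (∀ i, B.valuation (b i * x) < 1) → ∃ i, ¬ (1 + b i * x ∈ resT T O₀ ↔ i ∈ J) := by
  classical
  have hR : (univ : Set K).Definable Language.ring {w : Fin 1 ⊕ Fin 1 → K |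
      1 + w (Sum.inl 0) * w (Sum.inr 0) ∈ T} :=
    def_mem hTdef (dfun_add dfun_one (dfun_mul (dfun_var _) (dfun_var _)))
  obtain ⟨A, hA, hAR⟩ := definable_iff_finitely_definable.1 hR
  obtain ⟨n, hn⟩ := hK.definable (A : Set K) A.finite_toSet _ hAR
  refine ⟨n, fun b => ?_⟩
  by_contra hcon
  push Not at hcon
  choose x hx hxJ using hcon
  choose β hβ using fun i => residue_surjective (R := O₀) (b i)
  choose ξ hξ using fun J => residue_surjective (R := O₀) (x J)
  obtain ⟨i, J, hiJ⟩ := hn (fun i _ => (β i : K)) (fun J _ => (ξ J : K))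
  apply hiJ
  rw [← hxJ J i]
  have h1 : residue O₀ (1 + β i * ξ J) = 1 + b i * x J := by
    rw [map_add, map_one, map_mul, hβ, hξ]
  have h2 : residue O₀ (1 + β i * ξ J) ≠ 0 := by
    rw [h1]
    intro h
    have := Valuation.map_one_add_of_lt B.valuation (hx J i)
    rw [h, map_zero] at this
    exact zero_ne_one this
  constructor
  · intro h
    exact ⟨1 + β i * ξ J, by simpa using h, h1⟩
  · intro h
    have := lift_T hT hcomp (1 + β i * ξ J) h2 (by rw [h1]; exact h)
    simpa using this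

end

theorem exists_definable_of_compatT {K : Type u} [Field K] [CompatibleRing K] (hK : NIP K)
    {ℓ : ℕ} (hℓ : 2 ≤ ℓ) {T : Set K} (hT : PowGrp ℓ T) (hT0 : (0 : K) ∈ T)
    (hTdef : (univ : Set K).Definable₁ Language.ring T)
    (hR : ∃ R : Finset K, ∀ x : K, x ≠ 0 → ∃ r ∈ R, r ≠ 0 ∧ x / r ∈ T)
    (hnp : ∃ a : K, a ∉ T) (hi : ∃ i : K, i ^ 2 = -1)
    (hcomp : ∃ O : ValuationSubring K, CompatT T O) :
    ∃ O' : ValuationSubring K, O' ≠ ⊤ ∧
      (univ : Set K).Definable₁ Language.ring {x | x ∈ O'} := by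
  by_cases hX : ∃ O : ValuationSubring K, CompatT T O ∧ ∀ u, O.valuation u = 1 → u ∈ T
  · obtain ⟨O, hO, hu⟩ := hX
    obtain ⟨π, hπ⟩ := hnp
    have hπ0 : π ≠ 0 := by rintro rfl; exact hπ hT0
    obtain ⟨O', hO'1, hO'2, hO'3⟩ := caseXT hT hTdef hℓ hO hπ0 (by
      intro t ht hπt
      have hvπ : O.valuation π ≠ 0 := (map_ne_zero _).2 hπ0
      have ht0 : t ≠ 0 := by
        rintro rfl
        rw [map_zero] at hπt
        exact hvπ hπt
      have h1 := hu (π / t) (by rw [map_div₀, hπt, div_self]; rwa [← hπt])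
      apply hπ
      rw [← div_mul_cancel₀ π ht0]
      exact hT.mul _ h1 _ ht)
    exact ⟨O', hO'2, hO'3⟩
  push Not at hX
  obtain ⟨O₁, hO₁⟩ := hcomp
  rcases caseYT_gen hT hTdef hO₁ hnp hT0 hX with ⟨O', h1, h2⟩ |
    ⟨O₀, a, c', hcO, hle, ha1, ha2, hDO, hVE⟩
  · exact ⟨O', h1.1, h2⟩
  set E : Set (ResidueField O₀) :=
    {e | ∃ x : O₀, (x : K) ∈ DYT T (a : K) ∧ residue O₀ x = e} with hE
  have hTr : PowGrp ℓ (resT T O₀) := powGrp_resT hT
  have hau : IsUnit a := (O₀.valuation_eq_one_iff _).2 ha1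
  have hra : residue O₀ a ≠ 0 := by
    intro h
    rw [residue_eq_zero_iff, mem_maximalIdeal, mem_nonunits_iff] at h
    exact h hau
  have hraT : residue O₀ a ∉ resT T O₀ := fun h => ha2 (lift_T hT hcO a hra h)
  have h1E : ∀ z ∈ E, 1 + 1 * z ∈ resT T O₀ := by
    rintro _ ⟨x, hx, rfl⟩
    refine ⟨1 + x, by simpa using hx.1, ?_⟩
    rw [one_mul, map_add, map_one]
  -- no compatible ring on the residue field
  have hno : ∀ B : ValuationSubring (ResidueField O₀), B ≠ ⊤ →
      ¬ ∀ m, B.valuation m < 1 → 1 + m ∈ resT T O₀ := by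
    intro B hB hBT
    apply hB
    rw [eq_top_iff]
    intro e _
    obtain ⟨x, rfl⟩ := residue_surjective e
    have h7 : (x : K) ∈ compRing O₀ B := hle _ (compatT_compRing hT hcO hBT) x.2
    obtain ⟨_, h8⟩ := h7
    exact h8
  by_cases hZ : ∀ s : ResidueField O₀, s ≠ 0 → ∃ n : ℕ, ¬ LL E (n : ResidueField O₀) s
  · exfalso
    obtain ⟨i, hi⟩ := hi
    have hiv : O₀.valuation i = 1 := by
      have h2 : O₀.valuation i ^ 2 = 1 := by
        rw [← map_pow, hi, Valuation.map_neg, map_one]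
      exact (pow_eq_one_iff_of_nonneg zero_le two_ne_zero).1 h2
    have hiO : i ∈ O₀ := (O₀.valuation_le_one_iff _).1 hiv.le
    have hri : (residue O₀ ⟨i, hiO⟩) ^ 2 = -1 := by
      rw [← map_pow, ← map_one (residue O₀), ← map_neg]
      congr 1
      exact Subtype.ext hi
    exact hraT (hVE.mem_of_unbounded hri hZ hTr one_ne_zero h1E _ hra)
  push Not at hZ
  by_cases hPB : ∀ x, PB E x
  · exfalso
    obtain ⟨B, hB1, hB2⟩ := hVE.case2T hTr one_ne_zero h1E hPB
    exact hno B hB1 hB2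
  push Not at hPB
  obtain ⟨B, hB1, ⟨d₁, hd₁0, hd₁⟩, ⟨d₂, hd₂0, hd₂⟩, hrk⟩ := hVE.exists_rank_one hZ hPB
  have hRr : ∃ R : Finset (ResidueField O₀), ∀ x : ResidueField O₀, x ≠ 0 →
      ∃ r ∈ R, r ≠ 0 ∧ x / r ∈ resT T O₀ := by
    classical
    obtain ⟨R, hR⟩ := hR
    have hch : ∀ r : K, ∃ u : O₀, (∃ u' : O₀, IsUnit u' ∧ (u' : K) / r ∈ T) →
        IsUnit u ∧ (u : K) / r ∈ T := by
      intro r
      by_cases h : ∃ u' : O₀, IsUnit u' ∧ (u' : K) / r ∈ T
      · obtain ⟨u', h1⟩ := h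
        exact ⟨u', fun _ => h1⟩
      · exact ⟨0, fun h' => absurd h' h⟩
    choose u hu using hch
    refine ⟨R.image (fun r => residue O₀ (u r)), fun x hx => ?_⟩
    obtain ⟨x, rfl⟩ := residue_surjective x
    have hxu : IsUnit x := isUnit_of_residue_ne hx
    have hxv : O₀.valuation (x : K) = 1 := (O₀.valuation_eq_one_iff x).1 hxu
    have hx0 : (x : K) ≠ 0 := by
      intro h; rw [h, map_zero] at hxv; exact zero_ne_one hxv
    obtain ⟨r, hrR, hr0, hrT⟩ := hR x hx0
    obtain ⟨h1, h2⟩ := hu r ⟨x, hxu, hrT⟩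
    have hrv : O₀.valuation (u r : K) = 1 := (O₀.valuation_eq_one_iff _).1 h1
    have hur0 : (u r : K) ≠ 0 := by
      intro h; rw [h, map_zero] at hrv; exact zero_ne_one hrv
    have hru : residue O₀ (u r) ≠ 0 := by
      intro h
      rw [residue_eq_zero_iff, mem_maximalIdeal, mem_nonunits_iff] at h
      exact h h1
    refine ⟨_, Finset.mem_image_of_mem _ hrR, hru, ?_⟩
    have h3 : (x : K) / (u r : K) ∈ O₀ := by
      rw [← O₀.valuation_le_one_iff, map_div₀, hxv, hrv, div_one]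
    refine ⟨⟨_, h3⟩, ?_, ?_⟩
    · have h4 : (x : K) / (u r : K) = (x : K) / r * ((u r : K) / r)⁻¹ := by
        field_simp
      change (x : K) / (u r : K) ∈ T
      rw [h4]
      exact hT.mul _ hrT _ (hT.inv _ h2)
    · rw [eq_div_iff hru, ← map_mul]
      congr 1
      exact Subtype.ext (div_mul_cancel₀ _ hur0)
  rcases lattice hTr hRr hd₂0 (fun x hx => by
      have := h1E _ (hd₂ x hx)
      rwa [one_mul] at this) hrk (exists_vc hK hT hTdef hcO B) with h | ⟨π, hπ1, hπ⟩
  · exact absurd h (hno B hB1)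
  -- the valuation ring `B` is discrete
  have hπ0 : π ≠ 0 := by
    rintro rfl
    apply hB1
    rw [eq_top_iff]
    intro x _
    by_contra hx
    have hx0 : x ≠ 0 := by rintro rfl; exact hx B.zero_mem
    have h1 : B.valuation x⁻¹ < 1 := val_lt_one_of_inv_notMem (by rwa [inv_inv])
    have h2 := hπ _ h1
    rw [map_zero] at h2
    exact (map_ne_zero B.valuation).2 (inv_ne_zero hx0) (le_antisymm h2 zero_le)
  have hvπ : B.valuation π ≠ 0 := (map_ne_zero _).2 hπ0
  have hanti : ∀ {i j : ℕ}, i ≤ j → B.valuation (π ^ j) ≤ B.valuation (π ^ i) := by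
    intro i j hij
    rw [map_pow, map_pow]
    exact pow_le_pow_of_le_one zero_le hπ1.le hij
  obtain ⟨n₁, hn₁⟩ := hrk π hπ1 d₂ hd₂0
  obtain ⟨n₂, hn₂⟩ := hrk π hπ1 π hπ0
  obtain ⟨n₃, hn₃⟩ := hrk π hπ1 (d₂ / residue O₀ a) (div_ne_zero hd₂0 hra)
  obtain ⟨n₄, hn₄⟩ := hrk π hπ1 (π / residue O₀ a) (div_ne_zero hπ0 hra)
  set n := max (max n₁ n₂) (max n₃ n₄) with hn
  set w := π ^ n with hw
  have hw0 : w ≠ 0 := pow_ne_zero _ hπ0
  have w1 : B.valuation w ≤ B.valuation d₂ := (hanti (by omega)).trans hn₁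
  have w2 : B.valuation w ≤ B.valuation π := (hanti (by omega)).trans hn₂
  have w3 : B.valuation w ≤ B.valuation (d₂ / residue O₀ a) := (hanti (by omega)).trans hn₃
  have w4 : B.valuation w ≤ B.valuation (π / residue O₀ a) := (hanti (by omega)).trans hn₄
  have hvra : B.valuation (residue O₀ a) ≠ 0 := (map_ne_zero _).2 hra
  have w5 : B.valuation (residue O₀ a * w) ≤ B.valuation d₂ := by
    rw [map_mul]
    calc B.valuation (residue O₀ a) * B.valuation w
        ≤ B.valuation (residue O₀ a) * B.valuation (d₂ / residue O₀ a) := by gcongr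
      _ = B.valuation d₂ := by rw [← map_mul, mul_div_cancel₀ _ hra]
  have w6 : B.valuation (residue O₀ a * w) < 1 := by
    refine lt_of_le_of_lt ?_ hπ1
    rw [map_mul]
    calc B.valuation (residue O₀ a) * B.valuation w
        ≤ B.valuation (residue O₀ a) * B.valuation (π / residue O₀ a) := by gcongr
      _ = B.valuation π := by rw [← map_mul, mul_div_cancel₀ _ hra]
  have w7 : B.valuation w < 1 := lt_of_le_of_lt w2 hπ1
  obtain ⟨N', hN'⟩ := hrk π hπ1 (d₁ * w * π) (mul_ne_zero (mul_ne_zero hd₁0 hw0) hπ0)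
  obtain ⟨g, hg⟩ := residue_surjective (R := O₀) w
  have hgu : IsUnit g := isUnit_of_residue_ne (by rw [hg]; exact hw0)
  have hgv : O₀.valuation (g : K) = 1 := (O₀.valuation_eq_one_iff g).1 hgu
  -- elements of `d₂ B` with small residue
  have hin : ∀ y : O₀, B.valuation (residue O₀ y) ≤ B.valuation d₂ →
      B.valuation (residue O₀ y) < 1 → 1 + (y : K) ∈ T := by
    intro y hy1 hy2
    have h1 : residue O₀ (1 + y) ≠ 0 := by
      rw [map_add, map_one]
      intro h
      have := Valuation.map_one_add_of_lt B.valuation hy2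
      rw [h, map_zero] at this
      exact zero_ne_one this
    have h2 : residue O₀ y / d₂ ∈ B := by
      rw [← B.valuation_le_one_iff, map_div₀]
      exact div_le_one_of_le₀ hy1 zero_le
    have h3 := h1E _ (hd₂ _ h2)
    rw [one_mul, mul_div_cancel₀ _ hd₂0] at h3
    have h4 := lift_T hT hcO (1 + y) h1 (by rw [map_add, map_one]; exact h3)
    simpa using h4
  refine ⟨compRing O₀ B, compRing_ne_top hcO.1 B, ?_⟩
  have hdef : (univ : Set K).Definable₁ Language.ring {x : K | x ^ (N' + 1) * g ∈ DYT T (a : K)} :=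
    def_mem (def_DYT hTdef (a : K)) (dfun_mul (dfun_pow (dfun_var 0) _) (dfun_const (mem_univ _)))
  convert hdef using 1
  ext x
  constructor
  · intro hx
    obtain ⟨hxO, hxB⟩ := mem_compRing.1 hx
    have hvx : B.valuation (residue O₀ ⟨x, hxO⟩) ≤ 1 := (B.valuation_le_one_iff _).2 hxB
    have hvx' : B.valuation (residue O₀ ⟨x, hxO⟩) ^ (N' + 1) ≤ 1 := pow_le_one₀ zero_le hvx
    have hy : B.valuation (residue O₀ ((⟨x, hxO⟩ : O₀) ^ (N' + 1) * g)) ≤ B.valuation w := by
      rw [map_mul, map_mul, map_pow, map_pow, hg]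
      calc B.valuation (residue O₀ ⟨x, hxO⟩) ^ (N' + 1) * B.valuation w
          ≤ 1 * B.valuation w := by gcongr
        _ = B.valuation w := one_mul _
    refine ⟨?_, ?_⟩
    · have := hin ((⟨x, hxO⟩ : O₀) ^ (N' + 1) * g) (hy.trans w1) (lt_of_le_of_lt hy w7)
      simpa using this
    · have hy' : B.valuation (residue O₀ (a * ((⟨x, hxO⟩ : O₀) ^ (N' + 1) * g))) ≤
          B.valuation (residue O₀ a * w) := by
        rw [map_mul (residue O₀) a, map_mul B.valuation (residue O₀ a), map_mul B.valuation]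
        gcongr
      have := hin (a * ((⟨x, hxO⟩ : O₀) ^ (N' + 1) * g)) (hy'.trans w5) (lt_of_le_of_lt hy' w6)
      simpa using this
  · intro hx
    have hx : x ^ (N' + 1) * g ∈ DYT T (a : K) := hx
    have hxgO := hDO _ hx
    have hxO : x ∈ O₀ := by
      rw [← O₀.valuation_le_one_iff, map_mul, hgv, mul_one, map_pow] at hxgO
      rw [← O₀.valuation_le_one_iff]
      exact (pow_le_one_iff (Nat.succ_ne_zero _)).1 hxgO
    refine mem_compRing.2 ⟨hxO, ?_⟩
    by_contra hxB
    set e := residue O₀ ⟨x, hxO⟩ with he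
    have he0 : e ≠ 0 := by
      intro h
      rw [h] at hxB
      exact hxB B.zero_mem
    have h1 : B.valuation e⁻¹ ≤ B.valuation π :=
      hπ _ (val_lt_one_of_inv_notMem (by rwa [inv_inv]))
    have h2 : e ^ (N' + 1) * w ∈ E := by
      refine ⟨(⟨x, hxO⟩ : O₀) ^ (N' + 1) * g, by simpa using hx, ?_⟩
      rw [map_mul, map_pow, hg]
    have h3 : B.valuation (d₁ * (e ^ (N' + 1) * w)) ≤ 1 := (B.valuation_le_one_iff _).2 (hd₁ _ h2)
    have hew : d₁ * w = d₁ * (e ^ (N' + 1) * w) * e⁻¹ ^ (N' + 1) := by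
      have h8 : e ^ (N' + 1) * e⁻¹ ^ (N' + 1) = 1 := by
        rw [← mul_pow, mul_inv_cancel₀ he0, one_pow]
      calc d₁ * w = d₁ * w * (e ^ (N' + 1) * e⁻¹ ^ (N' + 1)) := by rw [h8, mul_one]
        _ = d₁ * (e ^ (N' + 1) * w) * e⁻¹ ^ (N' + 1) := by ring
    have h4 : B.valuation (d₁ * w) ≤ B.valuation (π ^ (N' + 1)) := by
      calc B.valuation (d₁ * w) = B.valuation (d₁ * (e ^ (N' + 1) * w)) *
            B.valuation e⁻¹ ^ (N' + 1) := by
            rw [← map_pow B.valuation, ← map_mul B.valuation, ← hew]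
        _ ≤ 1 * B.valuation π ^ (N' + 1) := by gcongr
        _ = B.valuation (π ^ (N' + 1)) := by rw [one_mul, map_pow]
    have h5 : B.valuation (d₁ * w) ≤ B.valuation (d₁ * w) * B.valuation π := by
      rw [← map_mul]
      exact h4.trans ((hanti (Nat.le_succ _)).trans hN')
    have h6 : B.valuation (d₁ * w) ≠ 0 := (map_ne_zero _).2 (mul_ne_zero hd₁0 hw0)
    have h7 : B.valuation (d₁ * w) * B.valuation π < B.valuation (d₁ * w) * 1 :=
      mul_lt_mul_of_pos_left hπ1 (zero_lt_iff.2 h6)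
    rw [mul_one] at h7
    exact absurd h5 (not_le.2 h7)

end Pool.Agent.NIPFields.LC
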