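import Mathlib
import Pool.Agent.NIPFields.LC.GermSet
import Pool.Agent.NIPFields.LC.DV

set_option autoImplicit false

/-!
# A compatible valuation ring in the ultrapower
-/

namespace Pool.Agent.NIPFields.LC

open FirstOrder FirstOrder.Language FirstOrder.Ring Set Filter
open Pool.Agent.NIPFields.FI

universe u

section

variable {L : Type u} [Field L] {U : Set L} {c : L}

/-- finitely many elements have a common upper bound -/
theorem ub_finset (hE : VE U c) (F : Finset L) :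
    ∃ w, w ≠ 0 ∧ ∀ a ∈ F, LL U a w := by
  classical
  induction F using Finset.induction_on with
  | empty => exact ⟨1, one_ne_zero, fun a ha => absurd ha (Finset.notMem_empty a)⟩
  | insert b s _ ih =>
    obtain ⟨w, hw, h⟩ := ih
    by_cases hb : b = 0
    · refine ⟨w, hw, fun a ha => ?_⟩
      rcases Finset.mem_insert.1 ha with rfl | ha
      · rw [hb]; exact hE.zero_LL _
      · exact h a ha
    · obtain ⟨w', hw', h1, h2⟩ := hE.exists_ub hw hb
      refine ⟨w', hw', fun a ha => ?_⟩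
      rcases Finset.mem_insert.1 ha with rfl | ha
      · exact h2
      · exact (h a ha).trans h1

/-- The elements of the ultrapower which are bounded by elements of the field. -/
noncomputable def bddRing (hE : VE U c) :
    ValuationSubring (Germ (UF L : Filter (Finset L)) L) where
  carrier := {x | ∃ a : L, a ≠ 0 ∧ ∃ z ∈ GS U, x = cst a * z}
  mul_mem' := by
    rintro x y ⟨a, ha, z, hz, rfl⟩ ⟨b, hb, w, hw, rfl⟩
    obtain ⟨v, hv, e⟩ := (VE_GS hE).mul z hz w hw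
    refine ⟨a * b * c, mul_ne_zero (mul_ne_zero ha hb) hE.c0, v, hv, ?_⟩
    rw [cst_mul, cst_mul, mul_assoc (cst a * cst b), ← e]
    ring
  one_mem' := by
    obtain ⟨z, hz, e⟩ := (VE_GS hE).one_mem
    exact ⟨c, hE.c0, z, hz, e⟩
  zero_mem' := ⟨1, one_ne_zero, 0, (VE_GS hE).zero, by rw [mul_zero]⟩
  add_mem' := by
    rintro x y ⟨a, ha, z, hz, rfl⟩ ⟨b, hb, w, hw, rfl⟩
    obtain ⟨d, hd, h1, h2⟩ := hE.exists_ub ha hb
    obtain ⟨z', hz', e1⟩ := LL_GS h1 z hz
    obtain ⟨w', hw', e2⟩ := LL_GS h2 w hw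
    obtain ⟨v, hv, e⟩ := (VE_GS hE).add z' hz' w' hw'
    refine ⟨d * c, mul_ne_zero hd hE.c0, v, hv, ?_⟩
    rw [e1, e2, ← mul_add, e, cst_mul, mul_assoc]
  neg_mem' := by
    rintro x ⟨a, ha, z, hz, rfl⟩
    refine ⟨-a, neg_ne_zero.2 ha, z, hz, ?_⟩
    rw [← neg_mul]
    rfl
  mem_or_inv_mem' := by
    intro x
    by_cases hx : x ∈ GS U
    · exact Or.inl ⟨1, one_ne_zero, x, hx, by rw [cst_one, one_mul]⟩
    · obtain ⟨z, hz, e⟩ := (VE_GS hE).inv x hx
      exact Or.inr ⟨c, hE.c0, z, hz, e⟩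

theorem mem_bddRing {hE : VE U c} {x : Germ (UF L : Filter (Finset L)) L} :
    x ∈ bddRing hE ↔ ∃ a : L, a ≠ 0 ∧ ∃ z ∈ GS U, x = cst a * z := Iff.rfl

theorem bddRing_ne_top (hE : VE U c) : bddRing hE ≠ ⊤ := by
  intro htop
  obtain ⟨e, he⟩ := hE.ne
  choose w hw0 hw using fun F : Finset L => ub_finset hE F
  have h1 : (↑(fun F => w F * e) : Germ (UF L : Filter (Finset L)) L) ∈ bddRing hE := by
    rw [htop]; trivial
  obtain ⟨a, ha, z, hz, h2⟩ := mem_bddRing.1 h1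
  induction z using Germ.inductionOn with | _ g
  rw [mem_GS] at hz
  unfold cst at h2
  rw [← Germ.coe_mul, Germ.coe_eq] at h2
  obtain ⟨F, h3, h4, h5⟩ := (hz.and (h2.and (eventually_mem a))).exists
  simp only [Pi.mul_apply] at h4
  obtain ⟨z', hz', e'⟩ := hw F a h5 (g F) h3
  rw [e'] at h4
  exact he (mul_left_cancel₀ (hw0 F) h4 ▸ hz')

theorem compatT_bddRing (hE : VE U c) {ℓ : ℕ} {H : Set L} (hH : PowGrp ℓ H) {t : L}
    (ht : t ≠ 0) (htU : ∀ z ∈ U, 1 + t * z ∈ H) : CompatT (GS H) (bddRing hE) := by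
  refine ⟨bddRing_ne_top hE, fun m hm => ?_⟩
  by_cases hm0 : m = 0
  · rw [hm0, add_zero]; exact (powGrp_GS hH).one
  have hminv : m⁻¹ ∉ bddRing hE := by
    intro h1
    have h2 : (bddRing hE).valuation m⁻¹ ≤ 1 := ((bddRing hE).valuation_le_one_iff _).2 h1
    rw [map_inv₀] at h2
    have h3 : 1 < ((bddRing hE).valuation m)⁻¹ :=
      (one_lt_inv₀ (zero_lt_iff.2 ((map_ne_zero _).2 hm0))).2 hm
    exact absurd h2 (not_le.2 h3)
  have hct : c / t ≠ 0 := div_ne_zero hE.c0 ht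
  have h1 : m⁻¹ / cst (c / t) ∉ GS U := by
    intro h
    exact hminv (mem_bddRing.2 ⟨c / t, hct, _, h, (mul_div_cancel₀ _ (cst_ne hct)).symm⟩)
  obtain ⟨z, hz, e⟩ := (VE_GS hE).inv _ h1
  have h2 : m = cst t * z := by
    have h3 : (m⁻¹ / cst (c / t))⁻¹ = m * cst (c / t) := by
      rw [inv_div, div_inv_eq_mul, mul_comm]
    rw [h3, cst_div, mul_div_assoc'] at e
    have ht' := cst_ne ht
    have hc' := cst_ne hE.c0
    field_simp at e
    exact e
  rw [h2]
  induction z using Germ.inductionOn with | _ g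
  rw [mem_GS] at hz
  unfold cst
  rw [← Germ.coe_mul, ← Germ.coe_one, ← Germ.coe_add, mem_GS]
  filter_upwards [hz] with s hs
  exact htU _ hs

end

theorem exists_definable_of_VE {L : Type u} [Field L] [CompatibleRing L] (hL : NIP L)
    {ℓ : ℕ} (hℓ : 2 ≤ ℓ) (hfin : ((powMonoidHom ℓ : Lˣ →* Lˣ).range).FiniteIndex)
    (hi : ∃ i : L, i ^ 2 = -1) {H U : Set L} {c t : L}
    (hH : (univ : Set L).Definable₁ Language.ring H)
    (hU : (univ : Set L).Definable₁ Language.ring U) (hHg : PowGrp ℓ H) (hH0 : (0 : L) ∈ H)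
    (hHn : ∃ a, a ∉ H) (hVE : VE U c) (ht : t ≠ 0) (htU : ∀ z ∈ U, 1 + t * z ∈ H) :
    ∃ O' : ValuationSubring L, O' ≠ ⊤ ∧
      (univ : Set L).Definable₁ Language.ring {x | x ∈ O'} := by
  let _ : CompatibleRing (Germ (UF L : Filter (Finset L)) L) := germCompat (UF L) L
  obtain ⟨O, hO, hOdef⟩ := exists_definable_of_compatT
    (K := Germ (UF L : Filter (Finset L)) L) (NIP.germ hL) hℓ (powGrp_GS hHg)
    (by rw [← cst_zero, cst_mem_GS]; exact hH0) (def_GS hH) (exists_reps_GS hHg hfin)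
    (by
      obtain ⟨a, ha⟩ := hHn
      exact ⟨cst a, fun h => ha (cst_mem_GS.1 h)⟩)
    (by
      obtain ⟨i, hi⟩ := hi
      exact ⟨cst i, by rw [← cst_pow, hi]; rfl⟩)
    ⟨bddRing hVE, compatT_bddRing hVE hHg ht htU⟩
  exact exists_definable_of_germ O hO hOdef

end Pool.Agent.NIPFields.LC
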