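import Mathlib
import Pool.Agent.NIPFields.Hens

set_option autoImplicit false

/-!
# Hensel's lemma from connectedness of the integral closure modulo `J`
-/

namespace Pool.Agent.NIPFields.LC

open FirstOrder FirstOrder.Language FirstOrder.Ring Set Filter IsLocalRing Polynomial

section

variable {O : Type*} [CommRing O] [IsDomain O] [ValuationRing O] {K : Type*} [Field K]
  [Algebra O K] [IsFractionRing O K] {L : Type*} [Field L] [Algebra K L] [FiniteDimensional K L]
  [Algebra O L] [IsScalarTower O K L]

/-- The key lemma: Hensel's lemma from the connectedness of the spectrum of the integral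
closure modulo `J`. -/
theorem exists_root_of_conn [Normal K L]
    (hS : ∀ x : integralClosure O L, x * (x - 1) ∈ JId O L → x ∈ JId O L ∨ x - 1 ∈ JId O L)
    (f : O[X]) (hf : f.Monic) (hsplit : (f.map (algebraMap O L)).Splits) (a₀ : O)
    (h0 : f.eval a₀ ∈ maximalIdeal O) (h1 : IsUnit (f.derivative.eval a₀)) :
    ∃ a : O, f.IsRoot a ∧ a - a₀ ∈ maximalIdeal O := by
  classical
  let B := integralClosure O L
  obtain ⟨n, hn⟩ := Ideal.exists_maximal B
  have hJn : JId O L ≤ n := JId_le n
  have hOJ : ∀ m ∈ maximalIdeal O, ∀ b : B, algebraMap O B m * b ∈ JId O L := fun m hm b =>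
    Ideal.mul_mem_right _ _ (Ideal.mem_map_of_mem _ hm)
  -- decompositions
  set c := f.eval a₀ with hc
  set g := f /ₘ (X - C a₀) with hg
  have hfg : f = (X - C a₀) * g + C c := by
    have h2 := modByMonic_add_div f (q := X - C a₀)
    rw [modByMonic_X_sub_C_eq_C_eval] at h2
    rw [add_comm]
    exact h2.symm
  have hfu : f.derivative.eval a₀ = g.eval a₀ := by
    conv_lhs => rw [hfg]
    simp
  set u := g.eval a₀ with hu
  rw [hfu] at h1
  obtain ⟨w, hw⟩ := h1
  set h := g /ₘ (X - C a₀) with hh
  have hgh : g = (X - C a₀) * h + C u := by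
    have h2 := modByMonic_add_div g (q := X - C a₀)
    rw [modByMonic_X_sub_C_eq_C_eval] at h2
    rw [add_comm]
    exact h2.symm
  -- the approximate idempotents
  let ε : B → B := fun α => algebraMap O B (↑w⁻¹ : O) * aeval α g
  have hwu : algebraMap O B (↑w⁻¹ : O) * algebraMap O B u = 1 := by
    rw [← map_mul, ← hw, Units.inv_mul, map_one]
  have hε1 : ∀ α : B, ε α - 1 = algebraMap O B (↑w⁻¹ : O) * ((α - algebraMap O B a₀) * aeval α h) := by
    intro α
    have h2 : aeval α g = (α - algebraMap O B a₀) * aeval α h + algebraMap O B u := by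
      conv_lhs => rw [hgh]
      simp
    simp only [ε]
    rw [h2, mul_add, hwu]
    ring
  have hroot : ∀ α : B, aeval α f = 0 → (α - algebraMap O B a₀) * aeval α g = -algebraMap O B c := by
    intro α hα
    rw [hfg] at hα
    simp only [map_add, map_mul, map_sub, aeval_X, aeval_C] at hα
    exact eq_neg_of_add_eq_zero_left hα
  have hεJ : ∀ α : B, aeval α f = 0 → ε α ∈ JId O L ∨ ε α - 1 ∈ JId O L := by
    intro α hα
    have h2 : ε α * (ε α - 1) ∈ JId O L := by
      have h3 : ε α * (ε α - 1) = algebraMap O B c *
          (-(algebraMap O B (↑w⁻¹ : O) * algebraMap O B (↑w⁻¹ : O) * aeval α h)) := by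
        rw [hε1]
        simp only [ε]
        linear_combination (algebraMap O B (↑w⁻¹ : O) * algebraMap O B (↑w⁻¹ : O) * aeval α h) *
          hroot α hα
      rw [h3]
      exact hOJ c h0 _
    exact hS _ h2
  -- the roots
  have hallint : ∀ r ∈ (f.map (algebraMap O L)).roots, ∃ b : B, (b : L) = r := by
    intro r hr
    rw [mem_roots (hf.map _).ne_zero, IsRoot.def, eval_map] at hr
    exact ⟨⟨r, f, hf, hr⟩, rfl⟩
  obtain ⟨s, hs⟩ : ∃ s : Multiset B, s.map (fun b : B => (b : L)) =
      (f.map (algebraMap O L)).roots := by
    choose! b hb using hallint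
    refine ⟨(f.map (algebraMap O L)).roots.map b, ?_⟩
    rw [Multiset.map_map]
    conv_rhs => rw [← Multiset.map_id (f.map (algebraMap O L)).roots]
    exact Multiset.map_congr rfl (fun r hr => hb r hr)
  have hfac : f.map (algebraMap O B) = (s.map (fun b => X - C b)).prod := by
    apply map_injective (algebraMap B L) Subtype.val_injective
    rw [Polynomial.map_map, ← IsScalarTower.algebraMap_eq, Polynomial.map_multiset_prod,
      Multiset.map_map]
    have h2 := hsplit.eq_prod_roots_of_monic (hf.map _)
    conv_lhs => rw [h2, ← hs, Multiset.map_map]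
    congr 1
    refine Multiset.map_congr rfl (fun b _ => ?_)
    simp only [Function.comp_apply, Polynomial.map_sub, map_X, map_C]
    rfl
  have hcprod : algebraMap O B c = (s.map (fun b => algebraMap O B a₀ - b)).prod := by
    have h2 : algebraMap O B c = (f.map (algebraMap O B)).eval (algebraMap O B a₀) := by
      rw [hc, eval_map_algebraMap, aeval_algebraMap_apply]
      simp
    rw [h2, hfac, eval_multiset_prod, Multiset.map_map]
    congr 1
    refine Multiset.map_congr rfl (fun b _ => ?_)
    simp
  obtain ⟨α, hαs, hαn⟩ : ∃ α ∈ s, algebraMap O B a₀ - α ∈ n := by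
    have h2 : (s.map (fun b => algebraMap O B a₀ - b)).prod ∈ n := by
      rw [← hcprod]
      exact hJn (Ideal.mem_map_of_mem _ h0)
    rw [hn.isPrime.multiset_prod_mem_iff_exists_mem] at h2
    obtain ⟨y, hy, hyn⟩ := h2
    rw [Multiset.mem_map] at hy
    obtain ⟨α, hα, rfl⟩ := hy
    exact ⟨α, hα, hyn⟩
  have hαroot : aeval α f = 0 := by
    rw [← eval_map_algebraMap, hfac, eval_multiset_prod, Multiset.map_map]
    refine Multiset.prod_eq_zero ?_
    rw [Multiset.mem_map]
    exact ⟨α, hαs, by simp⟩
  have hαn' : α - algebraMap O B a₀ ∈ n := by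
    have := n.neg_mem hαn
    rwa [neg_sub] at this
  have hεα : ε α - 1 ∈ JId O L := by
    rcases hεJ α hαroot with h2 | h2
    · exfalso
      have h3 : ε α - 1 ∈ n := by
        rw [hε1]
        exact n.mul_mem_left _ (n.mul_mem_right _ hαn')
      have h4 : (1 : B) ∈ n := by
        have := n.sub_mem (hJn h2) h3
        rwa [sub_sub_cancel] at this
      exact hn.ne_top ((Ideal.eq_top_iff_one _).2 h4)
    · exact h2
  -- uniqueness
  have huniq : ∀ β : B, aeval β f = 0 → β - algebraMap O B a₀ ∈ n → β = α := by
    intro β hβ hβn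
    by_contra hne
    have e1 : f.map (algebraMap O B) = (X - C α) * ((f.map (algebraMap O B)) /ₘ (X - C α)) := by
      rw [mul_divByMonic_eq_iff_isRoot.2]
      rw [IsRoot.def, eval_map_algebraMap]
      exact hαroot
    set f₁ := (f.map (algebraMap O B)) /ₘ (X - C α) with hf₁
    have e2 : f₁.eval β = 0 := by
      have h2 : (f.map (algebraMap O B)).eval β = 0 := by
        rw [eval_map_algebraMap]; exact hβ
      rw [e1, eval_mul, eval_sub, eval_X, eval_C] at h2
      rcases mul_eq_zero.1 h2 with h3 | h3
      · exact absurd (sub_eq_zero.1 h3) hne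
      · exact h3
    have e3 : f₁ = (X - C β) * (f₁ /ₘ (X - C β)) := by
      rw [mul_divByMonic_eq_iff_isRoot.2 e2]
    have e4 : algebraMap O B u ∈ n := by
      have h2 : algebraMap O B u = (f.map (algebraMap O B)).derivative.eval (algebraMap O B a₀) := by
        rw [derivative_map, eval_map_algebraMap, aeval_algebraMap_apply, ← hfu]
        simp
      rw [h2, e1, derivative_mul, eval_add, eval_mul, eval_mul, derivative_sub, derivative_X,
        derivative_C, sub_zero, eval_one, one_mul, eval_sub, eval_X, eval_C]
      refine n.add_mem ?_ (n.mul_mem_right _ hαn)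
      rw [e3, eval_mul, eval_sub, eval_X, eval_C]
      refine n.mul_mem_right _ ?_
      have := n.neg_mem hβn
      rwa [neg_sub] at this
    have e5 : (1 : B) ∈ n := by
      rw [← hwu]
      exact n.mul_mem_left _ e4
    exact hn.ne_top ((Ideal.eq_top_iff_one _).2 e5)
  -- conjugates
  have hαint : IsIntegral K (α : L) := IsIntegral.of_finite K (α : L)
  have hconj : ∀ β : L, aeval β (minpoly K (α : L)) = 0 → β = α := by
    intro β hβ
    have h2 : IsConjRoot K β (α : L) := (isConjRoot_of_aeval_eq_zero hαint hβ).symm
    obtain ⟨σ, hσ⟩ := isConjRoot_iff_exists_algEquiv.1 h2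
    let β' : B := ⟨σ α, algEquiv_integral σ α⟩
    let σ' : B → B := fun b => ⟨σ b, algEquiv_integral σ b⟩
    have hσ'mul : ∀ x y, σ' (x * y) = σ' x * σ' y := fun x y => Subtype.ext (by simp [σ'])
    have hσ'alg : ∀ x : O, σ' (algebraMap O B x) = algebraMap O B x := by
      intro x
      apply Subtype.ext
      change σ (algebraMap O L x) = algebraMap O L x
      rw [IsScalarTower.algebraMap_apply O K L, AlgEquiv.commutes]
    have hσ'sub : ∀ x y, σ' (x - y) = σ' x - σ' y := fun x y => Subtype.ext (by simp [σ'])
    have hσ'J : ∀ x ∈ JId O L, σ' x ∈ JId O L := by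
      intro x hx
      obtain ⟨m, hm, b, rfl⟩ := mem_JId hx
      rw [Algebra.smul_def, hσ'mul, hσ'alg]
      exact hOJ m hm _
    have hσ'aeval : ∀ q : O[X], σ' (aeval α q) = aeval β' q := by
      intro q
      apply Subtype.ext
      have e1 : ((aeval α q : B) : L) = aeval (α : L) q :=
        (aeval_algHom_apply (integralClosure O L).val α q).symm
      have e2 : ((aeval β' q : B) : L) = aeval (β' : L) q :=
        (aeval_algHom_apply (integralClosure O L).val β' q).symm
      change σ ((aeval α q : B) : L) = ((aeval β' q : B) : L)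
      rw [e1, e2]
      exact (aeval_algHom_apply (σ.toAlgHom.restrictScalars O) (α : L) q).symm
    have hβ'root : aeval β' f = 0 := by
      rw [← hσ'aeval, hαroot]
      exact Subtype.ext (by simp [σ'])
    have hεβ : ε β' - 1 ∈ JId O L := by
      have h3 := hσ'J _ hεα
      have h4 : σ' (ε α - 1) = ε β' - 1 := by
        simp only [ε]
        rw [hσ'sub, hσ'mul, hσ'alg, hσ'aeval]
        congr 1
        exact Subtype.ext (by simp [σ'])
      rwa [h4] at h3
    have hβn : β' - algebraMap O B a₀ ∈ n := by
      have h3 : (β' - algebraMap O B a₀) * aeval β' g ∈ n := by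
        rw [hroot β' hβ'root]
        exact n.neg_mem (hJn (Ideal.mem_map_of_mem _ h0))
      rcases hn.isPrime.mem_or_mem h3 with h4 | h4
      · exact h4
      · exfalso
        have h5 : ε β' ∈ n := n.mul_mem_left _ h4
        have h6 : (1 : B) ∈ n := by
          have := n.sub_mem h5 (hJn hεβ)
          rwa [sub_sub_cancel] at this
        exact hn.ne_top ((Ideal.eq_top_iff_one _).2 h6)
    have h7 : β' = α := huniq β' hβ'root hβn
    rw [← hσ]
    exact congrArg Subtype.val h7
  -- separability
  have hdvd : minpoly K (α : L) ∣ f.map (algebraMap O K) := by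
    refine minpoly.dvd _ _ ?_
    rw [aeval_map_algebraMap]
    have := aeval_algHom_apply (integralClosure O L).val α f
    rw [hαroot, map_zero] at this
    exact this
  have hsep : (minpoly K (α : L)).Separable := by
    rw [separable_iff_derivative_ne_zero (minpoly.irreducible hαint)]
    intro hder
    obtain ⟨r, hr⟩ := hdvd
    have h2 : aeval α f.derivative = 0 := by
      apply Subtype.ext
      have e1 : ((aeval α f.derivative : B) : L) = aeval (α : L) f.derivative :=
        (aeval_algHom_apply (integralClosure O L).val α f.derivative).symm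
      rw [e1, ← aeval_map_algebraMap K, ← derivative_map, hr, derivative_mul, hder, zero_mul,
        zero_add, map_mul, minpoly.aeval, zero_mul]
      rfl
    have h3 : aeval α f.derivative - algebraMap O B (f.derivative.eval a₀) ∈ n := by
      have h4 : α - algebraMap O B a₀ ∣
          aeval α f.derivative - algebraMap O B (f.derivative.eval a₀) := by
        have h5 := sub_dvd_eval_sub α (algebraMap O B a₀) (f.derivative.map (algebraMap O B))
        rw [eval_map_algebraMap, eval_map_algebraMap, aeval_algebraMap_apply] at h5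
        simpa using h5
      exact n.mem_of_dvd h4 hαn'
    rw [h2, zero_sub, hfu] at h3
    have e5 : (1 : B) ∈ n := by
      rw [← hwu]
      have := n.mul_mem_left (-algebraMap O B (↑w⁻¹ : O)) h3
      simpa using this
    exact hn.ne_top ((Ideal.eq_top_iff_one _).2 e5)
  have hsplitmin : ((minpoly K (α : L)).map (algebraMap K L)).Splits := Normal.splits' (α : L)
  have hcard := card_rootSet_eq_natDegree hsep hsplitmin
  have hle : Fintype.card ((minpoly K (α : L)).rootSet L) ≤ 1 := by
    rw [Fintype.card_le_one_iff_subsingleton]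
    refine ⟨fun x y => Subtype.ext ?_⟩
    rw [hconj x ((mem_rootSet.1 x.2).2), hconj y ((mem_rootSet.1 y.2).2)]
  have hdeg : (minpoly K (α : L)).natDegree = 1 := by
    have := minpoly.natDegree_pos hαint
    omega
  obtain ⟨y, hy⟩ := minpoly.natDegree_eq_one_iff.1 hdeg
  have hyint : IsIntegral O y := by
    have h2 : IsIntegral O (algebraMap K L y) := by rw [hy]; exact α.2
    exact (isIntegral_algebraMap_iff (algebraMap K L).injective).1 h2
  obtain ⟨a, ha⟩ := IsIntegrallyClosed.isIntegral_iff.1 hyint
  have haα : algebraMap O B a = α := by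
    apply Subtype.ext
    rw [← hy, ← ha, ← IsScalarTower.algebraMap_apply]
    rfl
  have hinj : Function.Injective (algebraMap O B) := by
    intro x y hxy
    have h2 : algebraMap O L x = algebraMap O L y := congrArg Subtype.val hxy
    rw [IsScalarTower.algebraMap_apply O K L, IsScalarTower.algebraMap_apply O K L] at h2
    exact IsFractionRing.injective O K ((algebraMap K L).injective h2)
  refine ⟨a, ?_, ?_⟩
  · apply hinj
    have : aeval (algebraMap O B a) f = 0 := by rw [haα]; exact hαroot
    rw [aeval_algebraMap_apply] at this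
    rw [map_zero]
    simpa using this
  · refine mem_maximal_of_mem n ?_
    rw [map_sub, haα]
    exact hαn'

end

end Pool.Agent.NIPFields.LC
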