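import Mathlib
import Pool.Agent.NIPFields.IntCl

set_option autoImplicit false

/-!
# Localisations of the integral closure of a valuation ring
-/

namespace Pool.Agent.NIPFields.LC

open FirstOrder FirstOrder.Language FirstOrder.Ring Set Filter IsLocalRing Polynomial

section

/-- The coefficients trick, for a polynomial with coefficients in an integrally closed
subalgebra. -/
theorem exists_frac_of_aeval {O : Type*} [CommRing O] {L : Type*} [Field L] [Algebra O L]
    (x : L) (M : Ideal (integralClosure O L)) (hM : (1 : integralClosure O L) ∉ M) :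
    ∀ (n : ℕ) (p : (integralClosure O L)[X]), p.natDegree ≤ n → aeval x p = 0 →
      (∃ i, p.coeff i ∉ M) →
      ∃ b : integralClosure O L, b ∉ M ∧
        ((∃ a : integralClosure O L, (b : L) * x = a) ∨
          ∃ a : integralClosure O L, (b : L) * x⁻¹ = a) := by
  intro n
  induction n with
  | zero =>
    intro p hp hx hi
    exfalso
    have h1 : p = C (p.coeff 0) := eq_C_of_natDegree_le_zero hp
    rw [h1, aeval_C] at hx
    have h2 : p.coeff 0 = 0 := by
      apply Subtype.ext
      exact hx
    obtain ⟨i, hi⟩ := hi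
    apply hi
    rw [h1, h2]
    simp
  | succ n ih =>
    intro p hp hx hi
    by_cases hx0 : x = 0
    · exact ⟨1, hM, Or.inl ⟨0, by simp [hx0]⟩⟩
    by_cases hdeg : p.natDegree ≤ n
    · exact ih p hdeg hx hi
    have hdeg' : p.natDegree = n + 1 := by omega
    -- the leading coefficient
    have hint : IsIntegral (integralClosure O L) (p.leadingCoeff • x) :=
      isIntegral_leadingCoeff_smul p x hx
    have hint' : IsIntegral O (p.leadingCoeff • x) := isIntegral_trans _ hint
    obtain ⟨c, hc⟩ : ∃ c : integralClosure O L, (c : L) = (p.leadingCoeff : L) * x :=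
      ⟨⟨p.leadingCoeff • x, hint'⟩, rfl⟩
    by_cases hlead : p.leadingCoeff ∈ M
    swap
    · exact ⟨p.leadingCoeff, hlead, Or.inl ⟨c, hc.symm⟩⟩
    by_cases hcM : c ∈ M
    swap
    · refine ⟨c, hcM, Or.inr ⟨p.leadingCoeff, ?_⟩⟩
      rw [hc, mul_assoc, mul_inv_cancel₀ hx0, mul_one]
    -- reduce the degree
    have hq : aeval x (p.eraseLead + C c * X ^ n) = 0 := by
      rw [map_add, map_mul, aeval_C, map_pow, aeval_X]
      have h1 : aeval x p.eraseLead + (p.leadingCoeff : L) * x ^ (n + 1) = 0 := by
        rw [← hx]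
        conv_rhs => rw [← p.eraseLead_add_C_mul_X_pow]
        rw [map_add, map_mul, aeval_C, map_pow, aeval_X, hdeg']
        rfl
      rw [← h1]
      congr 1
      change (c : L) * x ^ n = _
      rw [hc, pow_succ]
      ring
    have hqd : (p.eraseLead + C c * X ^ n).natDegree ≤ n := by
      refine (natDegree_add_le _ _).trans (max_le ?_ (natDegree_C_mul_X_pow_le _ _))
      have h1 := p.eraseLead_natDegree_le
      omega
    refine ih _ hqd hq ?_
    obtain ⟨i, hi⟩ := hi
    refine ⟨i, ?_⟩
    have hin : i ≠ p.natDegree := by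
      rintro rfl
      exact hi hlead
    rw [coeff_add, eraseLead_coeff_of_ne _ hin, coeff_C_mul_X_pow]
    split_ifs with h
    · intro h1
      exact hi ((Ideal.add_mem_iff_left _ hcM).1 h1)
    · rwa [add_zero]

variable {O : Type*} [CommRing O] [IsDomain O] [ValuationRing O] (K : Type*) [Field K]
  [Algebra O K] [IsFractionRing O K] {L : Type*} [Field L] [Algebra K L] [FiniteDimensional K L]
  [Algebra O L] [IsScalarTower O K L]

include K in
/-- Algebraic elements are roots of polynomials over the valuation ring with a coefficient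
`1`. -/
theorem exists_poly_coeff_one (x : L) : ∃ p : O[X], aeval x p = 0 ∧ ∃ i, p.coeff i = 1 := by
  have halg : IsIntegral K x := Algebra.IsIntegral.isIntegral x
  let q := minpoly K x
  have hq0 : q ≠ 0 := minpoly.ne_zero halg
  let v := ValuationRing.valuation O K
  obtain ⟨i₀, hi₀m, hi₀⟩ := Finset.exists_max_image q.support (fun j => v (q.coeff j))
    (by rwa [Finset.nonempty_iff_ne_empty, Ne, support_eq_empty])
  have hc0 : q.coeff i₀ ≠ 0 := mem_support_iff.1 hi₀m
  have hmax : ∀ j, v (q.coeff j) ≤ v (q.coeff i₀) := by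
    intro j
    by_cases hj : q.coeff j = 0
    · rw [hj, map_zero]
      exact zero_le
    · exact hi₀ j (mem_support_iff.2 hj)
  have hex : ∀ j, ∃ a : O, algebraMap O K a = q.coeff j / q.coeff i₀ := by
    intro j
    have h1 : v (q.coeff j / q.coeff i₀) ≤ 1 := by
      rw [map_div₀]
      exact div_le_one_of_le₀ (hmax j) zero_le
    exact (ValuationRing.mem_integer_iff O K _).1 h1
  choose a ha using hex
  let p : O[X] := ∑ j ∈ Finset.range (q.natDegree + 1), C (a j) * X ^ j
  have hpc : ∀ j, p.coeff j = a j := by
    intro j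
    by_cases hj : j < q.natDegree + 1
    · simp only [p, finsetSum_coeff, coeff_C_mul_X_pow]
      rw [Finset.sum_ite_eq, if_pos (Finset.mem_range.2 hj)]
    · simp only [p, finsetSum_coeff, coeff_C_mul_X_pow]
      rw [Finset.sum_ite_eq, if_neg (by rwa [Finset.mem_range])]
      apply IsFractionRing.injective O K
      rw [ha, coeff_eq_zero_of_natDegree_lt (by omega), zero_div, map_zero]
  have hpmap : p.map (algebraMap O K) = C (q.coeff i₀)⁻¹ * q := by
    ext j
    rw [coeff_map, hpc, ha, coeff_C_mul, div_eq_inv_mul]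
  refine ⟨p, ?_, i₀, ?_⟩
  · have h1 : aeval x p = aeval x (p.map (algebraMap O K)) := by
      rw [aeval_map_algebraMap]
    rw [h1, hpmap, map_mul, minpoly.aeval, mul_zero]
  · apply IsFractionRing.injective O K
    rw [hpc, ha, div_self hc0, map_one]

include K in
/-- The coefficients trick: the localisations of the integral closure at its maximal ideals
are valuation rings. -/
theorem exists_frac_intCl (x : L) (M : Ideal (integralClosure O L)) [hM : M.IsMaximal] :
    ∃ b : integralClosure O L, b ∉ M ∧
      ((∃ a : integralClosure O L, (b : L) * x = a) ∨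
        ∃ a : integralClosure O L, (b : L) * x⁻¹ = a) := by
  obtain ⟨p, hp, i, hi⟩ := exists_poly_coeff_one (O := O) K x
  have h1 : (1 : integralClosure O L) ∉ M := (Ideal.ne_top_iff_one M).1 hM.ne_top
  refine exists_frac_of_aeval x M h1 _ (p.map (algebraMap O (integralClosure O L))) le_rfl ?_
    ⟨i, ?_⟩
  · rw [aeval_map_algebraMap, hp]
  · rw [coeff_map, hi, map_one]
    exact h1

include K in
/-- The integral closure has only finitely many maximal ideals. -/
theorem finite_maximal_intCl : Finite (MaximalSpectrum (integralClosure O L)) := by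
  by_contra hinf
  rw [not_finite_iff_infinite] at hinf
  obtain ⟨f⟩ : Nonempty (Fin (Module.finrank K L + 1) ↪ MaximalSpectrum (integralClosure O L)) :=
    ⟨(Fin.valEmbedding).trans (Infinite.natEmbedding _)⟩
  -- elements in all but one of the maximal ideals
  have hex : ∀ i, ∃ b : integralClosure O L, b ∉ (f i).asIdeal ∧
      ∀ j, j ≠ i → b ∈ (f j).asIdeal := by
    intro i
    by_contra hcon
    push Not at hcon
    have h1 : (Finset.univ.erase i).inf (fun j => (f j).asIdeal) ≤ (f i).asIdeal := by
      intro b hb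
      by_contra hbi
      obtain ⟨j, hj, hbj⟩ := hcon b hbi
      apply hbj
      exact (Finset.inf_le (f := fun j => (f j).asIdeal)
        (Finset.mem_erase.2 ⟨hj, Finset.mem_univ j⟩)) hb
    obtain ⟨j, hj, hji⟩ := ((f i).isMaximal.isPrime.inf_le').1 h1
    have h2 : (f j).asIdeal = (f i).asIdeal :=
      (f j).isMaximal.eq_of_le (f i).isMaximal.ne_top hji
    have h3 : f j = f i := MaximalSpectrum.ext h2
    exact (Finset.mem_erase.1 hj).1 (f.injective h3)
  choose b hb hb' using hex
  obtain ⟨a, ⟨i, hi⟩, hsum⟩ := exists_rel (O := O) K (fun i => Ideal.Quotient.mk (JId O L) (b i))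
  have h1 : ∑ j, a j • b j ∈ JId O L := by
    rw [← Ideal.Quotient.eq_zero_iff_mem, map_sum, ← hsum]
    rfl
  have hmax := (f i).isMaximal
  have h2 : ∑ j, a j • b j ∈ (f i).asIdeal := JId_le (f i).asIdeal h1
  rw [← Finset.add_sum_erase _ _ (Finset.mem_univ i)] at h2
  have h3 : ∑ j ∈ Finset.univ.erase i, a j • b j ∈ (f i).asIdeal := by
    refine Ideal.sum_mem _ (fun j hj => ?_)
    rw [Algebra.smul_def]
    exact Ideal.mul_mem_left _ _ (hb' j i (Finset.mem_erase.1 hj).1.symm)
  have h4 := (Ideal.add_mem_iff_left _ h3).1 h2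
  rw [Algebra.smul_def] at h4
  rcases hmax.isPrime.mem_or_mem h4 with h5 | h5
  · exact (mem_maximalIdeal _).1 (mem_maximal_of_mem (f i).asIdeal h5) hi
  · exact hb i h5

end

end Pool.Agent.NIPFields.LC
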