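import Mathlib
import Pool.Agent.NIPFields.LDef
import Pool.Agent.NIPFields.LC.HensLocal
import Pool.Agent.NIPFields.LC.LocVal

set_option autoImplicit false

/-!
# Two incomparable definable valuation rings over a non-henselian one
-/

namespace Pool.Agent.NIPFields.LC

open FirstOrder FirstOrder.Language FirstOrder.Ring Set Filter IsLocalRing Polynomial

universe u

section

variable {K : Type u} [Field K] [CompatibleRing K] {L : Type*} [Field L] [Algebra K L] {d : ℕ}
  {e : Module.Basis (Fin d) K L} {α : Type*}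

theorem ldef_ex {P : (α → L) → L → Prop}
    (h : LDef e {w : α ⊕ Unit → L | P (fun a => w (Sum.inl a)) (w (Sum.inr ()))}) :
    LDef e {v : α → L | ∃ x, P v x} := by
  have h1 := h.exists
  convert h1 using 1
  ext v
  constructor
  · rintro ⟨x, hx⟩
    exact ⟨fun _ => x, hx⟩
  · rintro ⟨u, hu⟩
    exact ⟨u (), hu⟩

theorem ldef_all {P : (α → L) → L → Prop}
    (h : LDef e {w : α ⊕ Unit → L | P (fun a => w (Sum.inl a)) (w (Sum.inr ()))}) :
    LDef e {v : α → L | ∀ x, P v x} := by
  have h1 := h.forall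
  convert h1 using 1
  ext v
  constructor
  · intro hx u
    exact hx (u ())
  · intro hu x
    exact hu (fun _ => x)

theorem ldef_and {P Q : (α → L) → Prop} (hP : LDef e {v | P v}) (hQ : LDef e {v | Q v}) :
    LDef e {v | P v ∧ Q v} := hP.inter hQ

theorem ldef_imp {P Q : (α → L) → Prop} (hP : LDef e {v | P v}) (hQ : LDef e {v | Q v}) :
    LDef e {v | P v → Q v} := hP.imp hQ

theorem ldef_not {P : (α → L) → Prop} (hP : LDef e {v | P v}) :
    LDef e {v | ¬ P v} := hP.compl

end

section

variable {O : Type*} [CommRing O] [IsDomain O] [ValuationRing O] (K : Type*) [Field K]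
  [Algebra O K] [IsFractionRing O K] {L : Type*} [Field L] [Algebra K L] [FiniteDimensional K L]
  [Algebra O L] [IsScalarTower O K L]

/-- The localisation of the integral closure at a maximal ideal. -/
noncomputable def locVal (M : Ideal (integralClosure O L)) [hM : M.IsMaximal] :
    ValuationSubring L where
  carrier := {x | ∃ b : integralClosure O L, b ∉ M ∧ ∃ a : integralClosure O L, (b : L) * x = a}
  zero_mem' := ⟨1, (Ideal.ne_top_iff_one M).1 hM.ne_top, 0, by simp⟩
  one_mem' := ⟨1, (Ideal.ne_top_iff_one M).1 hM.ne_top, 1, by simp⟩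
  mul_mem' := by
    rintro x y ⟨b, hb, a, ha⟩ ⟨b', hb', a', ha'⟩
    refine ⟨b * b', fun h => ?_, a * a', ?_⟩
    · rcases hM.isPrime.mem_or_mem h with h | h
      · exact hb h
      · exact hb' h
    · push_cast
      rw [← ha, ← ha']
      ring
  add_mem' := by
    rintro x y ⟨b, hb, a, ha⟩ ⟨b', hb', a', ha'⟩
    refine ⟨b * b', fun h => ?_, a * b' + a' * b, ?_⟩
    · rcases hM.isPrime.mem_or_mem h with h | h
      · exact hb h
      · exact hb' h
    · push_cast
      rw [← ha, ← ha']
      ring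
  neg_mem' := by
    rintro x ⟨b, hb, a, ha⟩
    refine ⟨b, hb, -a, ?_⟩
    push_cast
    rw [← ha]
    ring
  mem_or_inv_mem' := by
    intro x
    obtain ⟨b, hb, h | h⟩ := exists_frac_intCl K x M
    · exact Or.inl ⟨b, hb, h⟩
    · exact Or.inr ⟨b, hb, h⟩

theorem mem_locVal {M : Ideal (integralClosure O L)} [hM : M.IsMaximal] {x : L} :
    x ∈ locVal K M ↔
      ∃ b : integralClosure O L, b ∉ M ∧ ∃ a : integralClosure O L, (b : L) * x = a := Iff.rfl

theorem not_locVal_le {M₁ M₂ : Ideal (integralClosure O L)} [hM₁ : M₁.IsMaximal]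
    [hM₂ : M₂.IsMaximal] (hne : M₁ ≠ M₂) : ¬ locVal K M₁ ≤ locVal K M₂ := by
  intro hle
  have h1 : ¬ M₂ ≤ M₁ := fun h => hne (hM₂.eq_of_le hM₁.ne_top h).symm
  obtain ⟨s, hs2, hs1⟩ := Set.not_subset.1 h1
  have hs0 : (s : L) ≠ 0 := by
    intro h
    apply hs1
    have h2 : s = 0 := Subtype.ext h
    rw [h2]
    exact M₁.zero_mem
  have h2 : (s : L)⁻¹ ∈ locVal K M₁ := ⟨s, hs1, 1, by rw [mul_inv_cancel₀ hs0]; rfl⟩
  obtain ⟨b, hb, a, ha⟩ := hle h2
  apply hb
  have h3 : b = a * s := by
    apply Subtype.ext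
    change (b : L) = (a : L) * (s : L)
    rw [← ha, mul_assoc, inv_mul_cancel₀ hs0, mul_one]
  rw [h3]
  exact M₂.mul_mem_left _ hs2

include K in
theorem exists_sep (M : Ideal (integralClosure O L)) [hM : M.IsMaximal] :
    ∃ s : integralClosure O L, s ∉ M ∧
      ∀ N : Ideal (integralClosure O L), N.IsMaximal → N ≠ M → s ∈ N := by
  classical
  have hfin : Finite (MaximalSpectrum (integralClosure O L)) := finite_maximal_intCl K
  obtain ⟨hft⟩ := nonempty_fintype (MaximalSpectrum (integralClosure O L))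
  by_contra hcon
  push Not at hcon
  let M' : MaximalSpectrum (integralClosure O L) := ⟨M, hM⟩
  have h1 : (Finset.univ.erase M').inf (fun j => j.asIdeal) ≤ M := by
    intro b hb
    by_contra hbi
    obtain ⟨N, hN, hNM, hbN⟩ := hcon b hbi
    apply hbN
    have h2 : (⟨N, hN⟩ : MaximalSpectrum (integralClosure O L)) ≠ M' := by
      intro h
      exact hNM (congrArg MaximalSpectrum.asIdeal h)
    exact (Finset.inf_le (f := fun j : MaximalSpectrum (integralClosure O L) => j.asIdeal)
      (Finset.mem_erase.2 ⟨h2, Finset.mem_univ (⟨N, hN⟩ : MaximalSpectrum _)⟩)) hb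
  obtain ⟨j, hj, hji⟩ := (hM.isPrime.inf_le').1 h1
  have h2 : j.asIdeal = M := j.isMaximal.eq_of_le hM.ne_top hji
  exact (Finset.mem_erase.1 hj).1 (MaximalSpectrum.ext h2)

end

section

variable {O : Type*} [CommRing O] [IsDomain O] [ValuationRing O] {K : Type u} [Field K]
  [CompatibleRing K] [Algebra O K] [IsFractionRing O K] {L : Type*} [Field L] [Algebra K L]
  [FiniteDimensional K L] [Algebra O L] [IsScalarTower O K L]

theorem ldef_integral
    (hO : (univ : Set K).Definable₁ Language.ring (Set.range (algebraMap O K))) :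
    LDef₁ (Module.finBasis K L) {x : L | IsIntegral O x} := by
  have hV : LDef₁ (Module.finBasis K L) (algebraMap K L '' (Set.range (algebraMap O K))) :=
    LDef₁.of_base hO
  have h1 : LDef (Module.finBasis K L) {w : Unit ⊕ Fin (Module.finrank K L) → L |
      ∀ j, w (Sum.inr j) ∈ (algebraMap K L '' (Set.range (algebraMap O K)))} := by
    have h0 := LDef.iInter (fun j : Fin (Module.finrank K L) =>
      LDef₁.mem (α := Unit ⊕ Fin (Module.finrank K L)) hV (LFun.var (Sum.inr j)))
    convert h0 using 1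
    ext w
    simp
  have h2 : LDef (Module.finBasis K L) {w : Unit ⊕ Fin (Module.finrank K L) → L |
      w (Sum.inl ()) ^ (Module.finrank K L) +
        ∑ j, w (Sum.inr j) * w (Sum.inl ()) ^ (j : ℕ) = 0} :=
    LFun.eq (LFun.add (LFun.pow (LFun.var _) _)
      (LFun.sum _ _ (fun j _ => LFun.mul (LFun.var _) (LFun.pow (LFun.var _) _))))
      (LFun.const 0)
  have h3 := (h1.inter h2).exists
  unfold LDef₁
  convert h3 using 1
  ext v
  simp only [mem_ofPred_eq, mem_inter_iff, Sum.elim_inl, Sum.elim_inr]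
  constructor
  · intro hv
    obtain ⟨a, ha⟩ := exists_monic_rel K (⟨v (), hv⟩ : integralClosure O L)
    refine ⟨fun j => algebraMap K L (algebraMap O K (a j)), fun j => ⟨_, ⟨a j, rfl⟩, rfl⟩, ?_⟩
    have h4 := congrArg (fun t : integralClosure O L => (t : L)) ha
    simpa [Algebra.smul_def, ← IsScalarTower.algebraMap_apply] using h4
  · rintro ⟨u, hu1, hu2⟩
    choose a' ha' using hu1
    choose a ha using fun j => (ha' j).1
    have hval : ∀ j, u j = algebraMap O L (a j) := by
      intro j
      rw [← (ha' j).2, ← ha j, ← IsScalarTower.algebraMap_apply]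
    refine ⟨Polynomial.X ^ (Module.finrank K L) + ∑ j : Fin (Module.finrank K L),
      Polynomial.C (a j) * Polynomial.X ^ (j : ℕ), ?_, ?_⟩
    · refine Polynomial.monic_X_pow_add ?_
      exact Polynomial.degree_sum_fin_lt _
    · rw [Polynomial.eval₂_add, Polynomial.eval₂_X_pow, Polynomial.eval₂_finsetSum]
      rw [← hu2]
      congr 1
      refine Finset.sum_congr rfl (fun j _ => ?_)
      rw [Polynomial.eval₂_mul, Polynomial.eval₂_C, Polynomial.eval₂_X_pow, hval]

theorem ldef_ideal
    (hO : (univ : Set K).Definable₁ Language.ring (Set.range (algebraMap O K)))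
    (M : Ideal (integralClosure O L)) [hM : M.IsMaximal] :
    LDef₁ (Module.finBasis K L) {x : L | ∃ b : integralClosure O L, b ∈ M ∧ (b : L) = x} := by
  obtain ⟨s, hsM, hs⟩ := exists_sep K M
  have hB := ldef_integral (L := L) hO
  have h1 : LDef (Module.finBasis K L) {v : Unit → L | IsIntegral O (v ()) ∧
      ∀ y : L, IsIntegral O y → ∃ z : L, IsIntegral O z ∧
        (1 - (s : L) * v () * y) * z = 1} := by
    refine ldef_and (hB.mem (LFun.var _)) (ldef_all (ldef_imp (hB.mem (LFun.var _))
      (ldef_ex (ldef_and (hB.mem (LFun.var _)) ?_))))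
    exact LFun.eq (LFun.mul (LFun.sub (LFun.const 1) (LFun.mul (LFun.mul (LFun.const _)
      (LFun.var _)) (LFun.var _))) (LFun.var _)) (LFun.const 1)
  unfold LDef₁
  convert h1 using 1
  ext v
  simp only [mem_ofPred_eq]
  constructor
  · rintro ⟨b, hb, hbv⟩
    rw [← hbv]
    refine ⟨b.2, fun y hy => ?_⟩
    have hunit : IsUnit (1 - s * b * (⟨y, hy⟩ : integralClosure O L)) := by
      by_contra hnu
      obtain ⟨N, hN, hmem⟩ := exists_max_ideal_of_mem_nonunits hnu
      have h2 : s * b * (⟨y, hy⟩ : integralClosure O L) ∈ N := by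
        by_cases hNM : N = M
        · rw [hNM]
          exact M.mul_mem_right _ (M.mul_mem_left _ hb)
        · exact N.mul_mem_right _ (N.mul_mem_right _ (hs N hN hNM))
      have h3 := N.add_mem hmem h2
      rw [sub_add_cancel] at h3
      exact hN.ne_top ((Ideal.eq_top_iff_one _).2 h3)
    obtain ⟨z, hz⟩ := hunit.exists_right_inv
    refine ⟨z, z.2, ?_⟩
    have h4 := congrArg (fun t : integralClosure O L => (t : L)) hz
    simpa using h4
  · rintro ⟨hv, hy⟩
    refine ⟨⟨v (), hv⟩, ?_, rfl⟩
    by_contra hnb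
    have h2 : s * (⟨v (), hv⟩ : integralClosure O L) ∉ M := by
      intro h
      rcases hM.isPrime.mem_or_mem h with h | h
      · exact hsM h
      · exact hnb h
    obtain ⟨y, i, hi, hyi⟩ := hM.exists_inv h2
    obtain ⟨z, hz, hyz⟩ := hy y y.2
    have h3 : (1 - s * (⟨v (), hv⟩ : integralClosure O L) * y) * ⟨z, hz⟩ = 1 :=
      Subtype.ext (by simpa using hyz)
    have h4 : (1 : integralClosure O L) ∈ M := by
      rw [← h3]
      refine M.mul_mem_right _ ?_
      have h6 : 1 - s * (⟨v (), hv⟩ : integralClosure O L) * y = i := by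
        rw [← hyi]
        ring
      rw [h6]
      exact hi
    exact hM.ne_top ((Ideal.eq_top_iff_one _).2 h4)

theorem ldef_locVal
    (hO : (univ : Set K).Definable₁ Language.ring (Set.range (algebraMap O K)))
    (M : Ideal (integralClosure O L)) [hM : M.IsMaximal] :
    LDef₁ (Module.finBasis K L) {x | x ∈ locVal K M} := by
  have hB := ldef_integral (L := L) hO
  have hI := ldef_ideal (L := L) hO M
  have h1 : LDef (Module.finBasis K L) {v : Unit → L | ∃ b : L, (IsIntegral O b ∧
      ¬ b ∈ {x : L | ∃ b : integralClosure O L, b ∈ M ∧ (b : L) = x}) ∧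
        IsIntegral O (b * v ())} := by
    refine ldef_ex (ldef_and (ldef_and (hB.mem (LFun.var _)) (ldef_not (hI.mem (LFun.var _))))
      (hB.mem (LFun.mul (LFun.var _) (LFun.var _))))
  unfold LDef₁
  convert h1 using 1
  ext v
  simp only [mem_ofPred_eq]
  rw [mem_locVal]
  constructor
  · rintro ⟨b, hb, a, ha⟩
    refine ⟨b, ⟨b.2, ?_⟩, ?_⟩
    · rintro ⟨b', hb', hbb⟩
      rw [Subtype.ext hbb] at hb'
      exact hb hb'
    · rw [ha]
      exact a.2
  · rintro ⟨b, ⟨hb1, hb2⟩, hb3⟩
    refine ⟨⟨b, hb1⟩, fun h => hb2 ⟨_, h, rfl⟩, ⟨_, hb3⟩, rfl⟩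

end

theorem exists_incomparable_of_not_henselian {K : Type u} [Field K] [CompatibleRing K]
    {O : ValuationSubring K} (hO : (univ : Set K).Definable₁ Language.ring {x | x ∈ O})
    (hnh : ¬ HenselianLocalRing O) (g : K[X]) (hg : g ≠ 0) :
    ∃ (L : Type u) (_ : Field L) (_ : Algebra K L) (_ : FiniteDimensional K L),
      (g.map (algebraMap K L)).Splits ∧ ∃ O₁ O₂ : ValuationSubring L, ¬ O₁ ≤ O₂ ∧ ¬ O₂ ≤ O₁ ∧
        LDef₁ (Module.finBasis K L) {x | x ∈ O₁} ∧ LDef₁ (Module.finBasis K L) {x | x ∈ O₂} := by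
  by_contra hcon
  apply hnh
  refine { is_henselian := ?_ }
  intro f hf a₀ h0 h1
  have hO' : (univ : Set K).Definable₁ Language.ring (Set.range (algebraMap O K)) := by
    convert hO using 1
    ext x
    constructor
    · rintro ⟨y, rfl⟩
      exact y.2
    · intro hx
      exact ⟨⟨x, hx⟩, rfl⟩
  let L := SplittingField (f.map (algebraMap O K) * g)
  have hnorm : Normal K L := Normal.of_isSplittingField (f.map (algebraMap O K) * g)
  have hspl := SplittingField.splits (f.map (algebraMap O K) * g)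
  have hne : (f.map (algebraMap O K) * g).map (algebraMap K L) ≠ 0 := by
    rw [Polynomial.map_ne_zero_iff (algebraMap K L).injective]
    exact mul_ne_zero (hf.map _).ne_zero hg
  have hs1 : (f.map (algebraMap O L)).Splits := by
    have h2 : (f.map (algebraMap O L)) = (f.map (algebraMap O K)).map (algebraMap K L) := by
      rw [Polynomial.map_map, ← IsScalarTower.algebraMap_eq O K L]
    rw [h2]
    refine Splits.of_dvd hspl hne ?_
    rw [Polynomial.map_mul]
    exact dvd_mul_right _ _
  have hs2 : (g.map (algebraMap K L)).Splits := by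
    refine Splits.of_dvd hspl hne ?_
    rw [Polynomial.map_mul]
    exact dvd_mul_left _ _
  refine exists_root_of_conn (K := K) (L := L) ?_ f hf hs1 a₀ h0 h1
  intro x hx
  -- a unique maximal ideal
  have huniq : ∀ M₁ M₂ : Ideal (integralClosure O L), M₁.IsMaximal → M₂.IsMaximal → M₁ = M₂ := by
    intro M₁ M₂ hM₁ hM₂
    by_contra hM
    exact hcon ⟨L, inferInstance, inferInstance, inferInstance, hs2, locVal K M₁, locVal K M₂,
      not_locVal_le K hM, not_locVal_le K (Ne.symm hM), ldef_locVal hO' M₁, ldef_locVal hO' M₂⟩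
  by_cases hu : IsUnit x
  · right
    exact (Ideal.unit_mul_mem_iff_mem _ hu).1 hx
  · left
    have hu' : IsUnit (x - 1) := by
      by_contra hu'
      obtain ⟨N, hN, hmem⟩ := exists_max_ideal_of_mem_nonunits hu
      obtain ⟨N', hN', hmem'⟩ := exists_max_ideal_of_mem_nonunits hu'
      rw [huniq N' N hN' hN] at hmem'
      have h3 := N.sub_mem hmem hmem'
      rw [sub_sub_cancel] at h3
      exact hN.ne_top ((Ideal.eq_top_iff_one _).2 h3)
    exact (Ideal.mul_unit_mem_iff_mem _ hu').1 hx

end Pool.Agent.NIPFields.LC
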