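import Mathlib
import Pool.Agent.NIPFields.LC.FinVE
import Pool.Agent.NIPFields.LC.GermCompat
import Pool.Agent.NIPFields.LC.TwoVal
import Pool.Agent.NIPFields.LC.NoIncomp
import Pool.Agent.NIPFields.LC.Galois0
import Pool.Agent.NIPFields.FI.Global

set_option autoImplicit false

/-!
# Shelah's conjecture for NIP fields with finitely many power classes, all characteristics
-/

namespace Pool.Agent.NIPFields.LC

open FirstOrder FirstOrder.Language FirstOrder.Ring Set Filter IsLocalRing Module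
open scoped Polynomial

universe u v

/-- A nontrivial definable valuation ring from a proper subgroup of powers of finite index. -/
theorem exists_definable_of_finiteIndex {L : Type u} [Field L] [CompatibleRing L] (hL : NIP L)
    [Infinite L] {ℓ : ℕ} (hℓ : 2 ≤ ℓ) (hfin : ((powMonoidHom ℓ : Lˣ →* Lˣ).range).FiniteIndex)
    (hnp : ∃ a : L, ∀ y, a ≠ y ^ ℓ) (hi : ∃ i : L, i ^ 2 = -1) :
    ∃ O' : ValuationSubring L, O' ≠ ⊤ ∧
      (univ : Set L).Definable₁ Language.ring {x | x ∈ O'} := by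
  obtain ⟨a, ha⟩ := hnp
  have ha0 : a ≠ 0 := by
    rintro rfl
    exact ha 0 (zero_pow (by omega)).symm
  obtain ⟨H, U, c, t, hH, hU, hHg, hH0, hHn, hVE, ht, htU⟩ :=
    exists_VE_of_finiteIndex hL (by omega) hfin ⟨a, ha0, ha⟩
  exact exists_definable_of_VE hL hℓ hfin hi hH hU hHg hH0 hHn hVE ht htU

/-- Definable valuation rings on NIP fields are henselian if the squares and cubes have finite
index in all finite extensions. -/
theorem henselian_of_definable {K : Type u} [Field K] [CompatibleRing K] (hK : NIP K)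
    (hfin : ∀ (L : Type u) [Field L] [Algebra K L] [FiniteDimensional K L] (ℓ : ℕ),
      (ℓ = 2 ∨ ℓ = 3) → (ℓ : L) ≠ 0 → ((powMonoidHom ℓ : Lˣ →* Lˣ).range).FiniteIndex)
    {O : ValuationSubring K} (hO : (univ : Set K).Definable₁ Language.ring {x | x ∈ O}) :
    HenselianLocalRing O := by
  by_contra hnh
  have hg : (Polynomial.X ^ 2 + Polynomial.X + 1 : K[X]) ≠ 0 := by
    intro h
    have h1 := congrArg (fun q : K[X] => q.coeff 0) h
    simp at h1
  obtain ⟨L, fL, aL, fdL, hsplit, O₁, O₂, h1, h2, hd1, hd2⟩ :=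
    exists_incomparable_of_not_henselian hO hnh _ hg
  refine no_incomparable hK O₁ O₂ h1 h2 hd1 hd2 ?_
    (fun h => hfin L 2 (Or.inl rfl) (by exact_mod_cast h))
    (fun h => hfin L 3 (Or.inr rfl) (by exact_mod_cast h))
  have hdeg : ((Polynomial.X ^ 2 + Polynomial.X + 1 : K[X]).map (algebraMap K L)).degree ≠ 0 := by
    have h3 : ((Polynomial.X ^ 2 + Polynomial.X + 1 : K[X])).degree = 2 := by compute_degree!
    rw [Polynomial.degree_map, h3]
    decide
  obtain ⟨ω, hω⟩ := hsplit.exists_eval_eq_zero hdeg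
  refine ⟨ω, ?_⟩
  simpa using hω

/-- Restriction of a nontrivial definable valuation ring to the base field. -/
theorem exists_definable_restrict {K : Type u} [Field K] [CompatibleRing K] {L : Type v}
    [Field L] [Algebra K L] [FiniteDimensional K L] [CompatibleRing L] {O' : ValuationSubring L}
    (hO' : O' ≠ ⊤) (hdef : (univ : Set L).Definable₁ Language.ring {x | x ∈ O'}) :
    ∃ O : ValuationSubring K, O ≠ ⊤ ∧
      (univ : Set K).Definable₁ Language.ring {x | x ∈ O} := by
  let bas : Module.Basis (Fin (Module.finrank K L)) K L := Module.finBasis K L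
  have hdef : (univ : Set K).Definable₁ Language.ring {x : K | algebraMap K L x ∈ {x | x ∈ O'}} :=
    (LDef₁.of_definable (e := bas) hdef).restrict
  let O : ValuationSubring K := O'.comap (algebraMap K L)
  refine ⟨O, ?_, hdef⟩
  intro htop
  apply hO'
  rw [eq_top_iff]
  intro x _
  have hint : IsIntegral O' x := by
    have h1 : IsIntegral K x := IsIntegral.of_finite K x
    let φ : K →+* O' := (algebraMap K L).codRestrict O' (by
      intro y
      have : y ∈ O := by rw [htop]; trivial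
      exact this)
    obtain ⟨q, hq, hqx⟩ := h1
    refine ⟨q.map φ, hq.map φ, ?_⟩
    rw [Polynomial.eval₂_map]
    exact hqx
  obtain ⟨y, hy⟩ := IsIntegrallyClosed.isIntegral_iff.1 hint
  rw [← hy]
  exact y.2

/-- The local form: one finite extension with a proper subgroup of powers of finite index gives
a nontrivial definable valuation ring. -/
theorem exists_definable_of_extension {K : Type u} [Field K] [CompatibleRing K] (hK : NIP K)
    [Infinite K] {L : Type u} [Field L] [Algebra K L] [FiniteDimensional K L] {ℓ : ℕ}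
    (hℓ : 2 ≤ ℓ) (hfin : ((powMonoidHom ℓ : Lˣ →* Lˣ).range).FiniteIndex)
    (hnp : ∃ a : L, ∀ y, a ≠ y ^ ℓ) (hi : ∃ i : L, i ^ 2 = -1) :
    ∃ O : ValuationSubring K, O ≠ ⊤ ∧
      (univ : Set K).Definable₁ Language.ring {x | x ∈ O} := by
  let _ : CompatibleRing L := compatibleRingOfRing L
  have hinf : Infinite L := Infinite.of_injective _ (algebraMap K L).injective
  have hL : NIP L := hK.finite (Module.finBasis K L)
  obtain ⟨O', hO'1, hO'2⟩ := exists_definable_of_finiteIndex hL hℓ hfin hnp hi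
  exact exists_definable_restrict hO'1 hO'2

/-- The global form in characteristic zero. -/
theorem shelah_charZero {K : Type u} [Field K] [CompatibleRing K] (hK : NIP K) [CharZero K]
    (hfin : ∀ (L : Type u) [Field L] [Algebra K L] [FiniteDimensional K L] (ℓ : ℕ),
      ℓ.Prime → ((powMonoidHom ℓ : Lˣ →* Lˣ).range).FiniteIndex) :
    IsAlgClosed K ∨ finrank K (AlgebraicClosure K) = 2 ∨
      ∃ O : ValuationSubring K, O ≠ ⊤ ∧ HenselianLocalRing O ∧
        (univ : Set K).Definable₁ Language.ring {x | x ∈ O} := by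
  have _ : Infinite K := CharZero.infinite K
  rcases exists_not_power (K := K) with h | h | ⟨L, fL, aL, q, fdL, hi, hq, ha⟩
  · exact Or.inl h
  · exact Or.inr (Or.inl h)
  · obtain ⟨O, hO1, hO2⟩ := exists_definable_of_extension hK (L := L) hq.two_le (hfin L q hq) ha hi
    refine Or.inr (Or.inr ⟨O, hO1, henselian_of_definable hK ?_ hO2, hO2⟩)
    intro E _ _ _ ℓ hℓ _
    rcases hℓ with rfl | rfl
    · exact hfin E 2 Nat.prime_two
    · exact hfin E 3 Nat.prime_three

/-- All hypotheses together. -/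
theorem shelah_bounded {K : Type u} [Field K] [CompatibleRing K] (hK : NIP K)
    (h : (∀ n : ℕ, 0 < n →
          {E : IntermediateField K (SeparableClosure K) | Module.finrank K E = n}.Finite) ∨
      (∀ (L : Type u) [Field L] [Algebra K L] [FiniteDimensional K L] (ℓ : ℕ),
          ℓ.Prime → (ℓ : L) ≠ 0 → ((powMonoidHom ℓ : Lˣ →* Lˣ).range).FiniteIndex) ∨
      ((∃ (L : Type u) (_ : Field L) (_ : Algebra K L) (ℓ : ℕ),
          FiniteDimensional K L ∧ 2 ≤ ℓ ∧ (∃ i : L, i ^ 2 = -1) ∧ (∃ a : L, ∀ y : L, a ≠ y ^ ℓ) ∧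
            ((powMonoidHom ℓ : Lˣ →* Lˣ).range).FiniteIndex) ∧
        ∀ (L : Type u) [Field L] [Algebra K L] [FiniteDimensional K L] (ℓ : ℕ),
          (ℓ = 2 ∨ ℓ = 3) → (ℓ : L) ≠ 0 → ((powMonoidHom ℓ : Lˣ →* Lˣ).range).FiniteIndex) ∨
      (∃ (p : ℕ) (L : Type u) (_ : Field L) (_ : Algebra K L) (ℓ : ℕ),
          p.Prime ∧ CharP K p ∧ FiniteDimensional K L ∧ ¬ p ∣ ℓ ∧ (∃ a : L, ∀ y : L, a ≠ y ^ ℓ) ∧
            ((powMonoidHom ℓ : Lˣ →* Lˣ).range).FiniteIndex)) :
    Finite K ∨ IsSepClosed K ∨ Module.finrank K (AlgebraicClosure K) = 2 ∨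
      ∃ O : ValuationSubring K, O ≠ ⊤ ∧ HenselianLocalRing O ∧
        (univ : Set K).Definable₁ Language.ring {x | x ∈ O} := by
  by_cases hKf : Finite K
  · exact Or.inl hKf
  have _ : Infinite K := not_finite_iff_infinite.1 hKf
  -- the case of positive characteristic
  have key : ∀ p : ℕ, p.Prime → CharP K p →
      ((∃ (L : Type u) (_ : Field L) (_ : Algebra K L) (ℓ : ℕ),
          FiniteDimensional K L ∧ ¬ p ∣ ℓ ∧ (∃ a : L, ∀ y : L, a ≠ y ^ ℓ) ∧
            ((powMonoidHom ℓ : Lˣ →* Lˣ).range).FiniteIndex) ∨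
      (∀ (L : Type u) [Field L] [Algebra K L] [FiniteDimensional K L] (ℓ : ℕ),
          ℓ.Prime → ℓ ≠ p → ((powMonoidHom ℓ : Lˣ →* Lˣ).range).FiniteIndex) ∨
      (∀ n : ℕ, 0 < n →
          {E : IntermediateField K (SeparableClosure K) | Module.finrank K E = n}.Finite)) →
      Finite K ∨ IsSepClosed K ∨ Module.finrank K (AlgebraicClosure K) = 2 ∨
      ∃ O : ValuationSubring K, O ≠ ⊤ ∧ HenselianLocalRing O ∧
        (univ : Set K).Definable₁ Language.ring {x | x ∈ O} := by
    intro p hp hch h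
    have _ : Fact p.Prime := ⟨hp⟩
    rcases FI.shelah_dichotomy (K := K) hK p with h0 | ⟨h1, h2, h3⟩
    · rcases h0 with h0 | h0 | h0
      · exact Or.inl h0
      · exact Or.inr (Or.inl h0)
      · exact Or.inr (Or.inr (Or.inr h0))
    · exfalso
      rcases h with ⟨L, fL, aL, ℓ, hfd, hℓ, ⟨a, ha⟩, hfin⟩ | h | h
      · rcases h1 L ℓ hℓ with h4 | h4
        · obtain ⟨y, hy⟩ := h4 a
          exact ha y hy.symm
        · exact h4 hfin
      · obtain ⟨L, fL, aL, ℓ, hfd, _, hℓ, hℓp, hinf⟩ := h2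
        exact hinf (h L ℓ hℓ hℓp)
      · obtain ⟨n, hn, hinf⟩ := h3
        exact hinf (h n hn)
  obtain ⟨p, hchp⟩ := CharP.exists K
  rcases CharP.char_is_prime_or_zero K p with hp | hp
  · rcases h with h | h | ⟨⟨L, fL, aL, ℓ, hfd, hℓ2, hi, ha, hfin⟩, h⟩ |
      ⟨q, L, fL, aL, ℓ, hq, hchq, hfd, hℓ, ha, hfin⟩
    · exact key p hp hchp (Or.inr (Or.inr h))
    · refine key p hp hchp (Or.inr (Or.inl fun L _ _ _ ℓ hℓ hℓp => h L ℓ hℓ fun h0 => hℓp ?_))
      have hchL : CharP L p := charP_of_injective_algebraMap (algebraMap K L).injective p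
      exact ((Nat.prime_dvd_prime_iff_eq hp hℓ).1 ((CharP.cast_eq_zero_iff L p ℓ).1 h0)).symm
    · obtain ⟨O, hO1, hO2⟩ := exists_definable_of_extension hK (L := L) hℓ2 hfin ha hi
      exact Or.inr (Or.inr (Or.inr ⟨O, hO1, henselian_of_definable hK h hO2, hO2⟩))
    · exact key q hq hchq (Or.inl ⟨L, fL, aL, ℓ, hfd, hℓ, ha, hfin⟩)
  · subst hp
    have _ : CharZero K := CharP.charP_to_charZero K
    have hfinish : (∀ (L : Type u) [Field L] [Algebra K L] [FiniteDimensional K L] (ℓ : ℕ),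
        ℓ.Prime → ((powMonoidHom ℓ : Lˣ →* Lˣ).range).FiniteIndex) →
        Finite K ∨ IsSepClosed K ∨ Module.finrank K (AlgebraicClosure K) = 2 ∨
        ∃ O : ValuationSubring K, O ≠ ⊤ ∧ HenselianLocalRing O ∧
          (univ : Set K).Definable₁ Language.ring {x | x ∈ O} := by
      intro h
      rcases shelah_charZero hK h with h0 | h0 | h0
      · exact Or.inr (Or.inl inferInstance)
      · exact Or.inr (Or.inr (Or.inl h0))
      · exact Or.inr (Or.inr (Or.inr h0))
    rcases h with h | h | ⟨⟨L, fL, aL, ℓ, hfd, hℓ2, hi, ha, hfin⟩, h⟩ |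
      ⟨q, L, fL, aL, ℓ, hq, hchq, hfd, hℓ, ha, hfin⟩
    · refine hfinish fun L _ _ _ ℓ hℓ => ?_
      have _ : CharZero L := charZero_of_injective_algebraMap (algebraMap K L).injective
      exact FI.finiteIndex_of_bounded (K := K) (Nat.cast_ne_zero.2 hℓ.ne_zero) h
    · refine hfinish fun L _ _ _ ℓ hℓ => ?_
      have _ : CharZero L := charZero_of_injective_algebraMap (algebraMap K L).injective
      exact h L ℓ hℓ (Nat.cast_ne_zero.2 hℓ.ne_zero)
    · obtain ⟨O, hO1, hO2⟩ := exists_definable_of_extension hK (L := L) hℓ2 hfin ha hi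
      exact Or.inr (Or.inr (Or.inr ⟨O, hO1, henselian_of_definable hK h hO2, hO2⟩))
    · exfalso
      have h1 : (q : K) = 0 := CharP.cast_eq_zero K q
      exact hq.ne_zero (Nat.cast_eq_zero.1 h1)

end Pool.Agent.NIPFields.LC
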