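import Mathlib

/-!
# Two independent valuations and small roots (core of TT)
-/

set_option autoImplicit false

universe u v

namespace Pool.Agent.NIPFields.LC

namespace TTaux

open Finset Polynomial

variable {F : Type u} [Field F]

lemma val_natCast_le_one (O : ValuationSubring F) (n : ℕ) : O.valuation (n : F) ≤ 1 := by
  rw [ValuationSubring.valuation_le_one_iff]
  exact natCast_mem O n

lemma val_zeta (O : ValuationSubring F) {ζ : F} {ℓ : ℕ} (hℓ : ℓ ≠ 0) (hζ : ζ ^ ℓ = 1) :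
    O.valuation ζ = 1 := by
  have h : (O.valuation ζ) ^ ℓ = 1 := by rw [← map_pow, hζ, map_one]
  exact (pow_eq_one_iff.1 h).resolve_right hℓ

lemma pow_mod_ell {ζ : F} {ℓ : ℕ} (hζ : ζ ^ ℓ = 1) (j : ℕ) : ζ ^ (j % ℓ) = ζ ^ j := by
  conv_rhs => rw [← Nat.div_add_mod j ℓ, pow_add, pow_mul, hζ, one_pow, one_mul]

lemma le_val_one_sub (O : ValuationSubring F) {ζ : F} {ℓ : ℕ} (hℓ : 2 ≤ ℓ)
    (hζ : IsPrimitiveRoot ζ ℓ) {j : ℕ} (hj : ζ ^ j ≠ 1) :
    O.valuation (ℓ : F) ≤ O.valuation (ζ ^ j - 1) := by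
  obtain ⟨n, rfl⟩ : ∃ n, ℓ = n + 1 := ⟨ℓ - 1, by omega⟩
  have h1 : ζ ^ (j % (n + 1)) = ζ ^ j := pow_mod_ell hζ.pow_eq_one j
  have hlt : j % (n + 1) < n + 1 := Nat.mod_lt _ (by omega)
  have hne : j % (n + 1) ≠ 0 := by
    intro h0
    rw [h0, pow_zero] at h1
    exact hj h1.symm
  obtain ⟨m, hm⟩ : ∃ m, j % (n + 1) = m + 1 := ⟨j % (n + 1) - 1, by omega⟩
  rw [← h1, hm]
  have hprod := hζ.prod_one_sub_pow_eq_order
  have hmem : m ∈ range n := by rw [mem_range]; omega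
  have h2 : O.valuation ((n + 1 : ℕ) : F) =
      ∏ k ∈ range n, O.valuation (1 - ζ ^ (k + 1)) := by
    rw [← map_prod, hprod]
    push_cast
    rfl
  rw [h2, ← mul_prod_erase _ _ hmem, Valuation.map_sub_swap]
  refine mul_le_of_le_one_right' ?_
  apply prod_le_one'
  intro k _
  refine le_trans (Valuation.map_sub _ _ _) ?_
  rw [map_one, map_pow, val_zeta O (by omega) hζ.pow_eq_one, one_pow, max_self]

lemma root_unique (O : ValuationSubring F) {ζ : F} {ℓ : ℕ} (hℓ : 2 ≤ ℓ)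
    (hζ : IsPrimitiveRoot ζ ℓ) {y : F} {a b : ℕ}
    (ha : O.valuation (y - ζ ^ a) < O.valuation (ℓ : F))
    (hb : O.valuation (y - ζ ^ b) < O.valuation (ℓ : F)) : ζ ^ a = ζ ^ b := by
  have h1 : O.valuation (ζ ^ a - ζ ^ b) < O.valuation (ℓ : F) := by
    have := Valuation.map_sub_lt O.valuation hb ha
    rwa [show y - ζ ^ b - (y - ζ ^ a) = ζ ^ a - ζ ^ b by ring] at this
  have h2 : ζ ^ b * ζ ^ (a + b * (ℓ - 1)) = ζ ^ a := by
    rw [← pow_add, show b + (a + b * (ℓ - 1)) = a + ℓ * b by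
      obtain ⟨n, rfl⟩ : ∃ n, ℓ = n + 1 := ⟨ℓ - 1, by omega⟩
      rw [Nat.add_sub_cancel]
      ring, pow_add, pow_mul, hζ.pow_eq_one, one_pow, mul_one]
  by_contra hne
  have h3 : ζ ^ (a + b * (ℓ - 1)) ≠ 1 := by
    intro h
    rw [h, mul_one] at h2
    exact hne h2.symm
  have h4 := le_val_one_sub O hℓ hζ h3
  have h5 : ζ ^ a - ζ ^ b = ζ ^ b * (ζ ^ (a + b * (ℓ - 1)) - 1) := by
    rw [mul_sub, h2, mul_one]
  rw [h5, map_mul, map_pow, val_zeta O (by omega) hζ.pow_eq_one, one_pow, one_mul] at h1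
  exact absurd h4 (not_le.2 h1)

lemma exists_near (O : ValuationSubring F) {ζ : F} {ℓ : ℕ} (hℓ : 2 ≤ ℓ)
    (hζ : IsPrimitiveRoot ζ ℓ) {y : F}
    (hy : O.valuation (y ^ ℓ - 1) < O.valuation ((ℓ : F) ^ ℓ)) :
    ∃ a, O.valuation (y - ζ ^ a) < O.valuation (ℓ : F) := by
  by_contra hcon
  push Not at hcon
  have h1 := X_pow_sub_C_eq_prod hζ (by omega) (one_pow ℓ)
  have h2 : y ^ ℓ - 1 = ∏ i ∈ range ℓ, (y - ζ ^ i) := by
    have := congrArg (Polynomial.eval y) h1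
    simpa [eval_prod] using this
  rw [h2, map_prod, map_pow] at hy
  have h3 := pow_card_le_prod (range ℓ) (fun i => O.valuation (y - ζ ^ i))
    (O.valuation (ℓ : F)) (fun i _ => hcon i)
  rw [card_range] at h3
  exact absurd h3 (not_le.2 hy)

/-- units close to `1` -/
def UB (O : Bool → ValuationSubring F) (β : Bool → F) (h0 : ∀ i, β i ≠ 0)
    (h1 : ∀ i, (O i).valuation (β i) ≤ 1) : Subgroup Fˣ where
  carrier := {u | ∀ i, (O i).valuation ((u : F) - 1) < (O i).valuation (β i)}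
  one_mem' := by
    intro i
    rw [Units.val_one, sub_self, map_zero]
    exact zero_lt_iff.2 ((Valuation.ne_zero_iff _).2 (h0 i))
  mul_mem' := by
    intro u w hu hw i
    have e : ((u * w : Fˣ) : F) - 1 =
        (((u : F) - 1) * ((w : F) - 1) + ((u : F) - 1)) + ((w : F) - 1) := by
      rw [Units.val_mul]; ring
    rw [e]
    refine Valuation.map_add_lt _ (Valuation.map_add_lt _ ?_ (hu i)) (hw i)
    rw [map_mul]
    refine lt_of_le_of_lt ?_ (hu i)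
    exact mul_le_of_le_one_right' ((hw i).le.trans (h1 i))
  inv_mem' := by
    intro u hu i
    have hv : (O i).valuation (u : F) = 1 := by
      have := Valuation.map_one_add_of_lt (O i).valuation ((hu i).trans_le (h1 i))
      rwa [add_sub_cancel] at this
    have e : ((u⁻¹ : Fˣ) : F) - 1 = -(((u : F) - 1) * ((u : F))⁻¹) := by
      rw [Units.val_inv_eq_inv_val, sub_mul, mul_inv_cancel₀ u.ne_zero]
      ring
    rw [e, Valuation.map_neg, map_mul, map_inv₀, hv, inv_one, mul_one]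
    exact hu i

lemma mem_UB {O : Bool → ValuationSubring F} {β : Bool → F} {h0 : ∀ i, β i ≠ 0}
    {h1 : ∀ i, (O i).valuation (β i) ≤ 1} {u : Fˣ} :
    u ∈ UB O β h0 h1 ↔ ∀ i, (O i).valuation ((u : F) - 1) < (O i).valuation (β i) := Iff.rfl

lemma finite_quotient {G : Type u} [Group G] (N : Subgroup G) {C : Type v} [Finite C]
    (θ : G → C) (h : ∀ x y, θ x = θ y → x⁻¹ * y ∈ N) : Finite (G ⧸ N) := by
  apply Finite.of_injective (fun q : G ⧸ N => θ q.out)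
  intro q q' hq
  have h1 := h _ _ hq
  rw [← QuotientGroup.out_eq' q, ← QuotientGroup.out_eq' q']
  exact QuotientGroup.eq.2 h1

/-- the number `ℓ` for both valuations -/
def bl (F : Type u) [Field F] (ℓ : ℕ) : Bool → F := fun _ => (ℓ : F)

lemma bl_ne {ℓ : ℕ} (hℓ0 : (ℓ : F) ≠ 0) : ∀ i, bl F ℓ i ≠ 0 := fun _ => hℓ0

lemma bl_le (O : Bool → ValuationSubring F) (ℓ : ℕ) : ∀ i, (O i).valuation (bl F ℓ i) ≤ 1 :=
  fun i => val_natCast_le_one (O i) ℓ

/-- the number `ℓ ^ ℓ` for both valuations -/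
def bll (F : Type u) [Field F] (ℓ : ℕ) : Bool → F := fun _ => (ℓ : F) ^ ℓ

lemma bll_ne {ℓ : ℕ} (hℓ0 : (ℓ : F) ≠ 0) : ∀ i, bll F ℓ i ≠ 0 := fun _ => pow_ne_zero _ hℓ0

lemma bll_le (O : Bool → ValuationSubring F) (ℓ : ℕ) : ∀ i, (O i).valuation (bll F ℓ i) ≤ 1 := by
  intro i
  show (O i).valuation ((ℓ : F) ^ ℓ) ≤ 1
  rw [map_pow]
  exact pow_le_one' (val_natCast_le_one (O i) ℓ) ℓ

lemma val_eq_one_of_near {O : ValuationSubring F} {ℓ : ℕ} {y z : F}
    (hz : O.valuation z = 1) (h : O.valuation (y - z) < O.valuation (ℓ : F)) :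
    O.valuation y = 1 := by
  have h1 : O.valuation (y - z) < O.valuation z := by
    rw [hz]
    exact h.trans_le (val_natCast_le_one O ℓ)
  have h2 := Valuation.map_add_eq_of_lt_left O.valuation h1
  rwa [add_sub_cancel, hz] at h2

/-- `ℓ`-th powers close to `1`, up to a root of unity -/
lemma exists_split (O : Bool → ValuationSubring F) {ζ : F} {ℓ : ℕ} (hℓ : 2 ≤ ℓ)
    (hζ : IsPrimitiveRoot ζ ℓ) {y : F}
    (hy : ∀ i, (O i).valuation (y ^ ℓ - 1) < (O i).valuation (bll F ℓ i)) :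
    ∃ (w : F) (j : Fin ℓ), w ^ ℓ = y ^ ℓ ∧ (O true).valuation (w - ζ ^ (j : ℕ)) <
      (O true).valuation (ℓ : F) ∧ (O false).valuation (w - 1) < (O false).valuation (ℓ : F) := by
  obtain ⟨a, ha⟩ := exists_near (O true) hℓ hζ (hy true)
  obtain ⟨b, hb⟩ := exists_near (O false) hℓ hζ (hy false)
  have hζ1 := hζ.pow_eq_one
  refine ⟨y * ζ ^ (b * (ℓ - 1)), ⟨(a + b * (ℓ - 1)) % ℓ, Nat.mod_lt _ (by omega)⟩, ?_, ?_, ?_⟩
  · rw [mul_pow, ← pow_mul, mul_comm _ ℓ, pow_mul, hζ1, one_pow, mul_one]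
  · simp only
    rw [pow_mod_ell hζ1, pow_add, ← sub_mul, map_mul, map_pow,
      val_zeta (O true) (by omega) hζ1, one_pow, mul_one]
    exact ha
  · have e : ζ ^ b * ζ ^ (b * (ℓ - 1)) = 1 := by
      rw [← pow_add, show b + b * (ℓ - 1) = ℓ * b by
        obtain ⟨n, rfl⟩ : ∃ n, ℓ = n + 1 := ⟨ℓ - 1, by omega⟩
        rw [Nat.add_sub_cancel]
        ring, pow_mul, hζ1, one_pow]
    rw [← e, ← sub_mul, map_mul, map_pow, val_zeta (O false) (by omega) hζ1, one_pow, mul_one]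
    exact hb

/-- the group of `ℓ`-th powers of units close to `1` -/
def NN (O : Bool → ValuationSubring F) {ℓ : ℕ} (hℓ0 : (ℓ : F) ≠ 0) : Subgroup Fˣ :=
  (UB O (bl F ℓ) (bl_ne hℓ0) (bl_le O ℓ)).map (powMonoidHom ℓ)

lemma mem_NN {O : Bool → ValuationSubring F} {ℓ : ℕ} {hℓ0 : (ℓ : F) ≠ 0} {u : Fˣ} :
    u ∈ NN O hℓ0 ↔ ∃ w : Fˣ, (∀ i, (O i).valuation ((w : F) - 1) < (O i).valuation (ℓ : F)) ∧
      w ^ ℓ = u := by
  rw [NN, Subgroup.mem_map]
  rfl

lemma finite_Q {O : Bool → ValuationSubring F} {ζ : F} {ℓ : ℕ} (hℓ : 2 ≤ ℓ)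
    (hℓ0 : (ℓ : F) ≠ 0) (hζ : IsPrimitiveRoot ζ ℓ)
    (hfin : ((powMonoidHom ℓ : Fˣ →* Fˣ).range).FiniteIndex) :
    Finite (UB O (bll F ℓ) (bll_ne hℓ0) (bll_le O ℓ) ⧸
      (NN O hℓ0).subgroupOf (UB O (bll F ℓ) (bll_ne hℓ0) (bll_le O ℓ))) := by
  classical
  set P : Subgroup Fˣ := (powMonoidHom ℓ : Fˣ →* Fˣ).range with hP
  set U := UB O (bll F ℓ) (bll_ne hℓ0) (bll_le O ℓ) with hU
  have hζ1 := hζ.pow_eq_one
  -- representatives
  have hrep : ∀ q : Fˣ ⧸ P, ∃ u₀ : U, ∀ u : U, ((u : Fˣ) : Fˣ ⧸ P) = q →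
      ((u₀ : Fˣ) : Fˣ ⧸ P) = q := by
    intro q
    by_cases h : ∃ u : U, ((u : Fˣ) : Fˣ ⧸ P) = q
    · obtain ⟨u, hu⟩ := h
      exact ⟨u, fun _ _ => hu⟩
    · exact ⟨1, fun u hu => absurd ⟨u, hu⟩ h⟩
  choose r hr using hrep
  have hsplit : ∀ u : U, ∃ (j : Fin ℓ) (w : F), w ^ ℓ =
      ((((r ((u : Fˣ) : Fˣ ⧸ P)) : Fˣ)⁻¹ * (u : Fˣ) : Fˣ) : F) ∧
      (O true).valuation (w - ζ ^ (j : ℕ)) < (O true).valuation (ℓ : F) ∧
      (O false).valuation (w - 1) < (O false).valuation (ℓ : F) := by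
    intro u
    have h1 := hr _ u rfl
    rw [QuotientGroup.eq] at h1
    obtain ⟨y, hy⟩ := h1
    have h2 : (r ((u : Fˣ) : Fˣ ⧸ P) : Fˣ)⁻¹ * (u : Fˣ) ∈ U :=
      U.mul_mem (U.inv_mem (r _).2) u.2
    rw [← hy] at h2
    have h3 : ∀ i, (O i).valuation ((y : F) ^ ℓ - 1) < (O i).valuation (bll F ℓ i) := by
      intro i
      have := mem_UB.1 h2 i
      simpa using this
    obtain ⟨w, j, h4, h5, h6⟩ := exists_split O hℓ hζ h3
    refine ⟨j, w, ?_, h5, h6⟩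
    rw [h4, ← hy]
    simp
  choose jj ww hw1 hw2 hw3 using hsplit
  have : Finite (Fˣ ⧸ P) := Subgroup.finite_quotient_of_finiteIndex
  refine finite_quotient _ (C := (Fˣ ⧸ P) × Fin ℓ)
    (fun u => (((u : Fˣ) : Fˣ ⧸ P), jj u)) ?_
  intro u u' huu
  rw [Prod.mk.injEq] at huu
  obtain ⟨hq, hj⟩ := huu
  have e1 := hw1 u
  have e1' := hw1 u'
  rw [← hq] at e1'
  set u₀ : Fˣ := (r ((u : Fˣ) : Fˣ ⧸ P) : Fˣ) with hu₀
  have hwne : ww u ≠ 0 := by
    intro h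
    rw [h, zero_pow (by omega)] at e1
    exact (Units.ne_zero _) e1.symm
  have hwne' : ww u' ≠ 0 := by
    intro h
    rw [h, zero_pow (by omega)] at e1'
    exact (Units.ne_zero _) e1'.symm
  rw [Subgroup.mem_subgroupOf]
  refine mem_NN.2 ⟨Units.mk0 (ww u' / ww u) (div_ne_zero hwne' hwne), ?_, ?_⟩
  · have key : ∀ (V : ValuationSubring F) (z : F), V.valuation z = 1 →
        V.valuation (ww u - z) < V.valuation (ℓ : F) →
        V.valuation (ww u' - z) < V.valuation (ℓ : F) →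
        V.valuation (ww u' / ww u - 1) < V.valuation (ℓ : F) := by
      intro V z hz h1 h2
      have h3 := val_eq_one_of_near hz h1
      have h4 : ww u' / ww u - 1 = ((ww u' - z) - (ww u - z)) / ww u := by
        field_simp
        ring
      rw [h4, map_div₀, h3, div_one]
      exact Valuation.map_sub_lt _ h2 h1
    rintro (_ | _)
    · exact key (O false) 1 (map_one _) (hw3 u) (hw3 u')
    · refine key (O true) (ζ ^ (jj u : ℕ)) ?_ (hw2 u) (by rw [hj]; exact hw2 u')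
      rw [map_pow, val_zeta (O true) (by omega) hζ1, one_pow]
  · ext
    rw [Units.val_pow_eq_pow_val, Units.val_mk0, div_pow, e1, e1']
    simp only [Units.val_mul, Units.val_inv_eq_inv_val, Subgroup.coe_mul, Subgroup.coe_inv]
    have h1 : (u₀ : F) ≠ 0 := u₀.ne_zero
    have h2 : ((u : Fˣ) : F) ≠ 0 := (u : Fˣ).ne_zero
    field_simp

end TTaux

open TTaux Polynomial in
/-- TT, relative to the local character theorem -/
theorem TT_of_LC {F : Type u} [Field F] {O : Bool → ValuationSubring F} {ℓ : ℕ} (hℓ : 2 ≤ ℓ)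
    (hℓ0 : (ℓ : F) ≠ 0) {ζ : F} (hζ : IsPrimitiveRoot ζ ℓ)
    (hfin : ((powMonoidHom ℓ : Fˣ →* Fˣ).range).FiniteIndex)
    (hVC : ∀ z : F, ∃ d : ℕ, ∀ f : Fin d → F, ∃ J : Finset (Fin d), ∀ x : F,
      ∃ i, ¬ ((∃ y, (O true).valuation (y - 1) < (O true).valuation (ℓ : F) ∧
        (O false).valuation (y - 1) < (O false).valuation (ℓ : F) ∧
        y ^ ℓ * z = 1 + f i * x) ↔ i ∈ J))
    (hLC : ∀ (Q : Type u) [Group Q] [Finite Q] (c : F → Q),
      (∀ x ∈ {x : F | ∀ i, (O i).valuation x < (O i).valuation ((ℓ : F) ^ ℓ)},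
        ∀ y ∈ {x : F | ∀ i, (O i).valuation x < (O i).valuation ((ℓ : F) ^ ℓ)},
        c ((1 + x) * (1 + y)) = c (1 + x) * c (1 + y)) →
      (∀ q : Q, ∃ d : ℕ, ∀ f : Fin d → F, ∃ J : Finset (Fin d), ∀ x : F,
        (∀ i, f i * x ∈ {x : F | ∀ i, (O i).valuation x < (O i).valuation ((ℓ : F) ^ ℓ)}) →
        ∃ i, ¬ (c (1 + f i * x) = q ↔ i ∈ J)) →
      ∀ g : F[X], ∃ e : F, (O true).valuation (e - 1) < (O true).valuation (ℓ : F) ∧
        (O false).valuation e < (O false).valuation (ℓ : F) ∧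
        e * (1 - e) * g.eval e ∈
          {x : F | ∀ i, (O i).valuation x < (O i).valuation ((ℓ : F) ^ ℓ)} ∧
        c (1 + e * (1 - e) * g.eval e) = 1) : False := by
  classical
  set B : Set F := {x : F | ∀ i, (O i).valuation x < (O i).valuation ((ℓ : F) ^ ℓ)} with hB
  set U := UB O (bll F ℓ) (bll_ne hℓ0) (bll_le O ℓ) with hU
  have hζ1 := hζ.pow_eq_one
  have hBU : ∀ x ∈ B, ∃ u : U, ((u : Fˣ) : F) = 1 + x := by
    intro x hx
    have h1 : 1 + x ≠ 0 := by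
      intro h0
      have h2 : x = -1 := by linear_combination h0
      have h3 := (hx true).trans_le (bll_le O ℓ true)
      rw [h2, Valuation.map_neg, map_one] at h3
      exact lt_irrefl _ h3
    refine ⟨⟨Units.mk0 (1 + x) h1, ?_⟩, rfl⟩
    refine mem_UB.2 fun i => ?_
    rw [Units.val_mk0, add_sub_cancel_left]
    exact hx i
  set N' := (NN O hℓ0).subgroupOf U with hN'
  have : N'.Normal := inferInstance
  have hQ : Finite (U ⧸ N') := finite_Q hℓ hℓ0 hζ hfin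
  set c : F → (U ⧸ N') := fun x =>
    if h : ∃ u : U, ((u : Fˣ) : F) = x then ((Classical.choose h : U) : U ⧸ N') else 1 with hc
  have hcu : ∀ (u : U) (x : F), ((u : Fˣ) : F) = x → c x = (u : U ⧸ N') := by
    intro u x hx
    have hex : ∃ u : U, ((u : Fˣ) : F) = x := ⟨u, hx⟩
    have h1 : Classical.choose hex = u := by
      apply Subtype.ext
      apply Units.ext
      rw [Classical.choose_spec hex, hx]
    rw [hc]
    simp only
    rw [dif_pos hex, h1]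
  obtain ⟨g, hg⟩ : ∃ g : F[X], (1 + (C (ζ - 1)) * X) ^ ℓ = 1 + X * (1 - X) * g := by
    have hX : (X : F[X]) ∣ (1 + (C (ζ - 1)) * X) ^ ℓ - 1 := by
      rw [X_dvd_iff]
      simp [coeff_zero_eq_eval_zero]
    have hX1 : (X - C 1 : F[X]) ∣ (1 + (C (ζ - 1)) * X) ^ ℓ - 1 := by
      rw [dvd_iff_isRoot]
      simp [IsRoot, hζ1]
    have hcop : IsCoprime (X : F[X]) (X - C 1) := ⟨1, -1, by simp⟩
    obtain ⟨g, hg⟩ := hcop.mul_dvd hX hX1
    refine ⟨-g, ?_⟩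
    rw [C_1] at hg
    linear_combination hg
  have hc1 : ∀ x ∈ B, ∀ y ∈ B, c ((1 + x) * (1 + y)) = c (1 + x) * c (1 + y) := by
    intro x hx y hy
    obtain ⟨u, hu⟩ := hBU x hx
    obtain ⟨w, hw⟩ := hBU y hy
    rw [hcu u _ hu, hcu w _ hw, hcu (u * w) _ (by
      rw [Subgroup.coe_mul, Units.val_mul, hu, hw])]
    rfl
  have hc2 : ∀ q : U ⧸ N', ∃ d : ℕ, ∀ f : Fin d → F, ∃ J : Finset (Fin d), ∀ x : F,
      (∀ i, f i * x ∈ B) → ∃ i, ¬ (c (1 + f i * x) = q ↔ i ∈ J) := by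
    intro q
    obtain ⟨u, rfl⟩ := QuotientGroup.mk_surjective q
    obtain ⟨d, hd⟩ := hVC ((u : Fˣ) : F)
    refine ⟨d, fun f => ?_⟩
    obtain ⟨J, hJ⟩ := hd f
    refine ⟨J, fun x hx => ?_⟩
    obtain ⟨i, hi⟩ := hJ x
    refine ⟨i, fun h => hi ?_⟩
    rw [← h]
    obtain ⟨w, hw⟩ := hBU _ (hx i)
    rw [hcu w _ hw, eq_comm (a := (w : U ⧸ N')), QuotientGroup.eq, hN', Subgroup.mem_subgroupOf]
    have hu0 : ((u : Fˣ) : F) ≠ 0 := (u : Fˣ).ne_zero
    constructor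
    · rintro ⟨y, h1, h2, h3⟩
      have hy0 : y ≠ 0 := by
        intro h0
        rw [h0, zero_sub, Valuation.map_neg, map_one] at h1
        exact absurd (val_natCast_le_one (O true) ℓ) (not_le.2 h1)
      refine mem_NN.2 ⟨Units.mk0 y hy0, ?_, ?_⟩
      · rintro (_ | _)
        · exact h2
        · exact h1
      · ext
        rw [← hw] at h3
        simp only [Units.val_pow_eq_pow_val, Units.val_mk0, Subgroup.coe_mul, Subgroup.coe_inv,
          Units.val_mul, Units.val_inv_eq_inv_val]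
        rw [← h3]
        field_simp
    · intro hmem
      obtain ⟨t, h1, h2⟩ := mem_NN.1 hmem
      refine ⟨t, h1 true, h1 false, ?_⟩
      rw [← hw, ← Units.val_pow_eq_pow_val, h2]
      simp only [Subgroup.coe_mul, Subgroup.coe_inv, Units.val_mul, Units.val_inv_eq_inv_val]
      field_simp

  obtain ⟨e, he1, he2, he3, he4⟩ := hLC (U ⧸ N') c hc1 hc2 g
  -- the contradiction
  set y₀ : F := 1 + (ζ - 1) * e with hy₀
  have hy0 : y₀ ^ ℓ = 1 + e * (1 - e) * g.eval e := by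
    have := congrArg (Polynomial.eval e) hg
    simpa using this
  obtain ⟨u, hu⟩ := hBU _ he3
  rw [hcu u _ hu, QuotientGroup.eq_one_iff, hN', Subgroup.mem_subgroupOf] at he4
  obtain ⟨w, hw1, hw2⟩ := mem_NN.1 he4
  have hw3 : (w : F) ^ ℓ = y₀ ^ ℓ := by
    rw [hy0, ← hu, ← hw2, Units.val_pow_eq_pow_val]
  have hw0 : (w : F) ≠ 0 := w.ne_zero
  have hq : (y₀ / (w : F)) ^ ℓ = 1 := by
    rw [div_pow, hw3, div_self]
    rw [← hw3]
    exact pow_ne_zero _ hw0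
  have : NeZero ℓ := ⟨by omega⟩
  obtain ⟨j, _, hj⟩ := hζ.eq_pow_of_pow_eq_one hq
  have hy1 : y₀ - ζ ^ j = ζ ^ j * ((w : F) - 1) := by
    rw [hj]
    field_simp
  have hnear : ∀ i, (O i).valuation (y₀ - ζ ^ j) < (O i).valuation (ℓ : F) := by
    intro i
    rw [hy1, map_mul, map_pow, val_zeta (O i) (by omega) hζ1, one_pow, one_mul]
    exact hw1 i
  have hz1 : ∀ i, (O i).valuation (ζ - 1) ≤ 1 := by
    intro i
    refine le_trans (Valuation.map_sub _ _ _) ?_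
    rw [map_one, val_zeta (O i) (by omega) hζ1, max_self]
  have r1 : ζ ^ 1 = ζ ^ j := by
    refine root_unique (O true) hℓ hζ ?_ (hnear true)
    rw [pow_one, show y₀ - ζ = (ζ - 1) * (e - 1) by rw [hy₀]; ring, map_mul]
    exact lt_of_le_of_lt (mul_le_of_le_one_left' (hz1 true)) he1
  have r2 : ζ ^ 0 = ζ ^ j := by
    refine root_unique (O false) hℓ hζ ?_ (hnear false)
    rw [pow_zero, show y₀ - 1 = (ζ - 1) * e by rw [hy₀]; ring, map_mul]
    exact lt_of_le_of_lt (mul_le_of_le_one_left' (hz1 false)) he2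
  rw [← r2, pow_one, pow_zero] at r1
  exact hζ.ne_one (by omega) r1

end Pool.Agent.NIPFields.LC
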